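import Mathlib
import Pool.Agent.Lib.MP_ae5b4e_an_GEN.Defs
import Pool.Agent.Lib.MP_ae5b4e_an_GEN.Core

/-!
# MP_ae5b4e_an, project GENC: definitions

Singular algebraic curves with an algebraic field of projective involutions.
-/

noncomputable section

namespace Pool.Agent.MP_ae5b4e_an_GENC

open Filter Topology
open scoped Polynomial
open Polynomial (evalEval)
open Pool.Agent.MP_ae5b4e_an_GEN

/-! ### branches of plane curves and their types -/

/-- The germ `φ` of a curve in the projective plane is injective near `0`. -/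
def PInj (φ : ℂ → Fin 3 → ℂ) : Prop :=
  ∀ᶠ p in 𝓝 ((0, 0) : ℂ × ℂ), (∃ c : ℂ, φ p.1 = c • φ p.2) → p.1 = p.2

/-- The germ `φ` has the type `(a, b)`: it is `(1 : w ^ a x₁ : w ^ b y₁)` with `x₁ 0, y₁ 0 ≠ 0`, in
suitable homogeneous coordinates. -/
def PType (φ : ℂ → Fin 3 → ℂ) (a b : ℕ) : Prop :=
  ∃ (A : Matrix (Fin 3) (Fin 3) ℂ) (u x1 y1 : ℂ → ℂ), A.det ≠ 0 ∧
    AnalyticAt ℂ u 0 ∧ u 0 ≠ 0 ∧ AnalyticAt ℂ x1 0 ∧ x1 0 ≠ 0 ∧ AnalyticAt ℂ y1 0 ∧ y1 0 ≠ 0 ∧
    ∀ᶠ w in 𝓝 (0:ℂ), A.mulVec (φ w) = ![u w, w ^ a * x1 w, w ^ b * y1 w]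

/-- Every branch of the curve `P = 0` in the complex projective plane (a germ of an analytic curve
contained in it, with an injective parameter) has a type `(a, b)` with `T a b`. -/
def Branches (P : MvPolynomial (Fin 3) ℂ) (T : ℕ → ℕ → Prop) : Prop :=
  ∀ φ : ℂ → Fin 3 → ℂ, (∀ i, AnalyticAt ℂ (fun w => φ w i) 0) → φ 0 ≠ 0 →
    (∀ᶠ w in 𝓝 (0:ℂ), MvPolynomial.eval (φ w) P = 0) → PInj φ → ∃ a b, T a b ∧ PType φ a b

/-- An irreducible curve of degree `n` such that the centre `(0 : 1 : 0)` of the projection is not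
on the curve and the line at infinity meets the curve in `n` distinct points. -/
structure Chart (P : MvPolynomial (Fin 3) ℂ) (n : ℕ) : Prop where
  hom : P.IsHomogeneous n
  irr : Irreducible P
  top : MvPolynomial.eval ![0, 1, 0] P ≠ 0
  inf : ∀ η : ℂ, MvPolynomial.eval ![1, η, 0] P = 0 →
    MvPolynomial.eval ![1, η, 0] (MvPolynomial.pderiv 1 P) ≠ 0

/-- The linear substitution: `eval v (lsub A P) = eval (A v) P`. -/
def lsub (A : Matrix (Fin 3) (Fin 3) ℂ) (P : MvPolynomial (Fin 3) ℂ) : MvPolynomial (Fin 3) ℂ :=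
  MvPolynomial.bind₁ (fun i => ∑ j, MvPolynomial.C (A i j) * MvPolynomial.X j) P

/-! ### coverings -/

/-- the root of unity `exp (2 π i / N)` -/
def ze (N : ℕ) : ℂ := Complex.exp (2 * Real.pi * Complex.I / N)

open Classical in
/-- The fraction of the rotations of the parameter `w` by the `N`-th roots of unity which do not
change `Y`. -/
def fr (N : ℕ) (Y : ℂ → ℂ) : ℝ :=
  (((Finset.range N).filter fun s =>
    ∀ᶠ w in 𝓝[≠] (0:ℂ), Y (ze N ^ s * w) = Y w).card : ℝ) / N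

/-- The covering of the branches of `m` over `x = X w`, near `w = 0`. -/
structure Cov1 (m : ℂ[X][X]) (X : ℂ → ℂ) (Y : Fin m.natDegree → ℂ → ℂ) : Prop where
  mer : ∀ i, MeromorphicAt (Y i) 0
  root : ∀ᶠ w in 𝓝[≠] (0:ℂ), Function.Injective (fun i => Y i w) ∧
    ∀ t, evalEval (X w) t m = 0 ↔ ∃ i, t = Y i w

/-- A branch of `m` at `z` with the value `η`. -/
def brn (m : ℂ[X][X]) (z η : ℂ) : ℂ → ℂ :=
  open Classical in
  if h : ∃ y : ℂ → ℂ, AnalyticAt ℂ y z ∧ y z = η ∧ ∀ᶠ x in 𝓝 z, evalEval x (y x) m = 0 then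
    Classical.choose h else 0

/-- `y''' / y''` for the branch of `m` at `z` with the value `η`. -/
def lw (m : ℂ[X][X]) (z η : ℂ) : ℂ :=
  deriv (deriv (deriv (brn m z η))) z / deriv (deriv (brn m z η)) z

/-- The function `f` is algebraic over the rational functions, near `t`. -/
def AlgAt (t : ℂ) (f : ℂ → ℂ) : Prop :=
  ∃ F : ℂ[X][X], F ≠ 0 ∧ ∀ᶠ s in 𝓝 t, evalEval s (f s) F = 0

end Pool.Agent.MP_ae5b4e_an_GENC
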