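import Mathlib
import Pool.Agent.Lib.MP_ae5b4e_an_GENC.Defs
import Pool.Agent.Lib.MP_ae5b4e_an_GEN.Core
import Pool.Agent.Lib.MP_ae5b4e_an_GEN.Poly3

/-!
# MP_ae5b4e_an, project GENC: the affine equation of the curve is irreducible
-/

noncomputable section

namespace Pool.Agent.MP_ae5b4e_an_GENC

open Filter Topology Set Metric
open scoped Polynomial
open Polynomial (evalEval)
open Pool.Agent.MP_ae5b4e_an_ND (Reg)
open Pool.Agent.MP_ae5b4e_an_FLEX
open Pool.Agent.MP_ae5b4e_an_GEN

theorem eval_lsub (A : Matrix (Fin 3) (Fin 3) ℂ) (P : MvPolynomial (Fin 3) ℂ) (v : Fin 3 → ℂ) :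
    MvPolynomial.eval v (lsub A P) = MvPolynomial.eval (A.mulVec v) P := by
  unfold lsub
  induction P using MvPolynomial.induction_on with
  | C a => simp
  | add p q hp hq => simp only [map_add, hp, hq]
  | mul_X p i hp =>
    simp only [map_mul, hp, MvPolynomial.bind₁_X_right, map_sum, MvPolynomial.eval_C,
      MvPolynomial.eval_X]
    rfl

namespace Irr

/-- the exponents of a homogeneous polynomial -/
theorem sum_exp {P : MvPolynomial (Fin 3) ℂ} {n : ℕ} (hP : P.IsHomogeneous n)
    {d : Fin 3 →₀ ℕ} (hd : d ∈ P.support) : d 0 + d 1 + d 2 = n := by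
  have h1 : d.degree = n := by
    by_contra hne
    exact (MvPolynomial.mem_support_iff.1 hd) (hP.coeff_eq_zero hne)
  rw [← h1, Finsupp.degree_eq_sum, Fin.sum_univ_three]

/-- the coefficients of the affine equation -/
theorem coeff_P1 (P : MvPolynomial (Fin 3) ℂ) (j : ℕ) :
    (Core.P1 P).coeff j = ∑ d ∈ P.support,
      if d 1 = j then Polynomial.C (P.coeff d) * Polynomial.X ^ (d 0) else 0 := by
  unfold Core.P1
  rw [MvPolynomial.aeval_def, MvPolynomial.eval₂_eq', Polynomial.finsetSum_coeff]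
  apply Finset.sum_congr rfl
  intro d _
  rw [Fin.prod_univ_three]
  simp only [Polynomial.algebraMap_apply, Matrix.cons_val_zero, Matrix.cons_val_one,
    Matrix.cons_val, one_pow, mul_one]
  rw [← Polynomial.C_pow, ← mul_assoc, ← Polynomial.C_mul, Polynomial.coeff_C_mul,
    Polynomial.coeff_X_pow]
  by_cases h : d 1 = j
  · rw [if_pos h, if_pos h.symm, mul_one]
    rfl
  · rw [if_neg h, if_neg (fun h' => h h'.symm), mul_zero]

theorem coeff_P1_top {P : MvPolynomial (Fin 3) ℂ} {n : ℕ} (hP : P.IsHomogeneous n) :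
    (Core.P1 P).coeff n = Polynomial.C (MvPolynomial.eval ![0, 1, 0] P) := by
  rw [coeff_P1, MvPolynomial.eval_eq', map_sum]
  apply Finset.sum_congr rfl
  intro d hd
  have h := sum_exp hP hd
  rw [Fin.prod_univ_three]
  simp only [Matrix.cons_val_zero, Matrix.cons_val_one, Matrix.cons_val, one_pow, mul_one]
  by_cases h1 : d 1 = n
  · have h2 : d 0 = 0 := by omega
    have h3 : d 2 = 0 := by omega
    rw [if_pos h1, h2, h3]
    simp
  · rw [if_neg h1]
    by_cases h2 : d 0 = 0
    · have h3 : d 2 ≠ 0 := by omega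
      rw [zero_pow h3]
      simp
    · rw [zero_pow h2]
      simp

theorem natDegree_P1 {P : MvPolynomial (Fin 3) ℂ} {n : ℕ} (hP : P.IsHomogeneous n)
    (htop : MvPolynomial.eval ![0, 1, 0] P ≠ 0) : (Core.P1 P).natDegree = n := by
  apply Polynomial.natDegree_eq_of_le_of_coeff_ne_zero
  · rw [Polynomial.natDegree_le_iff_coeff_eq_zero]
    intro j hj
    rw [coeff_P1]
    apply Finset.sum_eq_zero
    intro d hd
    have h := sum_exp hP hd
    rw [if_neg (by omega)]
  · rw [coeff_P1_top hP]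
    intro h
    exact htop (Polynomial.C_eq_zero.1 h)

/-- a polynomial in two variables is determined by its values -/
theorem eq_of_evalEval {f g : ℂ[X][X]} (h : ∀ x y, evalEval x y f = evalEval x y g) : f = g := by
  apply Polynomial.eq_of_infinite_eval_eq
  apply (Set.infinite_range_of_injective (Polynomial.C_injective (R := ℂ))).mono
  rintro _ ⟨y, rfl⟩
  apply Polynomial.funext
  intro x
  exact h x y

/-- homogenization -/
theorem exists_hom (f : ℂ[X][X]) : ∃ (a : ℕ) (F : MvPolynomial (Fin 3) ℂ), ∀ x y z : ℂ, z ≠ 0 →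
    z ^ a * evalEval (x / z) (y / z) f = MvPolynomial.eval ![x, y, z] F := by
  have hadd : ∀ p q : ℂ[X][X], (∃ (a : ℕ) (F : MvPolynomial (Fin 3) ℂ), ∀ x y z : ℂ, z ≠ 0 →
      z ^ a * evalEval (x / z) (y / z) p = MvPolynomial.eval ![x, y, z] F) →
      (∃ (a : ℕ) (F : MvPolynomial (Fin 3) ℂ), ∀ x y z : ℂ, z ≠ 0 →
      z ^ a * evalEval (x / z) (y / z) q = MvPolynomial.eval ![x, y, z] F) →
      ∃ (a : ℕ) (F : MvPolynomial (Fin 3) ℂ), ∀ x y z : ℂ, z ≠ 0 →
      z ^ a * evalEval (x / z) (y / z) (p + q) = MvPolynomial.eval ![x, y, z] F := by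
    rintro p q ⟨a, F, hF⟩ ⟨b, G, hG⟩
    refine ⟨a + b, MvPolynomial.X 2 ^ b * F + MvPolynomial.X 2 ^ a * G, fun x y z hz => ?_⟩
    simp only [map_add, map_mul, map_pow, MvPolynomial.eval_X, Matrix.cons_val,
      Polynomial.evalEval_add, ← hF x y z hz, ← hG x y z hz]
    ring
  have hmul : ∀ p q : ℂ[X][X], (∃ (a : ℕ) (F : MvPolynomial (Fin 3) ℂ), ∀ x y z : ℂ, z ≠ 0 →
      z ^ a * evalEval (x / z) (y / z) p = MvPolynomial.eval ![x, y, z] F) →
      (∃ (a : ℕ) (F : MvPolynomial (Fin 3) ℂ), ∀ x y z : ℂ, z ≠ 0 →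
      z ^ a * evalEval (x / z) (y / z) q = MvPolynomial.eval ![x, y, z] F) →
      ∃ (a : ℕ) (F : MvPolynomial (Fin 3) ℂ), ∀ x y z : ℂ, z ≠ 0 →
      z ^ a * evalEval (x / z) (y / z) (p * q) = MvPolynomial.eval ![x, y, z] F := by
    rintro p q ⟨a, F, hF⟩ ⟨b, G, hG⟩
    refine ⟨a + b, F * G, fun x y z hz => ?_⟩
    simp only [map_mul, Polynomial.evalEval_mul, ← hF x y z hz, ← hG x y z hz]
    ring
  have hC : ∀ p : ℂ[X], ∃ (a : ℕ) (F : MvPolynomial (Fin 3) ℂ), ∀ x y z : ℂ, z ≠ 0 →
      z ^ a * evalEval (x / z) (y / z) (Polynomial.C p) = MvPolynomial.eval ![x, y, z] F := by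
    intro p
    induction p using Polynomial.induction_on with
    | C c =>
      refine ⟨0, MvPolynomial.C c, fun x y z hz => ?_⟩
      simp
    | add p q hp hq =>
      rw [Polynomial.C_add]
      exact hadd _ _ hp hq
    | monomial n c h =>
      have h1 : (Polynomial.C (Polynomial.C c * Polynomial.X ^ (n + 1)) : ℂ[X][X]) =
          Polynomial.C (Polynomial.C c * Polynomial.X ^ n) * Polynomial.C Polynomial.X := by
        rw [← Polynomial.C_mul, mul_assoc, ← pow_succ]
      rw [h1]
      apply hmul _ _ h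
      refine ⟨1, MvPolynomial.X 0, fun x y z hz => ?_⟩
      simp [Polynomial.evalEval_C, mul_div_cancel₀, hz]
  induction f using Polynomial.induction_on with
  | C p => exact hC p
  | add p q hp hq => exact hadd _ _ hp hq
  | monomial n c h =>
    rw [pow_succ, ← mul_assoc]
    apply hmul _ _ h
    refine ⟨1, MvPolynomial.X 1, fun x y z hz => ?_⟩
    simp [Polynomial.evalEval_X, mul_div_cancel₀, hz]

theorem X2_prime : Prime (MvPolynomial.X 2 : MvPolynomial (Fin 3) ℂ) :=
  MvPolynomial.X_prime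

/-- homogenization, without the factor at infinity -/
theorem exists_hom' {f : ℂ[X][X]} (hf : f ≠ 0) :
    ∃ (a b : ℕ) (F : MvPolynomial (Fin 3) ℂ), ¬ MvPolynomial.X 2 ∣ F ∧ ∀ x y z : ℂ, z ≠ 0 →
      z ^ a * evalEval (x / z) (y / z) f = z ^ b * MvPolynomial.eval ![x, y, z] F := by
  obtain ⟨a, F, hF⟩ := exists_hom f
  have hF0 : F ≠ 0 := by
    rintro rfl
    apply hf
    apply eq_of_evalEval
    intro x y
    have := hF x y 1 one_ne_zero
    simpa using this
  obtain ⟨b, G, hG, hFG⟩ := WfDvdMonoid.max_power_factor hF0 X2_prime.irreducible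
  refine ⟨a, b, G, hG, fun x y z hz => ?_⟩
  rw [hF x y z hz, hFG]
  simp

/-- the affine equation is irreducible -/
theorem irr_P1 {P : MvPolynomial (Fin 3) ℂ} {n : ℕ} (hP : P.IsHomogeneous n)
    (hirr : Irreducible P) (hn : 1 ≤ n) (htop : MvPolynomial.eval ![0, 1, 0] P ≠ 0) :
    Irreducible (Core.P1 P) := by
  have hP2 : ¬ MvPolynomial.X 2 ∣ P := by
    rintro ⟨Q, hQ⟩
    apply htop
    rw [hQ]
    simp
  have hP1 : Core.P1 P ≠ 0 := by
    intro h0
    have h1 := natDegree_P1 hP htop
    rw [h0, Polynomial.natDegree_zero] at h1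
    omega
  have hunit : ∀ (f : ℂ[X][X]) (F : MvPolynomial (Fin 3) ℂ) (a b : ℕ), f ≠ 0 → IsUnit F →
      (∀ x y z : ℂ, z ≠ 0 →
        z ^ a * evalEval (x / z) (y / z) f = z ^ b * MvPolynomial.eval ![x, y, z] F) →
      IsUnit f := by
    intro f F a b hf hF hfF
    obtain ⟨c, hc, rfl⟩ := (MvPolynomial.isUnit_iff_eq_C_of_isReduced).1 hF
    have h1 : f = Polynomial.C (Polynomial.C c) := by
      apply eq_of_evalEval
      intro x y
      have := hfF x y 1 one_ne_zero
      simpa using this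
    rw [h1]
    exact (hc.map Polynomial.C).map Polynomial.C
  refine ⟨?_, ?_⟩
  · intro hu
    have h1 := Polynomial.natDegree_eq_zero_of_isUnit hu
    rw [natDegree_P1 hP htop] at h1
    omega
  · intro f g hfg
    have hf : f ≠ 0 := by
      rintro rfl
      exact hP1 (by rw [hfg, zero_mul])
    have hg : g ≠ 0 := by
      rintro rfl
      exact hP1 (by rw [hfg, mul_zero])
    obtain ⟨a, b, F, hF2, hF⟩ := exists_hom' hf
    obtain ⟨c, d, G, hG2, hG⟩ := exists_hom' hg
    have hFG2 : ¬ MvPolynomial.X 2 ∣ F * G := by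
      intro hd
      rcases X2_prime.dvd_or_dvd hd with h1 | h1
      · exact hF2 h1
      · exact hG2 h1
    have hval : ∀ x y z : ℂ, z ≠ 0 → z ^ (a + c) * MvPolynomial.eval ![x, y, z] P =
        z ^ (b + d + n) * (MvPolynomial.eval ![x, y, z] F * MvPolynomial.eval ![x, y, z] G) := by
      intro x y z hz
      have h1 : MvPolynomial.eval ![x, y, z] P = z ^ n * evalEval (x / z) (y / z) (Core.P1 P) := by
        rw [Core.evalEval_P1, ← eval_smul3 hP]
        congr 1
        congr 1
        ext i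
        fin_cases i
        · simp [mul_div_cancel₀, hz]
        · simp [mul_div_cancel₀, hz]
        · simp
      rw [h1, hfg, Polynomial.evalEval_mul]
      calc z ^ (a + c) * (z ^ n * (evalEval (x / z) (y / z) f * evalEval (x / z) (y / z) g))
          = z ^ n * ((z ^ a * evalEval (x / z) (y / z) f) *
            (z ^ c * evalEval (x / z) (y / z) g)) := by ring
        _ = _ := by rw [hF x y z hz, hG x y z hz]; ring
    have hpoly : MvPolynomial.X 2 ^ (a + c) * P = MvPolynomial.X 2 ^ (b + d + n) * (F * G) := by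
      apply mul_left_cancel₀ X2_prime.ne_zero
      apply MvPolynomial.funext
      intro v
      have hv : v = ![v 0, v 1, v 2] := by
        ext i
        fin_cases i <;> rfl
      by_cases hz : v 2 = 0
      · simp [hz]
      · rw [hv]
        have h1 := hval (v 0) (v 1) (v 2) hz
        simp only [map_mul, map_pow, MvPolynomial.eval_X, Matrix.cons_val]
        rw [h1]
    have hac : a + c = b + d + n := by
      rcases lt_trichotomy (a + c) (b + d + n) with h1 | h1 | h1
      · exfalso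
        obtain ⟨k, hk⟩ := Nat.exists_eq_add_of_lt h1
        rw [hk, show a + c + k + 1 = a + c + (k + 1) by ring,
          pow_add _ (a + c) (k + 1), mul_assoc] at hpoly
        have h2 := mul_left_cancel₀ (pow_ne_zero _ X2_prime.ne_zero) hpoly
        apply hP2
        rw [h2, pow_succ]
        exact ⟨MvPolynomial.X 2 ^ k * (F * G), by ring⟩
      · exact h1
      · exfalso
        obtain ⟨k, hk⟩ := Nat.exists_eq_add_of_lt h1
        rw [hk, show b + d + n + k + 1 = b + d + n + (k + 1) by ring,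
          pow_add _ (b + d + n) (k + 1), mul_assoc] at hpoly
        have h2 := mul_left_cancel₀ (pow_ne_zero _ X2_prime.ne_zero) hpoly
        apply hFG2
        rw [← h2, pow_succ]
        exact ⟨MvPolynomial.X 2 ^ k * P, by ring⟩
    rw [hac] at hpoly
    have hPFG := mul_left_cancel₀ (pow_ne_zero _ X2_prime.ne_zero) hpoly
    rcases hirr.isUnit_or_isUnit hPFG with h1 | h1
    · exact Or.inl (hunit f F a b hf h1 hF)
    · exact Or.inr (hunit g G c d hg h1 hG)

end Irr

/-- the affine equation is irreducible, without an assumption on the line at infinity -/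
theorem irr_of_top {P : MvPolynomial (Fin 3) ℂ} {n : ℕ} (hP : P.IsHomogeneous n)
    (hirr : Irreducible P) (hn : 1 ≤ n) (htop : MvPolynomial.eval ![0, 1, 0] P ≠ 0) :
    Irreducible ((Core.P1 P).map (algebraMap ℂ[X] (RatFunc ℂ))) ∧ (Core.P1 P).natDegree = n ∧
      ∃ a : ℂ, a ≠ 0 ∧ (Core.P1 P).leadingCoeff = Polynomial.C a := by
  have hd := Irr.natDegree_P1 hP htop
  have h1 := Irr.irr_P1 hP hirr hn htop
  refine ⟨?_, hd, MvPolynomial.eval ![0, 1, 0] P, htop, ?_⟩
  · have hprim : (Core.P1 P).IsPrimitive := h1.isPrimitive (by omega)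
    exact (hprim.irreducible_iff_irreducible_map_fraction_map).1 h1
  · rw [Polynomial.leadingCoeff, hd, Irr.coeff_P1_top hP]

/-- the affine equation of the curve -/
theorem chart_P1 {P : MvPolynomial (Fin 3) ℂ} {n : ℕ} (h : Chart P n) (hn : 1 ≤ n) :
    Irreducible ((Core.P1 P).map (algebraMap ℂ[X] (RatFunc ℂ))) ∧ (Core.P1 P).natDegree = n ∧
      ∃ a : ℂ, a ≠ 0 ∧ (Core.P1 P).leadingCoeff = Polynomial.C a :=
  irr_of_top h.hom h.irr hn h.top

end Pool.Agent.MP_ae5b4e_an_GENC
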