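import Pool.Agent.Lib.MP_ae5b4e_an_GENC.Defs
import Pool.Agent.Lib.MP_ae5b4e_an_GENC.Irr
import Pool.Agent.Lib.MP_ae5b4e_an_GEN.HessG
import Pool.Agent.Lib.MP_ae5b4e_an_GEN.Except
import Pool.Agent.Lib.MP_ae5b4e_an_LAT.NDGood
import Pool.Agent.Lib.MP_ae5b4e_an_ALG.Branches

/-!
# MP_ae5b4e_an, project GENC, module A6: the exceptional points
-/

set_option autoImplicit false

noncomputable section

namespace Pool.Agent.MP_ae5b4e_an_GENC

open Filter Topology Set Metric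
open scoped Polynomial
open Polynomial (evalEval)
open Pool.Agent.MP_ae5b4e_an_ND (Reg)
open Pool.Agent.MP_ae5b4e_an_FLEX
open Pool.Agent.MP_ae5b4e_an_GEN

namespace Exc

/-- the derivative of the affine equation in `y` -/
theorem evalEval_derivative_P1 (P : MvPolynomial (Fin 3) ℂ) (z η : ℂ) :
    evalEval z η (Polynomial.derivative (Core.P1 P)) =
      MvPolynomial.eval ![z, η, 1] (MvPolynomial.pderiv 1 P) := by
  have h1 := Pool.Agent.MP_ae5b4e_an_ND.hasDerivAt_evalEval (Core.P1 P) z η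
  simp only [Core.evalEval_P1] at h1
  have h2 : HasDerivAt (fun t => MvPolynomial.eval ![z, t, 1] P)
      (∑ i, ![0, 1, 0] i * MvPolynomial.eval ![z, η, 1] (MvPolynomial.pderiv i P)) η := by
    apply hasDerivAt_eval3 (v := fun t => ![z, t, 1])
    intro i
    fin_cases i
    · exact hasDerivAt_const η z
    · exact hasDerivAt_id η
    · exact hasDerivAt_const η (1:ℂ)
  have h3 := h1.unique h2
  rw [h3, Fin.sum_univ_three]
  simp

/-- the Hessian along a branch -/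
theorem hess_branch {P : MvPolynomial (Fin 3) ℂ} {n : ℕ} (hP : P.IsHomogeneous n)
    {y : ℂ → ℂ} {z : ℂ} (hy : AnalyticAt ℂ y z)
    (hPy : ∀ᶠ x in 𝓝 z, MvPolynomial.eval ![x, y x, 1] P = 0) :
    MvPolynomial.eval ![z, y z, 1] (hess P) =
      ((n:ℂ) - 1) ^ 2 * MvPolynomial.eval ![z, y z, 1] (MvPolynomial.pderiv 1 P) ^ 3 *
        deriv (deriv y) z := by
  have hv : ∀ x : ℂ, (![0, 0, 1] : Fin 3 → ℂ) + x • ![1, 0, 0] + y x • ![0, 1, 0] =
      ![x, y x, 1] := by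
    intro x
    funext i
    fin_cases i <;> simp
  have h1 := hess_graph (b0 := ![0, 0, 1]) (b1 := ![1, 0, 0]) (b2 := ![0, 1, 0]) hP hy
    (hPy.mono fun x hx => by rw [hv]; exact hx)
  rw [hv] at h1
  have h2 : (Matrix.of ![(![0, 0, 1] : Fin 3 → ℂ), ![1, 0, 0], ![0, 1, 0]]).det = 1 := by
    rw [Matrix.det_fin_three]
    simp
  rw [h2, one_pow, one_mul] at h1
  rw [h1, Fin.sum_univ_three]
  simp

end Exc

open Exc

/-- the exceptional points of the projection -/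
theorem exc_chart {P : MvPolynomial (Fin 3) ℂ} {n : ℕ} (h : Chart P n) (hn : 2 ≤ n) {y : ℂ → ℂ}
    {e : ℂ} (hy : AnalyticAt ℂ y e) (hPy : ∀ᶠ x in 𝓝 e, MvPolynomial.eval ![x, y x, 1] P = 0)
    (hy2 : deriv (deriv y) e ≠ 0) :
    ∃ S : Set ℂ, S.Finite ∧ ∀ z ∉ S, Reg (Core.P1 P) z ∧ ∀ y : ℂ → ℂ, AnalyticAt ℂ y z →
      (∀ᶠ x in 𝓝 z, evalEval x (y x) (Core.P1 P) = 0) → deriv (deriv y) z ≠ 0 := by
  obtain ⟨hirr, -, -⟩ := chart_P1 h (by omega)
  have hreg := Pool.Agent.MP_ae5b4e_an_ND.reg_finite hirr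
  have hm : ∀ᶠ x in 𝓝 e, evalEval x (y x) (Core.P1 P) = 0 := by
    filter_upwards [hPy] with x hx
    rw [Core.evalEval_P1]
    exact hx
  have hR : ¬ ∀ᶠ x in 𝓝 e, evalEval x (y x) (Core.P1 (hess P)) = 0 := by
    intro hcon
    have h1 : ∀ᶠ x in 𝓝[≠] e, Reg (Core.P1 P) x := by
      have h2 : ({x : ℂ | ¬ Reg (Core.P1 P) x} \ {e})ᶜ ∈ 𝓝 e :=
        ((hreg.subset Set.sdiff_subset).isClosed.isOpen_compl).mem_nhds (by simp)
      filter_upwards [nhdsWithin_le_nhds h2, self_mem_nhdsWithin] with z hz hz'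
      by_contra hc
      exact hz ⟨hc, hz'⟩
    have h2 : ∀ᶠ x in 𝓝 e, deriv (deriv y) x ≠ 0 :=
      hy.deriv.deriv.continuousAt.eventually_ne hy2
    have h3 : ∀ᶠ x in 𝓝[≠] e, (AnalyticAt ℂ y x ∧
        (∀ᶠ t in 𝓝 x, MvPolynomial.eval ![t, y t, 1] P = 0)) ∧
        (evalEval x (y x) (Core.P1 (hess P)) = 0 ∧ deriv (deriv y) x ≠ 0) :=
      nhdsWithin_le_nhds ((hy.eventually_analyticAt.and hPy.eventually_nhds).and (hcon.and h2))
    obtain ⟨x, hx1, ⟨hx2, hx3⟩, hx4, hx5⟩ := (h1.and h3).exists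
    have h4 := hess_branch h.hom hx2 hx3
    rw [Core.evalEval_P1] at hx4
    rw [hx4] at h4
    have h5 : MvPolynomial.eval ![x, y x, 1] (MvPolynomial.pderiv 1 P) ≠ 0 := by
      rw [← evalEval_derivative_P1]
      apply hx1.2
      rw [Core.evalEval_P1]
      exact hx3.self_of_nhds
    have h6 : ((n:ℂ) - 1) ≠ 0 := by
      have h7 : (n:ℂ) ≠ 1 := by
        exact_mod_cast (by omega : n ≠ 1)
      exact sub_ne_zero.2 h7
    exact (mul_ne_zero (mul_ne_zero (pow_ne_zero 2 h6) (pow_ne_zero 3 h5)) hx5) h4.symm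
  obtain ⟨S, hS, h1⟩ := ExceptF.off_finite hirr hy hm hR
  refine ⟨{x : ℂ | ¬ Reg (Core.P1 P) x} ∪ S, hreg.union hS, fun z hz => ?_⟩
  have hz1 : Reg (Core.P1 P) z := by
    by_contra hcon
    exact hz (Or.inl hcon)
  have hz2 : z ∉ S := fun hcon => hz (Or.inr hcon)
  refine ⟨hz1, fun y hy hym hy2 => ?_⟩
  have h2 := h1 z hz2 (y z) hym.self_of_nhds
  rw [Core.evalEval_P1] at h2
  apply h2
  rw [hess_branch h.hom hy (hym.mono fun x hx => by rwa [Core.evalEval_P1] at hx), hy2, mul_zero]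

end Pool.Agent.MP_ae5b4e_an_GENC
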