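import Mathlib
import Pool.Agent.Lib.MP_ae5b4e_an_GENC.Defs
import Pool.Agent.Lib.MP_ae5b4e_an_GENC.Irr
import Pool.Agent.Lib.MP_ae5b4e_an_GEN.Poly3
import Pool.Agent.Lib.MP_ae5b4e_an_LAT.NDGood

/-!
# MP_ae5b4e_an, project GENC, module A11: suitable coordinates
-/

noncomputable section

namespace Pool.Agent.MP_ae5b4e_an_GENC

open Filter Topology Set Metric
open scoped Polynomial
open Polynomial (evalEval)
open Pool.Agent.MP_ae5b4e_an_ND (Reg)
open Pool.Agent.MP_ae5b4e_an_FLEX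
open Pool.Agent.MP_ae5b4e_an_GEN


namespace ExistsChart

theorem lsub_lsub (A B : Matrix (Fin 3) (Fin 3) ℂ) (P : MvPolynomial (Fin 3) ℂ) :
    lsub B (lsub A P) = lsub (A * B) P := by
  apply MvPolynomial.funext
  intro v
  rw [eval_lsub, eval_lsub, eval_lsub, Matrix.mulVec_mulVec]

theorem lsub_one (P : MvPolynomial (Fin 3) ℂ) : lsub 1 P = P := by
  apply MvPolynomial.funext
  intro v
  rw [eval_lsub, Matrix.one_mulVec]

/-- the linear substitution as an isomorphism -/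
def lsubEquiv (A : Matrix (Fin 3) (Fin 3) ℂ) (hA : A.det ≠ 0) :
    MvPolynomial (Fin 3) ℂ ≃* MvPolynomial (Fin 3) ℂ where
  toFun := lsub A
  invFun := lsub A⁻¹
  left_inv P := by
    rw [lsub_lsub, Matrix.mul_nonsing_inv A (isUnit_iff_ne_zero.mpr hA), lsub_one]
  right_inv P := by
    rw [lsub_lsub, Matrix.nonsing_inv_mul A (isUnit_iff_ne_zero.mpr hA), lsub_one]
  map_mul' P Q := by
    unfold lsub
    rw [map_mul]

theorem lsub_irr {A : Matrix (Fin 3) (Fin 3) ℂ} (hA : A.det ≠ 0) {P : MvPolynomial (Fin 3) ℂ}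
    (hP : Irreducible P) : Irreducible (lsub A P) :=
  (MulEquiv.irreducible_iff (lsubEquiv A hA)).mpr hP

theorem lsub_hom (A : Matrix (Fin 3) (Fin 3) ℂ) {P : MvPolynomial (Fin 3) ℂ} {n : ℕ}
    (hP : P.IsHomogeneous n) : (lsub A P).IsHomogeneous n := by
  have h : (lsub A P).IsHomogeneous (1 * n) := by
    refine hP.aeval _ fun i => ?_
    refine MvPolynomial.IsHomogeneous.sum _ _ _ fun j _ => ?_
    have h1 := (MvPolynomial.isHomogeneous_C (Fin 3) (A i j)).mul
      (MvPolynomial.isHomogeneous_X ℂ j)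
    rwa [zero_add] at h1
  rwa [one_mul] at h

/-- a point outside the curve in the second coordinate vertex -/
theorem exists_top {P : MvPolynomial (Fin 3) ℂ} {n : ℕ} (hP : P.IsHomogeneous n) (hn : 1 ≤ n)
    (h0 : P ≠ 0) : ∃ B : Matrix (Fin 3) (Fin 3) ℂ, B.det ≠ 0 ∧
      MvPolynomial.eval ![0, 1, 0] (lsub B P) ≠ 0 := by
  obtain ⟨q, hq⟩ : ∃ q : Fin 3 → ℂ, MvPolynomial.eval q P ≠ 0 := by
    by_contra hcon
    push Not at hcon
    exact h0 (MvPolynomial.funext fun v => by rw [hcon v, map_zero])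
  have hq0 : q ≠ 0 := by
    intro h
    apply hq
    have h1 := eval_smul3 hP 0 q
    rw [zero_smul, zero_pow (by omega), zero_mul] at h1
    rw [h]
    exact h1
  have key : ∀ B : Matrix (Fin 3) (Fin 3) ℂ, B.mulVec ![0, 1, 0] = q →
      MvPolynomial.eval ![0, 1, 0] (lsub B P) ≠ 0 := by
    intro B hB
    rw [eval_lsub, hB]
    exact hq
  obtain ⟨i, hi⟩ : ∃ i, q i ≠ 0 := Function.ne_iff.mp hq0
  fin_cases i
  · refine ⟨!![0, q 0, 0; 1, q 1, 0; 0, q 2, 1], ?_, key _ ?_⟩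
    · rw [Matrix.det_fin_three]
      simpa using hi
    · ext j
      fin_cases j <;> simp [Matrix.mulVec, dotProduct, Fin.sum_univ_three]
  · refine ⟨!![1, q 0, 0; 0, q 1, 0; 0, q 2, 1], ?_, key _ ?_⟩
    · rw [Matrix.det_fin_three]
      simpa using hi
    · ext j
      fin_cases j <;> simp [Matrix.mulVec, dotProduct, Fin.sum_univ_three]
  · refine ⟨!![1, q 0, 0; 0, q 1, 1; 0, q 2, 0], ?_, key _ ?_⟩
    · rw [Matrix.det_fin_three]
      simpa using hi
    · ext j
      fin_cases j <;> simp [Matrix.mulVec, dotProduct, Fin.sum_univ_three]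

end ExistsChart

open ExistsChart in
/-- suitable coordinates -/
theorem exists_chart {P : MvPolynomial (Fin 3) ℂ} {n : ℕ} (hP : P.IsHomogeneous n) (hn : 1 ≤ n)
    (hirr : Irreducible P) : ∃ B : Matrix (Fin 3) (Fin 3) ℂ, B.det ≠ 0 ∧ Chart (lsub B P) n := by
  obtain ⟨B1, hB1, htop⟩ := exists_top hP hn hirr.ne_zero
  obtain ⟨P1, hP1⟩ : ∃ P1, P1 = lsub B1 P := ⟨_, rfl⟩
  rw [← hP1] at htop
  have hhom : P1.IsHomogeneous n := hP1 ▸ lsub_hom B1 hP
  have hirr1 : Irreducible P1 := hP1 ▸ lsub_irr hB1 hirr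
  obtain ⟨hI, -, -⟩ := irr_of_top hhom hirr1 hn htop
  have hfin := Pool.Agent.MP_ae5b4e_an_ND.reg_finite hI
  obtain ⟨e, he⟩ : ∃ e : ℂ, Reg (Core.P1 P1) e := by
    obtain ⟨e, he⟩ := hfin.infinite_compl.nonempty
    refine ⟨e, ?_⟩
    by_contra h
    exact he h
  obtain ⟨B2, hB2⟩ : ∃ B2 : Matrix (Fin 3) (Fin 3) ℂ, B2 = !![e, 0, 1; 0, 1, 0; 1, 0, 0] :=
    ⟨_, rfl⟩
  have hdet2 : B2.det ≠ 0 := by
    rw [hB2, Matrix.det_fin_three]
    simp
  have hmv : ∀ a b c : ℂ, B2.mulVec ![a, b, c] = ![e * a + c, b, a] := by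
    intro a b c
    rw [hB2]
    ext j
    fin_cases j <;> simp [Matrix.mulVec, dotProduct, Fin.sum_univ_three]
  have hev : ∀ t : ℂ, MvPolynomial.eval ![1, t, 0] (lsub B2 P1) = evalEval e t (Core.P1 P1) := by
    intro t
    rw [eval_lsub, hmv, Core.evalEval_P1]
    congr 2
    simp
  refine ⟨B1 * B2, ?_, ?_⟩
  · rw [Matrix.det_mul]
    exact mul_ne_zero hB1 hdet2
  · rw [← lsub_lsub, ← hP1]
    refine ⟨lsub_hom B2 hhom, lsub_irr hdet2 hirr1, ?_, fun η hη => ?_⟩
    · rw [eval_lsub, hmv]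
      simpa using htop
    · rw [hev] at hη
      have h1 := he.2 η hη
      have h2 : HasDerivAt (fun t => evalEval e t (Core.P1 P1))
          (MvPolynomial.eval ![1, η, 0] (MvPolynomial.pderiv 1 (lsub B2 P1))) η := by
        have h3 := hasDerivAt_eval3 (v := fun t : ℂ => ![1, t, 0]) (v' := ![0, 1, 0]) (w := η) (by
          intro i
          fin_cases i
          · exact hasDerivAt_const η (1:ℂ)
          · exact hasDerivAt_id η
          · exact hasDerivAt_const η (0:ℂ)) (lsub B2 P1)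
        have h4 : (∑ i, (![0, 1, 0] : Fin 3 → ℂ) i *
            MvPolynomial.eval ![1, η, 0] (MvPolynomial.pderiv i (lsub B2 P1))) =
            MvPolynomial.eval ![1, η, 0] (MvPolynomial.pderiv 1 (lsub B2 P1)) := by
          simp [Fin.sum_univ_three]
        rw [h4] at h3
        refine h3.congr_of_eventuallyEq (Eventually.of_forall fun t => ?_)
        exact (hev t).symm
      have h5 := h2.unique (Pool.Agent.MP_ae5b4e_an_ND.hasDerivAt_evalEval (Core.P1 P1) e η)
      rw [h5]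
      exact h1

theorem branches_lsub {P : MvPolynomial (Fin 3) ℂ} {T : ℕ → ℕ → Prop} (hB : Branches P T)
    {B : Matrix (Fin 3) (Fin 3) ℂ} (hdet : B.det ≠ 0) : Branches (lsub B P) T := by
  intro φ hφ hφ0 hφP hinj
  have hBinj : Function.Injective B.mulVec :=
    Matrix.mulVec_injective_iff_isUnit.mpr
      ((Matrix.isUnit_iff_isUnit_det B).mpr (isUnit_iff_ne_zero.mpr hdet))
  obtain ⟨a, b, hT, A, u, x1, y1, hA, hu, hu0, hx, hx0, hy, hy0, hev⟩ :=
    hB (fun w => B.mulVec (φ w)) (fun i => by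
      have h1 : (fun w => B.mulVec (φ w) i) = fun w => ∑ j, B i j * φ w j := rfl
      rw [h1]
      exact Finset.analyticAt_fun_sum _ fun j _ => analyticAt_const.mul (hφ j))
    (fun h => hφ0 (hBinj (by rw [h, Matrix.mulVec_zero])))
    (by
      filter_upwards [hφP] with w hw
      rw [← eval_lsub]
      exact hw)
    (by
      unfold PInj at hinj ⊢
      filter_upwards [hinj] with p hp
      rintro ⟨c, hc⟩
      refine hp ⟨c, hBinj ?_⟩
      rw [Matrix.mulVec_smul]
      exact hc)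
  refine ⟨a, b, hT, A * B, u, x1, y1, ?_, hu, hu0, hx, hx0, hy, hy0, ?_⟩
  · rw [Matrix.det_mul]
    exact mul_ne_zero hA hdet
  · filter_upwards [hev] with w hw
    rw [← Matrix.mulVec_mulVec]
    exact hw

end Pool.Agent.MP_ae5b4e_an_GENC
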