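import Mathlib
import Pool.Agent.Lib.MP_ae5b4e_an_GENC.Defs
import Pool.Agent.Lib.MP_ae5b4e_an_LAT.NDImplicit
import Pool.Agent.Lib.MP_ae5b4e_an_LAT.NDGood
import Pool.Agent.Lib.MP_ae5b4e_an_GEN.Pairs

/-!
# MP_ae5b4e_an, project GENC, module A5: derivatives in `x`
-/

set_option autoImplicit false

noncomputable section

namespace Pool.Agent.MP_ae5b4e_an_GENC

open Filter Topology Set Metric
open scoped Polynomial
open Polynomial (evalEval)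
open Pool.Agent.MP_ae5b4e_an_ND (Reg)
open Pool.Agent.MP_ae5b4e_an_FLEX
open Pool.Agent.MP_ae5b4e_an_GEN

theorem lw_eq {m : ℂ[X][X]} {z : ℂ} (hz : Reg m z) {y : ℂ → ℂ} (hy : AnalyticAt ℂ y z)
    (hy' : ∀ᶠ x in 𝓝 z, evalEval x (y x) m = 0) :
    lw m z (y z) = deriv (deriv (deriv y)) z / deriv (deriv y) z := by
  have hex : ∃ b : ℂ → ℂ, AnalyticAt ℂ b z ∧ b z = y z ∧ ∀ᶠ x in 𝓝 z, evalEval x (b x) m = 0 :=
    ⟨y, hy, rfl, hy'⟩
  have hb : brn m z (y z) = Classical.choose hex := by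
    unfold brn
    exact dif_pos hex
  obtain ⟨h1, h2, h3⟩ := Classical.choose_spec hex
  have h4 : (Classical.choose hex) =ᶠ[𝓝 z] y :=
    Pool.Agent.MP_ae5b4e_an_ND.branch_unique h1.continuousAt hy.continuousAt h2
      (hz.2 _ h3.self_of_nhds) h3 hy'
  unfold lw
  rw [hb, h4.deriv.deriv.deriv_eq, h4.deriv.deriv_eq]

namespace Lw

theorem chain {f X : ℂ → ℂ} {w : ℂ} (hX : AnalyticAt ℂ X w) (hf : AnalyticAt ℂ f (X w)) :
    deriv (fun s => f (X s)) w = deriv f (X w) * deriv X w :=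
  (hf.differentiableAt.hasDerivAt.comp w hX.differentiableAt.hasDerivAt).deriv

theorem lw_comp {m : ℂ[X][X]} {X Y : ℂ → ℂ} {w : ℂ} (hX : AnalyticAt ℂ X w)
    (hY : AnalyticAt ℂ Y w) (hd : deriv X w ≠ 0) (hreg : Reg m (X w))
    (hr : ∀ᶠ s in 𝓝 w, evalEval (X s) (Y s) m = 0) (hW : Wr X Y w ≠ 0) :
    deriv X w * lw m (X w) (Y w) =
      deriv (Wr X Y) w / Wr X Y w - 3 * (deriv (deriv X) w / deriv X w) := by
  obtain ⟨y, hy, hy0, hy1⟩ := Pool.Agent.MP_ae5b4e_an_ND.branch hr.self_of_nhds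
    (hreg.2 _ hr.self_of_nhds)
  have hy' := Pool.Agent.MP_ae5b4e_an_ND.branch_eq hy.continuousAt hy0 hy1
  have hYe := Pairs.branch_comp hX hY hreg hy hy0 hy' hr
  have hXc : Tendsto X (𝓝 w) (𝓝 (X w)) := hX.continuousAt
  -- first derivative
  have h1 : ∀ᶠ s in 𝓝 w, deriv Y s = deriv y (X s) * deriv X s := by
    filter_upwards [hYe.eventually_nhds, hX.eventually_analyticAt,
      hXc.eventually hy.eventually_analyticAt] with s e1 e2 e3
    rw [← chain e2 e3]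
    exact (EventuallyEq.deriv_eq (f₁ := fun s => y (X s)) e1).symm
  have h2 : ∀ᶠ s in 𝓝 w, deriv (deriv Y) s =
      deriv (deriv y) (X s) * deriv X s * deriv X s + deriv y (X s) * deriv (deriv X) s := by
    filter_upwards [h1.eventually_nhds, hX.eventually_analyticAt,
      hXc.eventually hy.eventually_analyticAt] with s e1 e2 e3
    rw [← chain e2 e3.deriv]
    have e4 : deriv Y =ᶠ[𝓝 s] (fun s => (fun s => deriv y (X s)) s * deriv X s) := e1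
    rw [e4.deriv_eq]
    have e5 : DifferentiableAt ℂ (fun s => deriv y (X s)) s :=
      (e3.deriv.differentiableAt.hasDerivAt.comp s e2.differentiableAt.hasDerivAt).differentiableAt
    exact deriv_fun_mul e5 e2.deriv.differentiableAt
  have h3 : Wr X Y =ᶠ[𝓝 w] fun s => deriv (deriv y) (X s) * deriv X s ^ 3 := by
    filter_upwards [h1, h2] with s e1 e2
    unfold Wr
    rw [e1, e2]
    ring
  have h4 : Wr X Y w = deriv (deriv y) (X w) * deriv X w ^ 3 := h3.self_of_nhds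
  have h5 : deriv (Wr X Y) w = deriv (deriv (deriv y)) (X w) * deriv X w * deriv X w ^ 3 +
      deriv (deriv y) (X w) * (3 * deriv X w ^ 2 * deriv (deriv X) w) := by
    rw [h3.deriv_eq]
    have e5 : HasDerivAt (fun s => deriv (deriv y) (X s))
        (deriv (deriv (deriv y)) (X w) * deriv X w) w :=
      hy.deriv.deriv.differentiableAt.hasDerivAt.comp w hX.differentiableAt.hasDerivAt
    have e6 : HasDerivAt (fun s => deriv X s ^ 3) (3 * deriv X w ^ 2 * deriv (deriv X) w) w := by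
      have := hX.deriv.differentiableAt.hasDerivAt.fun_pow 3
      simpa using this
    exact (e5.mul e6).deriv
  have hyne : deriv (deriv y) (X w) ≠ 0 := by
    intro h0
    rw [h0, zero_mul] at h4
    exact hW h4
  have h6 : lw m (X w) (Y w) = deriv (deriv (deriv y)) (X w) / deriv (deriv y) (X w) := by
    rw [← hy0]
    exact lw_eq hreg hy hy'
  rw [h6, h5, h4]
  field_simp
  ring

/-- the general limit -/
theorem lim {m : ℂ[X][X]} {X Y k p : ℂ → ℂ} {c d : ℂ} (hc : c ≠ 0) (hY : MeromorphicAt Y 0)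
    (hX : ∀ᶠ w in 𝓝[≠] (0:ℂ), AnalyticAt ℂ X w ∧ deriv X w ≠ 0 ∧ w * deriv X w = c * p w ∧
      w * (deriv (deriv X) w / deriv X w) = d)
    (hm : ∀ᶠ w in 𝓝[≠] (0:ℂ), evalEval (X w) (Y w) m = 0 ∧ Reg m (X w) ∧ Wr X Y w ≠ 0)
    {τ₁ τ₂ : ℂ}
    (h1 : Tendsto (fun w => w * (deriv X w * k w / 2 +
      deriv (Wr X Y) w / (3 * Wr X Y w))) (𝓝[≠] 0) (𝓝 τ₁))
    (h2 : Tendsto (fun w => w * (deriv (Wr X Y) w / Wr X Y w)) (𝓝[≠] 0) (𝓝 τ₂)) :
    Tendsto (fun w => p w * (k w / 2 + lw m (X w) (Y w) / 3)) (𝓝[≠] 0)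
        (𝓝 ((τ₁ - d) / c)) ∧
      Tendsto (fun w => p w * lw m (X w) (Y w)) (𝓝[≠] 0) (𝓝 ((τ₂ - 3 * d) / c)) := by
  have hall : ∀ᶠ w in 𝓝[≠] (0:ℂ), w * deriv X w * lw m (X w) (Y w) =
      w * (deriv (Wr X Y) w / Wr X Y w) - 3 * d := by
    filter_upwards [hX, hY.eventually_analyticAt, hm,
      Pool.Agent.MP_ae5b4e_an_ALG.Branches.punct_nhds hm] with w e1 e2 e3 e4
    rw [mul_assoc, lw_comp e1.1 e2 e1.2.1 e3.2.1 (e4.mono fun s hs => hs.1) e3.2.2, ← e1.2.2.2]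
    ring
  refine ⟨?_, ?_⟩
  · refine ((h1.sub_const d).div_const c).congr' ?_
    filter_upwards [hall, hX, hm] with w e1 e2 e3
    have e4 := e2.2.2.1
    rw [div_eq_iff hc]
    have e5 : w * (deriv X w * k w / 2 + deriv (Wr X Y) w / (3 * Wr X Y w)) - d =
        (w * deriv X w) * k w / 2 + (w * (deriv (Wr X Y) w / Wr X Y w) - 3 * d) / 3 := by
      have := e3.2.2
      field_simp
      ring
    rw [e5, ← e1, e4]
    ring
  · refine ((h2.sub_const (3 * d)).div_const c).congr' ?_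
    filter_upwards [hall, hX] with w e1 e2
    have e4 := e2.2.2.1
    rw [div_eq_iff hc, ← e1, e4]
    ring

end Lw

/-- from the derivatives in the parameter to the derivatives in `x`, at a finite place -/
theorem lw_fin {m : ℂ[X][X]} {e : ℂ} {N : ℕ} (hN : 0 < N) {Y k : ℂ → ℂ} (hY : MeromorphicAt Y 0)
    (hm : ∀ᶠ w in 𝓝[≠] (0:ℂ), evalEval (e + w ^ N) (Y w) m = 0 ∧ Reg m (e + w ^ N) ∧
      Wr (fun w => e + w ^ N) Y w ≠ 0) {τ₁ τ₂ : ℂ}
    (h1 : Tendsto (fun w => w * (deriv (fun w => e + w ^ N) w * k w / 2 +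
      deriv (Wr (fun w => e + w ^ N) Y) w / (3 * Wr (fun w => e + w ^ N) Y w))) (𝓝[≠] 0) (𝓝 τ₁))
    (h2 : Tendsto (fun w => w * (deriv (Wr (fun w => e + w ^ N) Y) w /
      Wr (fun w => e + w ^ N) Y w)) (𝓝[≠] 0) (𝓝 τ₂)) :
    Tendsto (fun w => w ^ N * (k w / 2 + lw m (e + w ^ N) (Y w) / 3)) (𝓝[≠] 0)
        (𝓝 ((τ₁ + 1) / N - 1)) ∧
      Tendsto (fun w => w ^ N * lw m (e + w ^ N) (Y w)) (𝓝[≠] 0) (𝓝 ((τ₂ + 3) / N - 3)) := by
  have hNc : (N : ℂ) ≠ 0 := Nat.cast_ne_zero.2 hN.ne'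
  have hD : ∀ w : ℂ, deriv (fun w : ℂ => e + w ^ N) w = N * w ^ (N - 1) := by
    intro w
    have := ((hasDerivAt_pow N w).const_add e).deriv
    exact this
  have hDD : ∀ w : ℂ, deriv (deriv (fun w : ℂ => e + w ^ N)) w =
      N * (((N - 1 : ℕ) : ℂ) * w ^ (N - 1 - 1)) := by
    intro w
    have e1 : deriv (fun w : ℂ => e + w ^ N) = fun w => (N : ℂ) * w ^ (N - 1) := funext hD
    rw [e1]
    exact ((hasDerivAt_pow (N - 1) w).const_mul (N : ℂ)).deriv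
  have hX : ∀ᶠ w in 𝓝[≠] (0:ℂ), AnalyticAt ℂ (fun w : ℂ => e + w ^ N) w ∧
      deriv (fun w : ℂ => e + w ^ N) w ≠ 0 ∧
      w * deriv (fun w : ℂ => e + w ^ N) w = (N : ℂ) * w ^ N ∧
      w * (deriv (deriv (fun w : ℂ => e + w ^ N)) w / deriv (fun w : ℂ => e + w ^ N) w) =
        (N : ℂ) - 1 := by
    filter_upwards [self_mem_nhdsWithin] with w hw
    have hw0 : w ≠ 0 := hw
    have hp : w ^ N = w ^ (N - 1) * w := by
      rw [← pow_succ]
      congr 1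
      omega
    refine ⟨by fun_prop, ?_, ?_, ?_⟩
    · rw [hD]
      exact mul_ne_zero hNc (pow_ne_zero _ hw0)
    · rw [hD, hp]
      ring
    · rw [hD, hDD]
      rcases Nat.lt_or_ge 1 N with h | h
      · have hp2 : w ^ (N - 1) = w ^ (N - 1 - 1) * w := by
          rw [← pow_succ]
          congr 1
          omega
        have hp3 : w ^ (N - 1 - 1) ≠ 0 := pow_ne_zero _ hw0
        have hc : (((N - 1 : ℕ) : ℂ)) = (N : ℂ) - 1 := by
          rw [Nat.cast_sub hN, Nat.cast_one]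
        rw [hp2, hc]
        field_simp
      · have hN1 : N = 1 := by omega
        subst hN1
        simp
  have h := Lw.lim (X := fun w => e + w ^ N) hNc hY hX hm h1 h2
  have e1 : (τ₁ - ((N : ℂ) - 1)) / N = (τ₁ + 1) / N - 1 := by
    field_simp
    ring
  have e2 : (τ₂ - 3 * ((N : ℂ) - 1)) / N = (τ₂ + 3) / N - 3 := by
    field_simp
    ring
  rw [e1, e2] at h
  exact h

/-- the same at infinity -/
theorem lw_inf {m : ℂ[X][X]} {N : ℕ} (hN : 0 < N) {Y k : ℂ → ℂ} (hY : MeromorphicAt Y 0)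
    (hm : ∀ᶠ w in 𝓝[≠] (0:ℂ), evalEval ((w ^ N)⁻¹) (Y w) m = 0 ∧ Reg m ((w ^ N)⁻¹) ∧
      Wr (fun w => (w ^ N)⁻¹) Y w ≠ 0) {τ₁ τ₂ : ℂ}
    (h1 : Tendsto (fun w => w * (deriv (fun w => (w ^ N)⁻¹) w * k w / 2 +
      deriv (Wr (fun w => (w ^ N)⁻¹) Y) w / (3 * Wr (fun w => (w ^ N)⁻¹) Y w))) (𝓝[≠] 0) (𝓝 τ₁))
    (h2 : Tendsto (fun w => w * (deriv (Wr (fun w => (w ^ N)⁻¹) Y) w /
      Wr (fun w => (w ^ N)⁻¹) Y w)) (𝓝[≠] 0) (𝓝 τ₂)) :
    Tendsto (fun w => (w ^ N)⁻¹ * (k w / 2 + lw m ((w ^ N)⁻¹) (Y w) / 3)) (𝓝[≠] 0)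
        (𝓝 (-(τ₁ + 1) / N - 1)) ∧
      Tendsto (fun w => (w ^ N)⁻¹ * lw m ((w ^ N)⁻¹) (Y w)) (𝓝[≠] 0) (𝓝 (-(τ₂ + 3) / N - 3)) := by
  have hNc : (N : ℂ) ≠ 0 := Nat.cast_ne_zero.2 hN.ne'
  have hfun : (fun w : ℂ => (w ^ N)⁻¹) = fun w => w ^ (-(N : ℤ)) := by
    funext w
    rw [zpow_neg, zpow_natCast]
  have hD : ∀ w : ℂ, deriv (fun w : ℂ => (w ^ N)⁻¹) w = (-(N : ℂ)) * w ^ (-(N : ℤ) - 1) := by
    intro w
    rw [hfun, deriv_zpow]
    push_cast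
    rfl
  have hDD : ∀ w : ℂ, deriv (deriv (fun w : ℂ => (w ^ N)⁻¹)) w =
      (-(N : ℂ)) * ((-(N : ℂ) - 1) * w ^ (-(N : ℤ) - 1 - 1)) := by
    intro w
    have e1 : deriv (fun w : ℂ => (w ^ N)⁻¹) = fun w => (-(N : ℂ)) * w ^ (-(N : ℤ) - 1) :=
      funext hD
    rw [e1, deriv_const_mul_field, deriv_zpow]
    push_cast
    rfl
  have hX : ∀ᶠ w in 𝓝[≠] (0:ℂ), AnalyticAt ℂ (fun w : ℂ => (w ^ N)⁻¹) w ∧
      deriv (fun w : ℂ => (w ^ N)⁻¹) w ≠ 0 ∧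
      w * deriv (fun w : ℂ => (w ^ N)⁻¹) w = (-(N : ℂ)) * (w ^ N)⁻¹ ∧
      w * (deriv (deriv (fun w : ℂ => (w ^ N)⁻¹)) w / deriv (fun w : ℂ => (w ^ N)⁻¹) w) =
        -((N : ℂ) + 1) := by
    filter_upwards [self_mem_nhdsWithin] with w hw
    have hw0 : w ≠ 0 := hw
    have hp1 : w ^ (-(N : ℤ) - 1) ≠ 0 := zpow_ne_zero _ hw0
    have hp2 : w ^ (-(N : ℤ) - 1 - 1) * w = w ^ (-(N : ℤ) - 1) := by
      rw [← zpow_add_one₀ hw0]
      congr 1
      ring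
    have hp3 : w ^ (-(N : ℤ) - 1) * w = (w ^ N)⁻¹ := by
      rw [← zpow_add_one₀ hw0]
      have : (-(N : ℤ) - 1 + 1) = -(N : ℤ) := by ring
      rw [this, zpow_neg, zpow_natCast]
    refine ⟨?_, ?_, ?_, ?_⟩
    · exact (analyticAt_id.pow N).inv (pow_ne_zero _ hw0)
    · rw [hD]
      exact mul_ne_zero (neg_ne_zero.2 hNc) hp1
    · rw [hD, ← hp3]
      ring
    · rw [hD, hDD, ← hp2]
      have hp4 : w ^ (-(N : ℤ) - 1 - 1) ≠ 0 := zpow_ne_zero _ hw0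
      field_simp
      ring
  have h := Lw.lim (X := fun w => (w ^ N)⁻¹) (neg_ne_zero.2 hNc) hY hX hm h1 h2
  have e1 : (τ₁ - -((N : ℂ) + 1)) / (-N) = -(τ₁ + 1) / N - 1 := by
    field_simp
    ring
  have e2 : (τ₂ - 3 * -((N : ℂ) + 1)) / (-N) = -(τ₂ + 3) / N - 3 := by
    field_simp
    ring
  rw [e1, e2] at h
  exact h

end Pool.Agent.MP_ae5b4e_an_GENC
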