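import Mathlib
import Pool.Agent.Lib.MP_ae5b4e_an_GENC.Defs
import Pool.Agent.Lib.MP_ae5b4e_an_GEN.Local
import Pool.Agent.Lib.MP_ae5b4e_an_GEN.Proj
import Pool.Agent.Lib.MP_ae5b4e_an_ALG.Trans

/-!
# MP_ae5b4e_an, project GENC: the residues at a place of a given type (module A4)
-/

set_option autoImplicit false

noncomputable section

namespace Pool.Agent.MP_ae5b4e_an_GENC

open Filter Topology Set Metric
open scoped Polynomial
open Polynomial (evalEval)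
open Pool.Agent.MP_ae5b4e_an_ND (Reg)
open Pool.Agent.MP_ae5b4e_an_FLEX
open Pool.Agent.MP_ae5b4e_an_GEN

namespace PlaceE

theorem ev_nhds {p : ℂ → Prop} (h : ∀ᶠ w in 𝓝[≠] (0:ℂ), p w) :
    ∀ᶠ w in 𝓝[≠] (0:ℂ), ∀ᶠ x in 𝓝 w, p x := by
  have h0 : ∀ᶠ w in 𝓝[≠] (0:ℂ), w ≠ 0 := self_mem_nhdsWithin
  filter_upwards [eventually_eventually_nhdsWithin.2 h, h0] with w hw hw0
  have h1 : (𝓝[≠] (0:ℂ)) = 𝓝[{0}ᶜ] (0:ℂ) := rfl
  rwa [isOpen_compl_singleton.nhdsWithin_eq (show w ∈ ({0}ᶜ : Set ℂ) from hw0)] at hw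

/-- the logarithmic derivative of `w ^ a / w ^ b * H w` -/
theorem logder {F H : ℂ → ℂ} {a b : ℕ} (hH : AnalyticAt ℂ H 0) (hH0 : H 0 ≠ 0)
    (hF : ∀ᶠ w in 𝓝[≠] (0:ℂ), F w = w ^ a / w ^ b * H w) :
    (∀ᶠ w in 𝓝[≠] (0:ℂ), F w ≠ 0) ∧
      Tendsto (fun w => w * (deriv F w / F w)) (𝓝[≠] 0) (𝓝 ((a : ℂ) - b)) := by
  have h0 : ∀ᶠ w in 𝓝[≠] (0:ℂ), w ≠ 0 := self_mem_nhdsWithin
  have h1 : ∀ᶠ w in 𝓝[≠] (0:ℂ), H w ≠ 0 :=
    (hH.continuousAt.eventually_ne hH0).filter_mono nhdsWithin_le_nhds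
  have h2 : ∀ᶠ w in 𝓝[≠] (0:ℂ), AnalyticAt ℂ H w :=
    hH.eventually_analyticAt.filter_mono nhdsWithin_le_nhds
  have h3 : ∀ᶠ w in 𝓝[≠] (0:ℂ), F =ᶠ[𝓝 w] fun w => w ^ a / w ^ b * H w := ev_nhds hF
  refine ⟨?_, ?_⟩
  · filter_upwards [hF, h0, h1] with w hw hw0 hHw
    rw [hw]
    exact mul_ne_zero (div_ne_zero (pow_ne_zero _ hw0) (pow_ne_zero _ hw0)) hHw
  · have h4 : Tendsto (fun w : ℂ => ((a : ℂ) - b) + w * (deriv H w / H w)) (𝓝[≠] 0)
        (𝓝 ((a : ℂ) - b)) := by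
      have h5 : Tendsto (fun w : ℂ => ((a : ℂ) - b) + w * (deriv H w / H w)) (𝓝 0)
          (𝓝 (((a : ℂ) - b) + 0 * (deriv H 0 / H 0))) := by
        refine tendsto_const_nhds.add (tendsto_id.mul ?_)
        exact hH.deriv.continuousAt.tendsto.div hH.continuousAt.tendsto hH0
      rw [zero_mul, add_zero] at h5
      exact h5.mono_left nhdsWithin_le_nhds
    refine h4.congr' ?_
    filter_upwards [hF, h0, h1, h2, h3] with w hw hw0 hHw hHa hFe
    have hd : HasDerivAt (fun w : ℂ => w ^ a / w ^ b * H w)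
        (((a * w ^ (a - 1)) * w ^ b - w ^ a * (b * w ^ (b - 1))) / (w ^ b) ^ 2 * H w +
          w ^ a / w ^ b * deriv H w) w :=
      ((hasDerivAt_pow a w).div (hasDerivAt_pow b w) (pow_ne_zero _ hw0)).mul
        hHa.differentiableAt.hasDerivAt
    rw [hFe.deriv_eq, hd.deriv, hw]
    have ha : w * ((a : ℂ) * w ^ (a - 1)) = a * w ^ a := by
      rcases Nat.eq_zero_or_pos a with rfl | ha
      · simp
      · obtain ⟨c, rfl⟩ : ∃ c, a = c + 1 := ⟨a - 1, by omega⟩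
        rw [Nat.add_sub_cancel, pow_succ]
        ring
    have hb : w * ((b : ℂ) * w ^ (b - 1)) = b * w ^ b := by
      rcases Nat.eq_zero_or_pos b with rfl | hb
      · simp
      · obtain ⟨c, rfl⟩ : ∃ c, b = c + 1 := ⟨b - 1, by omega⟩
        rw [Nat.add_sub_cancel, pow_succ]
        ring
    have hwa : w ^ a ≠ 0 := pow_ne_zero _ hw0
    have hwb : w ^ b ≠ 0 := pow_ne_zero _ hw0
    have h5 : w * (((a * w ^ (a - 1)) * w ^ b - w ^ a * (b * w ^ (b - 1))) / (w ^ b) ^ 2 * H w +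
          w ^ a / w ^ b * deriv H w) =
        w ^ a / w ^ b * (((a : ℂ) - b) * H w + w * deriv H w) := by
      have h6 : w * (((a * w ^ (a - 1)) * w ^ b - w ^ a * (b * w ^ (b - 1))) / (w ^ b) ^ 2 * H w +
          w ^ a / w ^ b * deriv H w) =
          ((w * ((a : ℂ) * w ^ (a - 1))) * w ^ b - w ^ a * (w * ((b : ℂ) * w ^ (b - 1)))) /
            (w ^ b) ^ 2 * H w + w ^ a / w ^ b * (w * deriv H w) := by
        ring
      rw [h6, ha, hb]
      field_simp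
    have h7 : ∀ D : ℂ, w * (D / (w ^ a / w ^ b * H w)) = (w * D) / (w ^ a / w ^ b * H w) :=
      fun D => by ring
    rw [h7, h5]
    field_simp

/-- the derivative of `w ^ p * G w` -/
theorem deriv_pow {F G : ℂ → ℂ} {w : ℂ} (hw : w ≠ 0) (p : ℕ)
    (hF : F =ᶠ[𝓝 w] fun s => s ^ p * G s) (hG : DifferentiableAt ℂ G w) :
    deriv F w = w ^ p * (p * G w / w + deriv G w) := by
  have hd : HasDerivAt (fun s : ℂ => s ^ p * G s)
      ((p * w ^ (p - 1)) * G w + w ^ p * deriv G w) w :=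
    (hasDerivAt_pow p w).mul hG.hasDerivAt
  rw [hF.deriv_eq, hd.deriv]
  have hp : (p : ℂ) * w ^ (p - 1) = p * w ^ p / w := by
    rcases Nat.eq_zero_or_pos p with rfl | h
    · simp
    · obtain ⟨c, rfl⟩ : ∃ c, p = c + 1 := ⟨p - 1, by omega⟩
      rw [Nat.add_sub_cancel, pow_succ]
      field_simp
  rw [hp]
  ring

/-- the first two derivatives of `w ^ p * G w` -/
theorem deriv_two {F G : ℂ → ℂ} {w : ℂ} (hw : w ≠ 0) (p : ℕ)
    (hF : F =ᶠ[𝓝 w] fun s => s ^ p * G s) (hG : AnalyticAt ℂ G w) :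
    deriv F w = w ^ p / w * (p * G w + w * deriv G w) ∧
    deriv (deriv F) w = w ^ p / w ^ 2 * (p * (p - 1) * G w + 2 * p * w * deriv G w +
      w ^ 2 * deriv (deriv G) w) := by
  have h1 : deriv F w = w ^ p * (p * G w / w + deriv G w) :=
    deriv_pow hw p hF hG.differentiableAt
  have h2 : deriv F =ᶠ[𝓝 w] fun s => s ^ p * (p * G s / s + deriv G s) := by
    filter_upwards [hF.eventually_nhds, hG.eventually_analyticAt,
      isOpen_ne.mem_nhds hw] with s h3 h4 h5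
    exact deriv_pow h5 p h3 h4.differentiableAt
  have h3 : HasDerivAt (fun s => (p : ℂ) * G s / s + deriv G s)
      (((p : ℂ) * deriv G w * w - p * G w * 1) / w ^ 2 + deriv (deriv G) w) w :=
    ((hG.differentiableAt.hasDerivAt.const_mul (p : ℂ)).div (hasDerivAt_id w) hw).add
      hG.deriv.differentiableAt.hasDerivAt
  refine ⟨?_, ?_⟩
  · rw [h1]
    field_simp
  · rw [deriv_pow hw p h2 h3.differentiableAt, h3.deriv]
    field_simp
    ring

/-- the Wronskian of `(w ^ p x, w ^ q y)` -/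
theorem wr_pow {X Y x y : ℂ → ℂ} {w : ℂ} (hw : w ≠ 0) (p q : ℕ)
    (hX : X =ᶠ[𝓝 w] fun s => s ^ p * x s) (hY : Y =ᶠ[𝓝 w] fun s => s ^ q * y s)
    (hx : AnalyticAt ℂ x w) (hy : AnalyticAt ℂ y w) :
    Wr X Y w = w ^ (p + q) / w ^ 3 *
      ((p * x w + w * deriv x w) *
        (q * (q - 1) * y w + 2 * q * w * deriv y w + w ^ 2 * deriv (deriv y) w) -
      (q * y w + w * deriv y w) *
        (p * (p - 1) * x w + 2 * p * w * deriv x w + w ^ 2 * deriv (deriv x) w)) := by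
  obtain ⟨h1, h2⟩ := deriv_two hw p hX hx
  obtain ⟨h3, h4⟩ := deriv_two hw q hY hy
  unfold Wr
  rw [h1, h2, h3, h4, pow_add]
  field_simp

/-- the derivatives of a product -/
theorem deriv_mul_two {F G H : ℂ → ℂ} {w : ℂ} (hF : F =ᶠ[𝓝 w] fun s => G s * H s)
    (hG : AnalyticAt ℂ G w) (hH : AnalyticAt ℂ H w) :
    F w = G w * H w ∧ deriv F w = deriv G w * H w + G w * deriv H w ∧
    deriv (deriv F) w = deriv (deriv G) w * H w + 2 * (deriv G w * deriv H w) +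
      G w * deriv (deriv H) w := by
  have h1 : deriv F =ᶠ[𝓝 w] fun s => deriv G s * H s + G s * deriv H s := by
    filter_upwards [hF.eventually_nhds, hG.eventually_analyticAt,
      hH.eventually_analyticAt] with s h3 h4 h5
    have h6 : F =ᶠ[𝓝 s] fun s => G s * H s := h3
    rw [h6.deriv_eq]
    exact (h4.differentiableAt.hasDerivAt.mul h5.differentiableAt.hasDerivAt).deriv
  refine ⟨hF.self_of_nhds, h1.self_of_nhds, ?_⟩
  rw [h1.deriv_eq]
  have h2 := (hG.deriv.differentiableAt.hasDerivAt.mul hH.differentiableAt.hasDerivAt).add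
    (hG.differentiableAt.hasDerivAt.mul hH.deriv.differentiableAt.hasDerivAt)
  have h3 : deriv (fun s => deriv G s * H s + G s * deriv H s) w =
      deriv (deriv G) w * H w + deriv G w * deriv H w +
      (deriv G w * deriv H w + G w * deriv (deriv H) w) := h2.deriv
  rw [h3]
  ring

/-- the Wronskian after a projective transformation -/
theorem wr_pgl {X Y X1 Y1 : ℂ → ℂ} {w : ℂ} (A : Matrix (Fin 3) (Fin 3) ℂ)
    (hX : AnalyticAt ℂ X w) (hY : AnalyticAt ℂ Y w)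
    (hX1 : AnalyticAt ℂ X1 w) (hY1 : AnalyticAt ℂ Y1 w)
    (hp : ∀ᶠ s in 𝓝 w, A 1 0 * X s + A 1 1 * Y s + A 1 2 =
      (A 0 0 * X s + A 0 1 * Y s + A 0 2) * X1 s)
    (hq : ∀ᶠ s in 𝓝 w, A 2 0 * X s + A 2 1 * Y s + A 2 2 =
      (A 0 0 * X s + A 0 1 * Y s + A 0 2) * Y1 s) :
    (A 0 0 * X w + A 0 1 * Y w + A 0 2) ^ 3 * Wr X1 Y1 w = A.det * Wr X Y w := by
  have hh : AnalyticAt ℂ (fun s => A 0 0 * X s + A 0 1 * Y s + A 0 2) w :=
    ((analyticAt_const.mul hX).add (analyticAt_const.mul hY)).add analyticAt_const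
  obtain ⟨p0, p1, p2⟩ := deriv_mul_two hp hh hX1
  obtain ⟨q0, q1, q2⟩ := deriv_mul_two hq hh hY1
  have a1 : ∀ i, deriv (fun s => A i 0 * X s + A i 1 * Y s + A i 2) w =
      A i 0 * deriv X w + A i 1 * deriv Y w := fun i =>
    (Pool.Agent.MP_ae5b4e_an_ALG.Trans.deriv_affine_ev hX hY).self_of_nhds
  have a2 : ∀ i, deriv (deriv (fun s => A i 0 * X s + A i 1 * Y s + A i 2)) w =
      A i 0 * deriv (deriv X) w + A i 1 * deriv (deriv Y) w := fun i =>
    Pool.Agent.MP_ae5b4e_an_ALG.Trans.deriv_affine_two hX hY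
  rw [a1, a1] at p1 q1
  rw [a2, a2, a1] at p2 q2
  unfold Wr
  rw [Matrix.det_fin_three]
  generalize deriv (deriv X1) w = X12 at *
  generalize deriv (deriv Y1) w = Y12 at *
  generalize deriv (deriv X) w = X2 at *
  generalize deriv (deriv Y) w = Y2 at *
  generalize deriv X1 w = X11 at *
  generalize deriv Y1 w = Y11 at *
  generalize deriv X w = x1 at *
  generalize deriv Y w = y1 at *
  generalize X1 w = X10 at *
  generalize Y1 w = Y10 at *
  generalize X w = x0 at *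
  generalize Y w = y0 at *
  generalize A 0 0 = a at *
  generalize A 0 1 = b at *
  generalize A 0 2 = c at *
  set h := a * x0 + b * y0 + c with hh0
  set h1 := a * x1 + b * y1 with hh1
  set h2 := a * X2 + b * Y2 with hh2
  have e1 : h ^ 3 * (X11 * Y12 - Y11 * X12) =
      h * ((h1 * X10 + h * X11) * (h2 * Y10 + 2 * (h1 * Y11) + h * Y12) -
        (h2 * X10 + 2 * (h1 * X11) + h * X12) * (h1 * Y10 + h * Y11)) -
      h1 * ((h * X10) * (h2 * Y10 + 2 * (h1 * Y11) + h * Y12) -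
        (h2 * X10 + 2 * (h1 * X11) + h * X12) * (h * Y10)) +
      h2 * ((h * X10) * (h1 * Y10 + h * Y11) - (h1 * X10 + h * X11) * (h * Y10)) := by
    ring
  rw [e1, ← p0, ← p1, ← p2, ← q0, ← q1, ← q2, hh0, hh1, hh2]
  ring

end PlaceE

open PlaceE in
/-- the residues at a place of type `(a μ, b μ)` -/
theorem place_E {φ : ℂ → Fin 3 → ℂ} {X Y K : ℂ → ℂ} {L a b μ : ℕ} {β : ℝ} (ha : 0 < a)
    (hab : a < b) (hLB : LBd a b β) (hμ : 0 < μ) (hφ : ∀ i, AnalyticAt ℂ (fun w => φ w i) 0)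
    (hφL : ∀ᶠ w in 𝓝[≠] (0:ℂ), φ w = w ^ L • ![X w, Y w, 1]) (hT : PType φ (a * μ) (b * μ))
    (hK : MeromorphicAt K 0) (hg : ∀ᶠ w in 𝓝[≠] (0:ℂ), GoodG X Y K w) :
    ∃ d : ℂ, d.re ≤ β ∧
      Tendsto (fun w => w * (K w / 2 + deriv (Wr X Y) w / (3 * Wr X Y w))) (𝓝[≠] 0)
        (𝓝 (μ * d - 1)) ∧
      Tendsto (fun w => w * (deriv (Wr X Y) w / Wr X Y w)) (𝓝[≠] 0)
        (𝓝 (((a:ℂ) + b) * μ - 3 - 3 * L)) := by
  obtain ⟨A, u, x1, y1, hA, hu, hu0, hx1, hx10, hy1, hy10, hAφ⟩ := hT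
  have hne : ∀ᶠ w in 𝓝[≠] (0:ℂ), w ≠ 0 := self_mem_nhdsWithin
  -- the three coordinates
  have hcoord : ∀ᶠ w in 𝓝[≠] (0:ℂ),
      w ^ L * (A 0 0 * X w + A 0 1 * Y w + A 0 2) = u w ∧
      w ^ L * (A 1 0 * X w + A 1 1 * Y w + A 1 2) = w ^ (a * μ) * x1 w ∧
      w ^ L * (A 2 0 * X w + A 2 1 * Y w + A 2 2) = w ^ (b * μ) * y1 w := by
    filter_upwards [hφL, hAφ.filter_mono nhdsWithin_le_nhds] with w h1 h2
    rw [h1] at h2
    have h3 := congrFun h2 0
    have h4 := congrFun h2 1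
    have h5 := congrFun h2 2
    simp [Matrix.mulVec, dotProduct, Fin.sum_univ_three] at h3 h4 h5
    refine ⟨?_, ?_, ?_⟩
    · rw [← h3]
      ring
    · rw [← h4]
      ring
    · rw [← h5]
      ring
  have hune : ∀ᶠ w in 𝓝[≠] (0:ℂ), u w ≠ 0 :=
    (hu.continuousAt.eventually_ne hu0).filter_mono nhdsWithin_le_nhds
  set h : ℂ → ℂ := fun s => A 0 0 * X s + A 0 1 * Y s + A 0 2 with hhdef
  have hh : ∀ᶠ w in 𝓝[≠] (0:ℂ), h w = w ^ 0 / w ^ L * u w := by
    filter_upwards [hcoord, hne] with w hw hw0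
    rw [pow_zero, ← hw.1]
    have : w ^ L ≠ 0 := pow_ne_zero _ hw0
    field_simp
    rfl
  obtain ⟨hhne, hhlim⟩ := logder (a := 0) (b := L) hu hu0 hh
  -- the normalized curve
  set xt : ℂ → ℂ := fun w => x1 w / u w with hxt
  set yt : ℂ → ℂ := fun w => y1 w / u w with hyt
  have hxta : AnalyticAt ℂ xt 0 := hx1.div hu hu0
  have hyta : AnalyticAt ℂ yt 0 := hy1.div hu hu0
  have hxt0 : xt 0 ≠ 0 := div_ne_zero hx10 hu0
  have hyt0 : yt 0 ≠ 0 := div_ne_zero hy10 hu0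
  set K1 : ℂ → ℂ := fun s => K s + 2 * (deriv h s / h s) with hK1def
  have hhmer : MeromorphicAt h 0 := by
    have h1 : MeromorphicAt (fun w : ℂ => w ^ 0 / w ^ L * u w) 0 :=
      (((analyticAt_id.pow 0).meromorphicAt).div ((analyticAt_id.pow L).meromorphicAt)).mul
        hu.meromorphicAt
    exact h1.congr (hh.mono fun w hw => hw.symm)
  have hK1 : MeromorphicAt K1 0 :=
    hK.add ((MeromorphicAt.const 2 0).mul (hhmer.deriv.div hhmer))
  have hX1e : ∀ᶠ w in 𝓝[≠] (0:ℂ),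
      A 1 0 * X w + A 1 1 * Y w + A 1 2 = h w * (w ^ (a * μ) * xt w) ∧
      A 2 0 * X w + A 2 1 * Y w + A 2 2 = h w * (w ^ (b * μ) * yt w) := by
    filter_upwards [hcoord, hne, hune] with w hw hw0 hu1
    have hL : w ^ L ≠ 0 := pow_ne_zero _ hw0
    obtain ⟨h1, h2, h3⟩ := hw
    have h1' : w ^ L * h w = u w := h1
    constructor
    · apply mul_left_cancel₀ hL
      rw [h2, hxt]
      have : w ^ L * (h w * (w ^ (a * μ) * (x1 w / u w))) =
        (w ^ L * h w) * (w ^ (a * μ) * (x1 w / u w)) := by ring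
      rw [this, h1']
      field_simp
    · apply mul_left_cancel₀ hL
      rw [h3, hyt]
      have : w ^ L * (h w * (w ^ (b * μ) * (y1 w / u w))) =
        (w ^ L * h w) * (w ^ (b * μ) * (y1 w / u w)) := by ring
      rw [this, h1']
      field_simp
  have hG1 : ∀ᶠ w in 𝓝[≠] (0:ℂ), GoodG (fun w => w ^ (a * μ) * xt w)
      (fun w => w ^ (b * μ) * yt w) K1 w := by
    filter_upwards [hg, hhne, ev_nhds hX1e, ev_nhds hhne] with w h1 h2 h3 h4
    refine Pool.Agent.MP_ae5b4e_an_ALG.goodG_congr (goodG_pgl h1 hA h2) ?_ ?_ ?_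
    · filter_upwards [h3, h4] with s hs hs1
      rw [hs.1]
      exact mul_div_cancel_left₀ _ hs1
    · filter_upwards [h3, h4] with s hs hs1
      rw [hs.2]
      exact mul_div_cancel_left₀ _ hs1
    · exact EventuallyEq.rfl
  obtain ⟨c, hc, hcβ⟩ := place_bound ha hab hLB hμ (X := fun w => w ^ (a * μ) * xt w)
    (Y := fun w => w ^ (b * μ) * yt w) (K := K1) hxta hxt0 (Eventually.of_forall fun w => rfl)
    hyta hyt0 (Eventually.of_forall fun w => rfl) hK1 hG1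
  -- the Wronskian
  set H : ℂ → ℂ := fun w => u w ^ 3 * (((a * μ : ℕ) * xt w + w * deriv xt w) *
        ((b * μ : ℕ) * ((b * μ : ℕ) - 1) * yt w + 2 * (b * μ : ℕ) * w * deriv yt w +
          w ^ 2 * deriv (deriv yt) w) -
      ((b * μ : ℕ) * yt w + w * deriv yt w) *
        ((a * μ : ℕ) * ((a * μ : ℕ) - 1) * xt w + 2 * (a * μ : ℕ) * w * deriv xt w +
          w ^ 2 * deriv (deriv xt) w)) / A.det with hHdef
  have hHa : AnalyticAt ℂ H 0 := by
    have hx' := hxta.deriv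
    have hx'' := hx'.deriv
    have hy' := hyta.deriv
    have hy'' := hy'.deriv
    refine ((hu.pow 3).mul ?_).div analyticAt_const hA
    fun_prop
  have hH0 : H 0 ≠ 0 := by
    have h1 : H 0 = u 0 ^ 3 * ((a * μ) * (b * μ) * ((b : ℂ) * μ - a * μ) * xt 0 * yt 0) /
        A.det := by
      simp only [hHdef]
      push_cast
      ring
    rw [h1]
    have ha' : (a : ℂ) ≠ 0 := by exact_mod_cast ha.ne'
    have hb' : (b : ℂ) ≠ 0 := by exact_mod_cast (ha.trans hab).ne'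
    have hμ' : (μ : ℂ) ≠ 0 := by exact_mod_cast hμ.ne'
    have hba : (b : ℂ) * μ - a * μ ≠ 0 := by
      rw [← sub_mul]
      refine mul_ne_zero ?_ hμ'
      rw [sub_ne_zero]
      exact_mod_cast hab.ne'
    exact div_ne_zero (mul_ne_zero (pow_ne_zero _ hu0) (mul_ne_zero (mul_ne_zero
      (mul_ne_zero (mul_ne_zero (mul_ne_zero ha' hμ') (mul_ne_zero hb' hμ')) hba) hxt0) hyt0)) hA
  have hWr : ∀ᶠ w in 𝓝[≠] (0:ℂ), Wr X Y w =
      w ^ (a * μ + b * μ) / w ^ (3 * L + 3) * H w := by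
    filter_upwards [hg, hne, ev_nhds hX1e, hh,
      hxta.eventually_analyticAt.filter_mono nhdsWithin_le_nhds,
      hyta.eventually_analyticAt.filter_mono nhdsWithin_le_nhds] with w h1 hw0 h3 h4 h5 h6
    have hL : w ^ L ≠ 0 := pow_ne_zero _ hw0
    have hXa : AnalyticAt ℂ X w := h1.1.1
    have hYa : AnalyticAt ℂ Y w := h1.1.2.1
    have e1 := wr_pgl (X1 := fun w => w ^ (a * μ) * xt w) (Y1 := fun w => w ^ (b * μ) * yt w)
      A hXa hYa ((analyticAt_id.pow _).mul h5) ((analyticAt_id.pow _).mul h6)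
      (h3.mono fun s hs => hs.1) (h3.mono fun s hs => hs.2)
    have e2 := wr_pow hw0 (a * μ) (b * μ) (X := fun w => w ^ (a * μ) * xt w)
      (Y := fun w => w ^ (b * μ) * yt w) EventuallyEq.rfl EventuallyEq.rfl h5 h6
    have e3 : A 0 0 * X w + A 0 1 * Y w + A 0 2 = w ^ 0 / w ^ L * u w := h4
    rw [e2, e3] at e1
    have e4 : Wr X Y w = (A.det * Wr X Y w) / A.det := by
      field_simp
    rw [e4, ← e1, hHdef, pow_add w (3 * L) 3, pow_mul' w 3 L, pow_zero]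
    field_simp
  obtain ⟨hWne, hWlim⟩ := logder (a := a * μ + b * μ) (b := 3 * L + 3) hHa hH0 hWr
  -- the residues
  have hKlim : Tendsto (fun w => w * K w) (𝓝[≠] 0) (𝓝 (c + 2 * L)) := by
    have h1 := hc.sub (hhlim.const_mul 2)
    have h2 : c - 2 * (((0 : ℕ) : ℂ) - L) = c + 2 * L := by
      push_cast
      ring
    rw [h2] at h1
    refine h1.congr fun w => ?_
    simp only [hK1def]
    ring
  refine ⟨((a:ℂ) + b) / 3 + c / (2 * μ), hcβ, ?_, ?_⟩
  · have h1 := (hKlim.div_const 2).add (hWlim.div_const 3)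
    have hμ' : (μ : ℂ) ≠ 0 := by exact_mod_cast hμ.ne'
    have h2 : (c + 2 * L) / 2 + (((a * μ + b * μ : ℕ) : ℂ) - (3 * L + 3 : ℕ)) / 3 =
        μ * (((a:ℂ) + b) / 3 + c / (2 * μ)) - 1 := by
      push_cast
      field_simp
      ring
    rw [h2] at h1
    refine h1.congr' ?_
    filter_upwards [hWne] with w hw
    field_simp
  · have h2 : (((a * μ + b * μ : ℕ) : ℂ) - (3 * L + 3 : ℕ)) = ((a:ℂ) + b) * μ - 3 - 3 * L := by
      push_cast
      ring
    rw [h2] at hWlim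
    exact hWlim

end Pool.Agent.MP_ae5b4e_an_GENC
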