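import Mathlib
import Pool.Agent.Lib.MP_ae5b4e_an_GENC.Defs

/-!
# MP_ae5b4e_an, project GENC: the sum of the fractions does not depend on the covering
-/

noncomputable section

namespace Pool.Agent.MP_ae5b4e_an_GENC

open Filter Topology Set Metric
open scoped Polynomial
open Polynomial (evalEval)

namespace FrSum

theorem ze_ne (N : ℕ) : ze N ≠ 0 := Complex.exp_ne_zero _

theorem ze_pow_self {N : ℕ} (hN : 0 < N) : ze N ^ N = 1 := by
  have h0 : (N:ℂ) ≠ 0 := by exact_mod_cast hN.ne'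
  rw [ze, ← Complex.exp_nat_mul]
  have : (N:ℂ) * (2 * Real.pi * Complex.I / N) = 2 * Real.pi * Complex.I := by
    field_simp
  rw [this, Complex.exp_two_pi_mul_I]

theorem ze_mul_pow {N q : ℕ} (hq : 0 < q) : ze (N * q) ^ q = ze N := by
  have h0 : (q:ℂ) ≠ 0 := by exact_mod_cast hq.ne'
  rw [ze, ze, ← Complex.exp_nat_mul]
  congr 1
  push_cast
  rcases eq_or_ne (N:ℂ) 0 with h | h
  · simp [h]
  · field_simp

/-- the power map near `0` -/
theorem map_pow {q : ℕ} (hq : 0 < q) : Filter.map (fun w : ℂ => w ^ q) (𝓝[≠] 0) = 𝓝[≠] 0 := by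
  apply le_antisymm
  · refine tendsto_nhdsWithin_iff.2 ⟨?_, ?_⟩
    · have : Tendsto (fun w : ℂ => w ^ q) (𝓝 0) (𝓝 (0 ^ q)) := (continuous_pow q).tendsto 0
      rw [zero_pow hq.ne'] at this
      exact this.mono_left nhdsWithin_le_nhds
    · filter_upwards [self_mem_nhdsWithin] with w hw
      exact pow_ne_zero q hw
  · intro s hs
    rw [Filter.mem_map, Metric.mem_nhdsWithin_iff] at hs
    obtain ⟨ε, hε, hs⟩ := hs
    rw [Metric.mem_nhdsWithin_iff]
    refine ⟨ε ^ q, pow_pos hε q, ?_⟩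
    rintro v ⟨hv, hv0⟩
    obtain ⟨w, hw⟩ := IsAlgClosed.exists_pow_nat_eq v hq
    have hw0 : w ≠ 0 := by
      rintro rfl
      rw [zero_pow hq.ne'] at hw
      exact hv0 hw.symm
    have hwε : ‖w‖ < ε := by
      have h1 : ‖v‖ < ε ^ q := by simpa using hv
      rw [← hw, norm_pow] at h1
      exact lt_of_pow_lt_pow_left₀ q hε.le h1
    have := hs ⟨(by simpa using hwε : w ∈ ball (0:ℂ) ε), hw0⟩
    simpa [hw] using this

theorem eventually_pow {q : ℕ} (hq : 0 < q) {p : ℂ → Prop} :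
    (∀ᶠ w in 𝓝[≠] (0:ℂ), p (w ^ q)) ↔ ∀ᶠ v in 𝓝[≠] (0:ℂ), p v := by
  conv_rhs => rw [← map_pow hq]
  exact Iff.rfl

theorem tendsto_mul {c : ℂ} (hc : c ≠ 0) :
    Tendsto (fun w : ℂ => c * w) (𝓝[≠] 0) (𝓝[≠] 0) := by
  refine tendsto_nhdsWithin_iff.2 ⟨?_, ?_⟩
  · have : Tendsto (fun w : ℂ => c * w) (𝓝 0) (𝓝 (c * 0)) := (continuous_const_mul c).tendsto 0
    rw [mul_zero] at this
    exact this.mono_left nhdsWithin_le_nhds
  · filter_upwards [self_mem_nhdsWithin] with w hw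
    exact mul_ne_zero hc hw

theorem card_periodic (p : ℕ → Prop) [DecidablePred p] (N : ℕ) (hp : ∀ s, p (N + s) ↔ p s)
    (q : ℕ) : ((Finset.range (N * q)).filter p).card = q * ((Finset.range N).filter p).card := by
  rw [← Nat.count_eq_card_filter_range, ← Nat.count_eq_card_filter_range]
  induction q with
  | zero => simp
  | succ q ih =>
    have h1 : N * (q + 1) = N + N * q := by ring
    have h2 : (fun k => p (N + k)) = p := by
      ext k; exact hp k
    rw [h1, Nat.count_add]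
    simp only [h2]
    rw [ih]; ring

open Classical in
theorem fr_refine {N q : ℕ} (hN : 0 < N) (hq : 0 < q) (Y : ℂ → ℂ) :
    fr (N * q) (fun w => Y (w ^ q)) = fr N Y := by
  have hiff : ∀ s, (∀ᶠ w in 𝓝[≠] (0:ℂ), Y ((ze (N * q) ^ s * w) ^ q) = Y (w ^ q)) ↔
      ∀ᶠ w in 𝓝[≠] (0:ℂ), Y (ze N ^ s * w) = Y w := by
    intro s
    rw [← eventually_pow hq (p := fun w => Y (ze N ^ s * w) = Y w)]
    refine eventually_congr (Eventually.of_forall fun w => ?_)
    rw [mul_pow, ← pow_mul, mul_comm s q, pow_mul, ze_mul_pow hq]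
  have hcard := card_periodic (fun s => ∀ᶠ w in 𝓝[≠] (0:ℂ), Y (ze N ^ s * w) = Y w) N
    (fun s => by rw [pow_add, ze_pow_self hN, one_mul]) q
  unfold fr
  simp only [hiff]
  rw [hcard]
  have h1 : (N:ℝ) ≠ 0 := by exact_mod_cast hN.ne'
  have h2 : (q:ℝ) ≠ 0 := by exact_mod_cast hq.ne'
  push_cast
  field_simp

theorem fr_congr {N : ℕ} {Y Y' : ℂ → ℂ} (h : ∀ᶠ w in 𝓝[≠] (0:ℂ), Y w = Y' w) :
    fr N Y = fr N Y' := by
  classical
  have hiff : ∀ s, (∀ᶠ w in 𝓝[≠] (0:ℂ), Y (ze N ^ s * w) = Y w) ↔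
      ∀ᶠ w in 𝓝[≠] (0:ℂ), Y' (ze N ^ s * w) = Y' w := by
    intro s
    have h2 := (tendsto_mul (pow_ne_zero s (ze_ne N))).eventually h
    constructor
    · intro h3
      filter_upwards [h, h2, h3] with w a b c
      rw [← b, c, a]
    · intro h3
      filter_upwards [h, h2, h3] with w a b c
      rw [b, c, a]
  unfold fr
  simp only [hiff]

/-- two coverings agree after a common refinement -/
theorem matching {m : ℂ[X][X]} {e : ℂ} {N N' : ℕ} (hN : 0 < N) (hN' : 0 < N')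
    {Y Y' : Fin m.natDegree → ℂ → ℂ} (hc : Cov1 m (fun w => e + w ^ N) Y)
    (hc' : Cov1 m (fun w => e + w ^ N') Y') :
    ∃ σ : Equiv.Perm (Fin m.natDegree), ∀ i, ∀ᶠ w in 𝓝[≠] (0:ℂ),
      Y i (w ^ N') = Y' (σ i) (w ^ N) := by
  have h1 := (eventually_pow hN' (p := fun w => Function.Injective (fun i => Y i w) ∧
    ∀ t, evalEval (e + w ^ N) t m = 0 ↔ ∃ i, t = Y i w)).2 hc.root
  have h2 := (eventually_pow hN (p := fun w => Function.Injective (fun i => Y' i w) ∧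
    ∀ t, evalEval (e + w ^ N') t m = 0 ↔ ∃ i, t = Y' i w)).2 hc'.root
  have h3 : ∀ᶠ w in 𝓝[≠] (0:ℂ), ∃ σ : Equiv.Perm (Fin m.natDegree), ∀ i,
      Y i (w ^ N') = Y' (σ i) (w ^ N) := by
    filter_upwards [h1, h2] with w hw hw'
    have h4 : ∀ i, ∃ j, Y i (w ^ N') = Y' j (w ^ N) := by
      intro i
      have h5 := (hw.2 (Y i (w ^ N'))).2 ⟨i, rfl⟩
      rw [← pow_mul, mul_comm N' N, pow_mul] at h5
      exact (hw'.2 _).1 h5
    choose f hf using h4
    have hinj : Function.Injective f := by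
      intro i j hij
      apply hw.1
      show Y i (w ^ N') = Y j (w ^ N')
      rw [hf i, hf j, hij]
    exact ⟨Equiv.ofBijective f (Finite.injective_iff_bijective.1 hinj), fun i => hf i⟩
  have h4 : ∃ σ : Equiv.Perm (Fin m.natDegree), ∃ᶠ w in 𝓝[≠] (0:ℂ), ∀ i,
      Y i (w ^ N') = Y' (σ i) (w ^ N) := by
    by_contra hcon
    push Not at hcon
    have h5 : ∀ σ : Equiv.Perm (Fin m.natDegree), ∀ᶠ w in 𝓝[≠] (0:ℂ), ¬ ∀ i,
        Y i (w ^ N') = Y' (σ i) (w ^ N) := by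
      intro σ
      exact not_frequently.1 (by simpa using hcon σ)
    have h6 := (eventually_all.2 h5).and h3
    obtain ⟨w, hw⟩ := h6.exists
    obtain ⟨σ, hσ⟩ := hw.2
    exact hw.1 σ hσ
  obtain ⟨σ, hσ⟩ := h4
  refine ⟨σ, fun i => ?_⟩
  have hm1 : MeromorphicAt (fun w => Y i (w ^ N')) 0 := by
    have : MeromorphicAt (Y i) ((fun w : ℂ => w ^ N') 0) := by
      simpa [zero_pow hN'.ne'] using hc.mer i
    exact this.comp_analyticAt (g := fun w : ℂ => w ^ N') (by fun_prop)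
  have hm2 : MeromorphicAt (fun w => Y' (σ i) (w ^ N)) 0 := by
    have : MeromorphicAt (Y' (σ i)) ((fun w : ℂ => w ^ N) 0) := by
      simpa [zero_pow hN.ne'] using hc'.mer (σ i)
    exact this.comp_analyticAt (g := fun w : ℂ => w ^ N) (by fun_prop)
  exact (hm1.frequently_eq_iff_eventuallyEq hm2).1 (hσ.mono fun w hw => hw i)

end FrSum

/-- the sum of the fractions does not depend on the covering -/
theorem fr_sum_eq {m : ℂ[X][X]} {e : ℂ} {N N' : ℕ} (hN : 0 < N) (hN' : 0 < N')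
    {Y Y' : Fin m.natDegree → ℂ → ℂ} (hc : Cov1 m (fun w => e + w ^ N) Y)
    (hc' : Cov1 m (fun w => e + w ^ N') Y') : ∑ i, fr N (Y i) = ∑ i, fr N' (Y' i) := by
  obtain ⟨σ, hσ⟩ := FrSum.matching hN hN' hc hc'
  rw [← Equiv.sum_comp σ (fun i => fr N' (Y' i))]
  refine Finset.sum_congr rfl fun i _ => ?_
  rw [← FrSum.fr_refine hN hN' (Y i), FrSum.fr_congr (hσ i), mul_comm N N',
    FrSum.fr_refine hN' hN (Y' (σ i))]

end Pool.Agent.MP_ae5b4e_an_GENC
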