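import Mathlib
import Pool.Agent.Lib.MP_ae5b4e_an_GENC.Defs
import Pool.Agent.Lib.MP_ae5b4e_an_GEN.Poly3
import Pool.Agent.Lib.MP_ae5b4e_an_LAT.NDImplicit

/-!
# MP_ae5b4e_an, project GENC, module A2: branches at finite places and at infinity
-/

noncomputable section

namespace Pool.Agent.MP_ae5b4e_an_GENC

open Filter Topology Set Metric
open scoped Polynomial
open Polynomial (evalEval)
open Pool.Agent.MP_ae5b4e_an_ND (Reg)
open Pool.Agent.MP_ae5b4e_an_FLEX
open Pool.Agent.MP_ae5b4e_an_GEN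

namespace Integral

theorem continuous_eval3 (P : MvPolynomial (Fin 3) ℂ) :
    Continuous (fun v : Fin 3 → ℂ => MvPolynomial.eval v P) :=
  MvPolynomial.continuous_eval P

/-- a root of a polynomial which is monic up to a constant in the second variable is bounded, hence
extends to an analytic function -/
theorem bounded_analytic {P : MvPolynomial (Fin 3) ℂ} {n : ℕ} (hom : P.IsHomogeneous n)
    (top : MvPolynomial.eval ![0, 1, 0] P ≠ 0) {X Y Z : ℂ → ℂ} {x0 z0 : ℂ}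
    (hX : Tendsto X (𝓝[≠] 0) (𝓝 x0)) (hZ : Tendsto Z (𝓝[≠] 0) (𝓝 z0))
    (hY : MeromorphicAt Y 0)
    (h0 : ∀ᶠ w in 𝓝[≠] (0:ℂ), MvPolynomial.eval ![X w, Y w, Z w] P = 0) :
    ∃ Y' : ℂ → ℂ, AnalyticAt ℂ Y' 0 ∧ ∀ᶠ w in 𝓝[≠] (0:ℂ), Y w = Y' w := by
  rcases lt_or_ge (meromorphicOrderAt Y 0) 0 with ho | ho
  · exfalso
    have h1 : Tendsto Y (𝓝[≠] 0) (Bornology.cobounded ℂ) :=
      tendsto_cobounded_of_meromorphicOrderAt_neg ho
    have h2 : Tendsto (fun w => (Y w)⁻¹) (𝓝[≠] 0) (𝓝 0) :=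
      Filter.tendsto_inv₀_cobounded.comp h1
    have hne : ∀ᶠ w in 𝓝[≠] (0:ℂ), Y w ≠ 0 := by
      exact h1.eventually (Bornology.eventually_ne_cobounded (0:ℂ))
    have hXY : Tendsto (fun w => (Y w)⁻¹ * X w) (𝓝[≠] 0) (𝓝 0) := by
      have := h2.mul hX
      simpa using this
    have hZY : Tendsto (fun w => (Y w)⁻¹ * Z w) (𝓝[≠] 0) (𝓝 0) := by
      have := h2.mul hZ
      simpa using this
    have hv : Tendsto (fun w => (![(Y w)⁻¹ * X w, 1, (Y w)⁻¹ * Z w] : Fin 3 → ℂ)) (𝓝[≠] 0)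
        (𝓝 ![0, 1, 0]) := by
      rw [tendsto_pi_nhds]
      intro i
      fin_cases i
      · simpa using hXY
      · simp
      · simpa using hZY
    have h4 : Tendsto (fun w => MvPolynomial.eval (![(Y w)⁻¹ * X w, 1, (Y w)⁻¹ * Z w]) P) (𝓝[≠] 0)
        (𝓝 (MvPolynomial.eval ![0, 1, 0] P)) :=
      ((continuous_eval3 P).tendsto _).comp hv
    have h5 : ∀ᶠ w in 𝓝[≠] (0:ℂ),
        MvPolynomial.eval (![(Y w)⁻¹ * X w, 1, (Y w)⁻¹ * Z w]) P = 0 := by
      filter_upwards [h0, hne] with w hw hw1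
      have h6 : (![(Y w)⁻¹ * X w, 1, (Y w)⁻¹ * Z w] : Fin 3 → ℂ) =
          (Y w)⁻¹ • ![X w, Y w, Z w] := by
        funext i
        fin_cases i
        · simp
        · simp [hw1]
        · simp
      rw [h6, eval_smul3 hom, hw, mul_zero]
    have h7 : Tendsto (fun _ : ℂ => (0:ℂ)) (𝓝[≠] (0:ℂ)) (𝓝 (MvPolynomial.eval ![0, 1, 0] P)) := by
      refine h4.congr' ?_
      filter_upwards [h5] with w hw
      exact hw
    exact top (tendsto_nhds_unique h7 tendsto_const_nhds)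
  · obtain ⟨c, hc⟩ := tendsto_nhds_of_meromorphicOrderAt_nonneg hY ho
    refine ⟨Function.update Y 0 c, ?_, ?_⟩
    · have hm : MeromorphicAt (Function.update Y 0 c) 0 := by
        refine hY.congr ?_
        filter_upwards [self_mem_nhdsWithin] with w hw
        rw [Function.update_of_ne hw]
      refine hm.analyticAt ?_
      rw [continuousAt_update_same]
      exact hc
    · filter_upwards [self_mem_nhdsWithin] with w hw
      rw [Function.update_of_ne hw]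

end Integral

open Integral

/-- the branches are holomorphic at the finite places -/
theorem finite_analytic {P : MvPolynomial (Fin 3) ℂ} {n : ℕ} (h : Chart P n) (hn : 1 ≤ n) {N : ℕ}
    {e : ℂ} {Y : ℂ → ℂ} (hY : MeromorphicAt Y 0)
    (h0 : ∀ᶠ w in 𝓝[≠] (0:ℂ), MvPolynomial.eval ![e + w ^ N, Y w, 1] P = 0) :
    ∃ Y' : ℂ → ℂ, AnalyticAt ℂ Y' 0 ∧ ∀ᶠ w in 𝓝[≠] (0:ℂ), Y w = Y' w := by
  refine bounded_analytic (X := fun w => e + w ^ N) (Z := fun _ => 1) (x0 := e + 0 ^ N) (z0 := 1)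
    h.hom h.top ?_ tendsto_const_nhds hY h0
  have h1 : Continuous (fun w : ℂ => e + w ^ N) := by fun_prop
  exact (h1.tendsto 0).mono_left nhdsWithin_le_nhds

/-- the branches at infinity are not ramified -/
theorem inf_analytic {P : MvPolynomial (Fin 3) ℂ} {n : ℕ} (h : Chart P n) (hn : 1 ≤ n) {N : ℕ}
    (hN : 0 < N) {Y : ℂ → ℂ} (hY : MeromorphicAt Y 0)
    (h0 : ∀ᶠ w in 𝓝[≠] (0:ℂ), MvPolynomial.eval ![(w ^ N)⁻¹, Y w, 1] P = 0) :
    ∃ g : ℂ → ℂ, AnalyticAt ℂ g 0 ∧ (∀ᶠ w in 𝓝[≠] (0:ℂ), Y w = g (w ^ N) / w ^ N) ∧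
      ∀ᶠ v in 𝓝 (0:ℂ), MvPolynomial.eval ![1, g v, v] P = 0 := by
  have hpow : Tendsto (fun w : ℂ => w ^ N) (𝓝[≠] 0) (𝓝 0) := by
    have h1 : Continuous (fun w : ℂ => w ^ N) := by fun_prop
    have h2 := (h1.tendsto 0).mono_left (nhdsWithin_le_nhds (s := {0}ᶜ))
    rwa [zero_pow hN.ne'] at h2
  have hmer : MeromorphicAt (fun w => w ^ N * Y w) 0 := by
    have h1 : MeromorphicAt (fun w : ℂ => w ^ N) 0 := by
      have : AnalyticAt ℂ (fun w : ℂ => w ^ N) 0 := by fun_prop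
      exact this.meromorphicAt
    exact h1.mul hY
  have heq : ∀ᶠ w in 𝓝[≠] (0:ℂ), MvPolynomial.eval ![1, w ^ N * Y w, w ^ N] P = 0 := by
    filter_upwards [h0, self_mem_nhdsWithin] with w hw hw0
    have hw1 : w ^ N ≠ 0 := pow_ne_zero _ hw0
    have h6 : (![1, w ^ N * Y w, w ^ N] : Fin 3 → ℂ) = (w ^ N) • ![(w ^ N)⁻¹, Y w, 1] := by
      funext i
      fin_cases i
      · simp [hw1]
      · simp
      · simp
    rw [h6, eval_smul3 h.hom, hw, mul_zero]
  obtain ⟨ζ, hζ, hζY⟩ := bounded_analytic (X := fun _ => 1) (Y := fun w => w ^ N * Y w)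
    (Z := fun w => w ^ N) h.hom h.top tendsto_const_nhds hpow hmer heq
  set η := ζ 0 with hη
  have hζ0 : Tendsto ζ (𝓝[≠] 0) (𝓝 η) :=
    hζ.continuousAt.tendsto.mono_left nhdsWithin_le_nhds
  have hζeq : ∀ᶠ w in 𝓝[≠] (0:ℂ), MvPolynomial.eval ![1, ζ w, w ^ N] P = 0 := by
    filter_upwards [heq, hζY] with w hw hw1
    rw [← hw1]
    exact hw
  have hroot : MvPolynomial.eval ![1, η, 0] P = 0 := by
    have hv : Tendsto (fun w => (![1, ζ w, w ^ N] : Fin 3 → ℂ)) (𝓝[≠] 0) (𝓝 ![1, η, 0]) := by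
      rw [tendsto_pi_nhds]
      intro i
      fin_cases i
      · simp
      · simpa using hζ0
      · simpa using hpow
    have h4 : Tendsto (fun w => MvPolynomial.eval ![1, ζ w, w ^ N] P) (𝓝[≠] 0)
        (𝓝 (MvPolynomial.eval ![1, η, 0] P)) :=
      ((continuous_eval3 P).tendsto _).comp hv
    have h7 : Tendsto (fun _ : ℂ => (0:ℂ)) (𝓝[≠] (0:ℂ)) (𝓝 (MvPolynomial.eval ![1, η, 0] P)) := by
      refine h4.congr' ?_
      filter_upwards [hζeq] with w hw
      exact hw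
    exact tendsto_nhds_unique h7 tendsto_const_nhds
  have hder := h.inf η hroot
  -- the implicit function
  obtain ⟨g, hg, hg0, hgF⟩ := Pool.Agent.MP_ae5b4e_an_ND.implicit_analytic
    (F := fun q : ℂ × ℂ => MvPolynomial.eval ![1, q.2, q.1] P) (x₀ := 0) (t₀ := η)
    (c := MvPolynomial.eval ![1, η, 0] (MvPolynomial.pderiv 1 P))
    (analyticAt_eval3_two (v := fun q : ℂ × ℂ => ![1, q.2, q.1]) (by
      intro i
      fin_cases i
      · exact analyticAt_const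
      · exact analyticAt_snd
      · exact analyticAt_fst) P) hroot hder (by
      have h1 := hasDerivAt_eval3 (v := fun w : ℂ => ![1, w, 0]) (v' := ![0, 1, 0]) (w := η) (by
        intro i
        fin_cases i
        · exact hasDerivAt_const η (1:ℂ)
        · exact hasDerivAt_id η
        · exact hasDerivAt_const η (0:ℂ)) P
      simpa [Fin.sum_univ_three] using h1)
  refine ⟨g, hg, ?_, ?_⟩
  · have hT : Tendsto (fun w : ℂ => (w ^ N, ζ w)) (𝓝[≠] 0) (𝓝 ((0:ℂ), η)) := by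
      rw [nhds_prod_eq]
      exact hpow.prodMk hζ0
    filter_upwards [hT.eventually hgF, hζeq, hζY, self_mem_nhdsWithin] with w h1 h2 h3 h4
    have h5 : g (w ^ N) = ζ w := h1.1 h2
    have hw1 : w ^ N ≠ 0 := pow_ne_zero _ h4
    rw [h5, ← h3]
    field_simp
  · have hT : Tendsto (fun v : ℂ => (v, g v)) (𝓝 0) (𝓝 ((0:ℂ), η)) := by
      rw [nhds_prod_eq]
      have : Tendsto g (𝓝 0) (𝓝 η) := by
        rw [← hg0]
        exact hg.continuousAt
      exact tendsto_id.prodMk this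
    filter_upwards [hT.eventually hgF] with v hv
    exact hv.2 rfl

end Pool.Agent.MP_ae5b4e_an_GENC
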