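import Mathlib
import Pool.Agent.Lib.MP_ae5b4e_an_GENC.Defs
import Pool.Agent.Lib.MP_ae5b4e_an_GENC.Irr
import Pool.Agent.Lib.MP_ae5b4e_an_GENC.Integral
import Pool.Agent.Lib.MP_ae5b4e_an_GENC.FrSum
import Pool.Agent.Lib.MP_ae5b4e_an_LAT.NDCrh
import Pool.Agent.Lib.MP_ae5b4e_an_LAT.NDC
import Pool.Agent.Lib.MP_ae5b4e_an_LAT.NDCe
import Pool.Agent.Lib.MP_ae5b4e_an_LAT.NDMain
import Pool.Agent.Lib.MP_ae5b4e_an_ALG.Cover
import Pool.Agent.Lib.MP_ae5b4e_an_GEN.Cover2

/-!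
# MP_ae5b4e_an, project GENC, module A9: the Riemann-Hurwitz inequality
-/

noncomputable section

namespace Pool.Agent.MP_ae5b4e_an_GENC

open Filter Topology Set Metric
open scoped Polynomial
open Polynomial (evalEval)
open Pool.Agent.MP_ae5b4e_an_ND (Reg)
open Pool.Agent.MP_ae5b4e_an_FLEX
open Pool.Agent.MP_ae5b4e_an_GEN

namespace Rh

open Pool.Agent.MP_ae5b4e_an_ND (HasPS)
open Pool.Agent.LAT.RH (Lau zinf zfin inj_zinf inj_zfin pF Pt Data zu zr frac exists_perm exists_pt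
  rh_ineq)
open Pool.Agent.Lib.Puiseux (rot rot_coeff rot_rot rot_one puiseux)

theorem aeval_smul3 {R : Type*} [CommRing R] [Algebra ℂ R] {P : MvPolynomial (Fin 3) ℂ} {n : ℕ}
    (hP : P.IsHomogeneous n) (c : R) (v : Fin 3 → R) :
    MvPolynomial.aeval (fun i => c * v i) P = c ^ n * MvPolynomial.aeval v P := by
  rw [MvPolynomial.aeval_def, MvPolynomial.aeval_def, MvPolynomial.eval₂_eq',
    MvPolynomial.eval₂_eq', Finset.mul_sum]
  refine Finset.sum_congr rfl fun d hd => ?_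
  have h1 : ∑ i, d i = n := by
    rw [Fin.sum_univ_three]
    exact Irr.sum_exp hP hd
  simp only [mul_pow, Finset.prod_mul_distrib]
  rw [Finset.prod_pow_eq_pow_sum, h1]
  ring

theorem eval_P1_map (P : MvPolynomial (Fin 3) ℂ) (z t : Lau) :
    ((Core.P1 P).map (Polynomial.aeval z : ℂ[X] →ₐ[ℂ] Lau).toRingHom).eval t =
      MvPolynomial.aeval ![z, t, 1] P := by
  have h : ((Polynomial.eval₂RingHom (Polynomial.aeval z : ℂ[X] →ₐ[ℂ] Lau).toRingHom t).comp
      ((MvPolynomial.aeval ![Polynomial.C Polynomial.X, Polynomial.X, 1] :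
        MvPolynomial (Fin 3) ℂ →ₐ[ℂ] ℂ[X][X]) : MvPolynomial (Fin 3) ℂ →+* ℂ[X][X])) =
      ((MvPolynomial.aeval ![z, t, 1] : MvPolynomial (Fin 3) ℂ →ₐ[ℂ] Lau) :
        MvPolynomial (Fin 3) ℂ →+* Lau) := by
    apply MvPolynomial.ringHom_ext
    · intro a
      simp [Polynomial.algebraMap_apply]
    · intro i
      fin_cases i <;> simp
  rw [Polynomial.eval_map]
  exact DFunLike.congr_fun h P

theorem hasPS_eval3 (P : MvPolynomial (Fin 3) ℂ) {g : ℂ → ℂ} {G : PowerSeries ℂ}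
    (hg : HasPS g G) : HasPS (fun v => MvPolynomial.eval ![1, g v, v] P)
      (MvPolynomial.aeval ![1, G, PowerSeries.X] P) := by
  induction P using MvPolynomial.induction_on with
  | C a => simpa using HasPS.polynomial (Polynomial.C a)
  | add p q hp hq => simpa using hp.add hq
  | mul_X p i hp =>
    simp only [map_mul, MvPolynomial.eval_X, MvPolynomial.aeval_X]
    refine hp.mul ?_
    fin_cases i
    · exact HasPS.one
    · exact hg
    · simpa using HasPS.polynomial Polynomial.X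

theorem inf_root {P : MvPolynomial (Fin 3) ℂ} {n : ℕ} (hP : P.IsHomogeneous n) {g : ℂ → ℂ}
    {G : PowerSeries ℂ} (hg : HasPS g G)
    (h0 : ∀ᶠ v in 𝓝 (0:ℂ), MvPolynomial.eval ![1, g v, v] P = 0) :
    ((Core.P1 P).map (Polynomial.aeval zinf : ℂ[X] →ₐ[ℂ] Lau).toRingHom).eval
      (zinf * HahnSeries.ofPowerSeries ℤ ℂ G) = 0 := by
  have h1 : MvPolynomial.aeval ![1, G, PowerSeries.X] P = 0 := by
    have h2 := (hasPS_eval3 P hg).congr h0
    refine h2.unique ?_
    simpa using HasPS.polynomial 0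
  have h2 : MvPolynomial.aeval ![1, HahnSeries.ofPowerSeries ℤ ℂ G,
      HahnSeries.ofPowerSeries ℤ ℂ PowerSeries.X] P = 0 := by
    have h3 : ((HahnSeries.ofPowerSeries ℤ ℂ).comp
        ((MvPolynomial.aeval ![1, G, PowerSeries.X] : MvPolynomial (Fin 3) ℂ →ₐ[ℂ] PowerSeries ℂ) :
          MvPolynomial (Fin 3) ℂ →+* PowerSeries ℂ)) =
        ((MvPolynomial.aeval ![1, HahnSeries.ofPowerSeries ℤ ℂ G,
          HahnSeries.ofPowerSeries ℤ ℂ PowerSeries.X] : MvPolynomial (Fin 3) ℂ →ₐ[ℂ] Lau) :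
          MvPolynomial (Fin 3) ℂ →+* Lau) := by
      apply MvPolynomial.ringHom_ext
      · intro a
        simp only [RingHom.comp_apply, RingHom.coe_coe, MvPolynomial.aeval_C]
        rw [Pool.Agent.LAT.RH.algebraMap_Lau]
        rw [← HahnSeries.ofPowerSeries_C]
        rfl
      · intro i
        fin_cases i <;> simp
    have h4 := DFunLike.congr_fun h3 P
    rw [RingHom.comp_apply] at h4
    rw [RingHom.coe_coe, RingHom.coe_coe] at h4
    rw [← h4, h1, map_zero]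
  rw [eval_P1_map]
  have h5 : (![zinf, zinf * HahnSeries.ofPowerSeries ℤ ℂ G, 1] : Fin 3 → Lau) =
      fun i => zinf * (![1, HahnSeries.ofPowerSeries ℤ ℂ G,
        HahnSeries.ofPowerSeries ℤ ℂ PowerSeries.X] : Fin 3 → Lau) i := by
    funext i
    fin_cases i
    · simp
    · simp
    · have := Pool.Agent.LAT.RH.zinf_pow_single 1
      rw [pow_one] at this
      simp [HahnSeries.ofPowerSeries_X]
      exact this.symm
  rw [h5, aeval_smul3 hP, h2, mul_zero]

theorem exists_inf {P : MvPolynomial (Fin 3) ℂ} {n : ℕ} (h : Chart P n) (hn : 1 ≤ n) :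
    ∃ p : Pt (Core.P1 P), p.z = zinf := by
  obtain ⟨hirr, hdeg, -⟩ := chart_P1 h hn
  obtain ⟨N, δ, K, H, hN, hδ, hd, hw⟩ := Pool.Agent.MP_ae5b4e_an_ALG.cover_inf hirr
  set Y : Fin (Core.P1 P).natDegree → ℂ → ℂ := fun i w => H i w / w ^ K with hY
  have hev : ∀ᶠ w in 𝓝[≠] (0:ℂ), w ≠ 0 ∧ ‖w‖ < δ := by
    filter_upwards [nhdsWithin_le_nhds (ball_mem_nhds (0:ℂ) hδ), self_mem_nhdsWithin] with w h1 h2
    exact ⟨h2, by simpa using h1⟩
  have hmer : ∀ i, MeromorphicAt (Y i) 0 := by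
    intro i
    have h1 : AnalyticAt ℂ (H i) 0 := (hd i).analyticAt (ball_mem_nhds _ hδ)
    have h2 : AnalyticAt ℂ (fun w : ℂ => w ^ K) 0 := by fun_prop
    exact h1.meromorphicAt.div h2.meromorphicAt
  have hroot : ∀ i, ∀ᶠ w in 𝓝[≠] (0:ℂ), MvPolynomial.eval ![(w ^ N)⁻¹, Y i w, 1] P = 0 := by
    intro i
    filter_upwards [hev] with w h1
    have h2 := (hw w h1.1 h1.2).2.1 i
    rwa [Core.evalEval_P1] at h2
  have hg := fun i => inf_analytic h hn hN (hmer i) (hroot i)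
  choose g hga hgY hg0 using hg
  have hG := fun i => HasPS.exists_of_analyticAt (hga i)
  choose G hG using hG
  have hinj : Function.Injective G := by
    intro i j hij
    have h1 : ∀ᶠ v in 𝓝 (0:ℂ), g i v = g j v := by
      have h2 := hG i
      have h3 := hG j
      rw [← hij] at h3
      unfold HasPS at h2 h3
      filter_upwards [h2, h3] with v h4 h5
      exact h4.unique h5
    have h2 : ∀ᶠ w in 𝓝[≠] (0:ℂ), g i (w ^ N) = g j (w ^ N) := by
      have h3 : Tendsto (fun w : ℂ => w ^ N) (𝓝[≠] 0) (𝓝 0) := by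
        have h1 : Continuous (fun w : ℂ => w ^ N) := by fun_prop
        have h2 := (h1.tendsto 0).mono_left (nhdsWithin_le_nhds (s := {0}ᶜ))
        rwa [zero_pow hN.ne'] at h2
      exact h3.eventually h1
    obtain ⟨w, h3, h4, h5, h6⟩ := (h2.and ((hgY i).and ((hgY j).and hev))).exists
    have h7 := hw w h6.1 h6.2
    have h8 := Cover2.inj_of_roots h7.1 h7.2.1 h7.2.2
    apply h8
    change Y i w = Y j w
    rw [h4, h5, h3]
  refine ⟨⟨zinf, inj_zinf, fun i => zinf * HahnSeries.ofPowerSeries ℤ ℂ (G i), ?_, ?_⟩, rfl⟩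
  · intro i j hij
    have h1 : (zinf : Lau) ≠ 0 := by
      intro h0
      have := Pool.Agent.LAT.RH.zinf_pow_single 1
      rw [pow_one, h0, zero_mul] at this
      exact zero_ne_one this
    exact hinj (HahnSeries.ofPowerSeries_injective (mul_left_cancel₀ h1 hij))
  · intro i
    exact inf_root h.hom (hG i) (hg0 i)

/-- the rotation of a Laurent series -/
theorem rot_iff {r : Lau} {K : ℕ} {H : ℂ → ℂ}
    (hH : HasPS H (PowerSeries.mk fun n => r.coeff ((n : ℤ) - K)))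
    (h0 : ∀ j < -(K : ℤ), r.coeff j = 0) (ζ : ℂˣ) :
    (∀ᶠ w in 𝓝[≠] (0:ℂ), H (ζ * w) / (ζ * w) ^ K = H w / w ^ K) ↔ rot ζ r = r := by
  have hζ : (ζ : ℂ) ≠ 0 := ζ.ne_zero
  have hH' : HasPS (fun w => ((ζ : ℂ) ^ K)⁻¹ * H (ζ * w))
      (PowerSeries.mk fun n => (rot ζ r).coeff ((n : ℤ) - K)) := by
    unfold HasPS at hH ⊢
    have h1 : Tendsto (fun w : ℂ => (ζ : ℂ) * w) (𝓝 0) (𝓝 0) := by
      have : Tendsto (fun w : ℂ => (ζ : ℂ) * w) (𝓝 0) (𝓝 (ζ * 0)) :=
        (continuous_const_mul (ζ : ℂ)).tendsto 0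
      rwa [mul_zero] at this
    filter_upwards [h1.eventually hH] with w hw
    have h2 := hw.mul_left ((ζ : ℂ) ^ K)⁻¹
    refine h2.congr_fun ?_
    intro n
    simp only [PowerSeries.coeff_mk]
    rw [rot_coeff]
    have h3 : ((ζ ^ ((n : ℤ) - K) : ℂˣ) : ℂ) = ((ζ : ℂ) ^ K)⁻¹ * (ζ : ℂ) ^ n := by
      rw [zpow_sub, zpow_natCast, zpow_natCast]
      push_cast
      ring
    rw [h3, mul_pow]
    ring
  constructor
  · intro h
    by_contra hne
    have h0' : ∀ j < -(K : ℤ), (rot ζ r).coeff j = 0 := by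
      intro j hj
      rw [rot_coeff, h0 j hj, mul_zero]
    have h1 := Pool.Agent.MP_ae5b4e_an_ALG.Cover.ne_of_ne hH' hH h0' h0 hne
    obtain ⟨w, h2, h3, h4⟩ := (h.and (h1.and self_mem_nhdsWithin)).exists
    apply h3
    have h5 : w ^ K ≠ 0 := pow_ne_zero _ h4
    have h6 : (ζ : ℂ) ^ K ≠ 0 := pow_ne_zero _ hζ
    rw [mul_pow] at h2
    field_simp at h2 ⊢
    linear_combination h2
  · intro h
    rw [h] at hH'
    unfold HasPS at hH hH'
    have h1 : ∀ᶠ w in 𝓝 (0:ℂ), ((ζ : ℂ) ^ K)⁻¹ * H (ζ * w) = H w := by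
      filter_upwards [hH, hH'] with w h1 h2
      exact h2.unique h1
    filter_upwards [nhdsWithin_le_nhds h1, self_mem_nhdsWithin] with w h2 h3
    rw [← h2, mul_pow]
    have h5 : w ^ K ≠ 0 := pow_ne_zero _ h3
    have h6 : (ζ : ℂ) ^ K ≠ 0 := pow_ne_zero _ hζ
    field_simp

variable {m : ℂ[X][X]} [hirr : Fact (Irreducible (pF m))]

/-- the covering given by the expansions -/
theorem cov_of_pt {e : ℂ} {N : ℕ} (hN : 0 < N) (p : Pt m) (hp : p.z = zfin e N)
    {π : Equiv.Perm (Fin m.natDegree)} (hπ : ∀ i x, rot (zu N) (p.hom i x) = p.hom (π i) x) :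
    ∃ Y : Fin m.natDegree → ℂ → ℂ, Cov1 m (fun w => e + w ^ N) Y ∧
      ∀ i, fr N (Y i) = frac N π i i := by
  classical
  have hr : ∀ i, (m.map ((Polynomial.aeval (HahnSeries.C e + HahnSeries.single (N : ℤ) (1:ℂ)) :
        ℂ[X] →ₐ[ℂ] LaurentSeries ℂ) : ℂ[X] →+* LaurentSeries ℂ)).eval (p.r i) = 0 := by
    intro i
    have h := p.root i
    rw [hp] at h
    exact h
  have hpl := fun i => Pool.Agent.MP_ae5b4e_an_ND.exists_place' hirr.out e hN (hr i)
  choose δ hδ K H hd hs h0 hw using hpl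
  have hPS : ∀ i, HasPS (H i) (PowerSeries.mk fun n => (p.r i).coeff ((n : ℤ) - K i)) := by
    intro i
    unfold HasPS
    filter_upwards [ball_mem_nhds (0:ℂ) (hδ i)] with w hw
    simp only [PowerSeries.coeff_mk]
    exact hs i w (by simpa using hw)
  have hev : ∀ i, ∀ᶠ w in 𝓝[≠] (0:ℂ), w ≠ 0 ∧ ‖w‖ < δ i := by
    intro i
    filter_upwards [nhdsWithin_le_nhds (ball_mem_nhds (0:ℂ) (hδ i)), self_mem_nhdsWithin]
      with w h1 h2
    exact ⟨h2, by simpa using h1⟩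
  have hmer : ∀ i, MeromorphicAt (fun w => H i w / w ^ K i) 0 := by
    intro i
    have h1 : AnalyticAt ℂ (H i) 0 := (hd i).analyticAt (ball_mem_nhds _ (hδ i))
    have h2 : AnalyticAt ℂ (fun w : ℂ => w ^ K i) 0 := by fun_prop
    exact h1.meromorphicAt.div h2.meromorphicAt
  have hne : ∀ᶠ w in 𝓝[≠] (0:ℂ), ∀ i j, i ≠ j → H i w / w ^ K i ≠ H j w / w ^ K j := by
    refine eventually_all.2 fun i => eventually_all.2 fun j => ?_
    by_cases hij : i = j
    · exact Eventually.of_forall fun w h => absurd hij h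
    · have h1 := Pool.Agent.MP_ae5b4e_an_ALG.Cover.hasPS_shift
        (le_max_left (K i) (K j)) (hδ i) (hs i) (h0 i)
      have h2 := Pool.Agent.MP_ae5b4e_an_ALG.Cover.hasPS_shift
        (le_max_right (K i) (K j)) (hδ j) (hs j) (h0 j)
      have h3 := Pool.Agent.MP_ae5b4e_an_ALG.Cover.ne_of_ne h1 h2
        (fun t ht => h0 i t (by have := le_max_left (K i) (K j); omega))
        (fun t ht => h0 j t (by have := le_max_right (K i) (K j); omega))
        (fun h => hij (p.rinj h))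
      filter_upwards [h3, self_mem_nhdsWithin] with w h4 h5 _ h6
      apply h4
      have h5' : w ≠ 0 := h5
      have e1 : w ^ (max (K i) (K j)) = w ^ (max (K i) (K j) - K i) * w ^ K i := by
        rw [← pow_add, Nat.sub_add_cancel (le_max_left _ _)]
      have e2 : w ^ (max (K i) (K j)) = w ^ (max (K i) (K j) - K j) * w ^ K j := by
        rw [← pow_add, Nat.sub_add_cancel (le_max_right _ _)]
      have h7 : H i w = H i w / w ^ K i * w ^ K i := by
        rw [div_mul_cancel₀ _ (pow_ne_zero _ h5')]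
      have h8 : H j w = H j w / w ^ K j * w ^ K j := by
        rw [div_mul_cancel₀ _ (pow_ne_zero _ h5')]
      rw [h7, h8, h6]
      calc w ^ (max (K i) (K j) - K i) * (H j w / w ^ K j * w ^ K i)
          = H j w / w ^ K j * (w ^ (max (K i) (K j) - K i) * w ^ K i) := by ring
        _ = H j w / w ^ K j * (w ^ (max (K i) (K j) - K j) * w ^ K j) := by rw [← e1, ← e2]
        _ = _ := by ring
  refine ⟨fun i w => H i w / w ^ K i, ⟨hmer, ?_⟩, ?_⟩
  · have hnpos : 0 < m.natDegree := Pool.Agent.LAT.RH.natDegree_pos (m := m)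
    filter_upwards [hne, eventually_all.2 hev] with w h1 h2
    have hinj : Function.Injective fun i => H i w / w ^ K i := by
      intro i j hij
      by_contra hcon
      exact h1 i j hcon hij
    refine ⟨hinj, ?_⟩
    have hReg : Reg m (e + w ^ N) := (hw ⟨0, hnpos⟩ w (h2 ⟨0, hnpos⟩).1 (h2 ⟨0, hnpos⟩).2).1
    have heq : ∀ i, evalEval (e + w ^ N) (H i w / w ^ K i) m = 0 := fun i =>
      (hw i w (h2 i).1 (h2 i).2).2
    have hsub : (Finset.univ.image fun i => H i w / w ^ K i) ⊆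
        Pool.Agent.MP_ae5b4e_an_ND.rts m (e + w ^ N) := by
      intro s hs'
      obtain ⟨i, _, rfl⟩ := Finset.mem_image.1 hs'
      exact (Pool.Agent.MP_ae5b4e_an_ND.mem_rts hReg.1).2 (heq i)
    have hcard : (Pool.Agent.MP_ae5b4e_an_ND.rts m (e + w ^ N)).card ≤
        (Finset.univ.image fun i => H i w / w ^ K i).card := by
      rw [Finset.card_image_of_injective _ hinj, Finset.card_univ, Fintype.card_fin]
      exact Pool.Agent.MP_ae5b4e_an_ND.card_rts_le
    have hall := Finset.eq_of_subset_of_card_le hsub hcard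
    intro t
    constructor
    · intro ht
      have h3 : t ∈ Pool.Agent.MP_ae5b4e_an_ND.rts m (e + w ^ N) :=
        (Pool.Agent.MP_ae5b4e_an_ND.mem_rts hReg.1).2 ht
      rw [← hall] at h3
      obtain ⟨i, _, hi⟩ := Finset.mem_image.1 h3
      exact ⟨i, hi.symm⟩
    · rintro ⟨i, rfl⟩
      exact heq i
  · intro i
    have hpow : ∀ (s : ℕ) i, rot (zu N ^ s) (p.r i) = p.r ((π ^ s) i) := by
      intro s
      induction s with
      | zero => intro i; rw [pow_zero, rot_one, pow_zero]; rfl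
      | succ s ih =>
        intro i
        have h1 := hπ ((π ^ s) i) (AdjoinRoot.root (pF m))
        rw [Pt.hom_root, Pt.hom_root] at h1
        rw [pow_succ', ← rot_rot, ih, h1, pow_succ', Equiv.Perm.mul_apply]
    have hiff : ∀ s : ℕ, (∀ᶠ w in 𝓝[≠] (0:ℂ), H i (ze N ^ s * w) / (ze N ^ s * w) ^ K i =
        H i w / w ^ K i) ↔ (π ^ s) i = i := by
      intro s
      have h1 := rot_iff (hPS i) (h0 i) (zu N ^ s)
      have h2 : ((zu N ^ s : ℂˣ) : ℂ) = ze N ^ s := by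
        rw [Units.val_pow_eq_pow_val]
        rfl
      rw [h2, hpow] at h1
      rw [h1]
      exact ⟨fun h => p.rinj h, fun h => by rw [h]⟩
    unfold fr frac
    simp only [hiff]

end Rh

open Rh in
/-- the Riemann-Hurwitz inequality for the projection of the curve -/
theorem rh_chart {P : MvPolynomial (Fin 3) ℂ} {n : ℕ} (h : Chart P n) (hn : 1 ≤ n) :
    ∃ S₀ : Finset ℂ, ∀ S : Finset ℂ, S₀ ⊆ S → ∀ (N : ℂ → ℕ)
      (Y : ℂ → Fin (Core.P1 P).natDegree → ℂ → ℂ),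
      (∀ e ∈ S, 0 < N e ∧ Cov1 (Core.P1 P) (fun w => e + w ^ N e) (Y e)) →
      2 * ((n:ℝ) - 1) ≤ ∑ e ∈ S, ∑ i, (1 - fr (N e) (Y e i)) := by
  classical
  obtain ⟨hirr, hdeg, -⟩ := chart_P1 h hn
  have hfact : Fact (Irreducible (Pool.Agent.LAT.RH.pF (Core.P1 P))) := ⟨hirr⟩
  have hdata : ∀ e : ℂ, ∃ N : ℕ, 0 < N ∧ ∃ p : Pool.Agent.LAT.RH.Pt (Core.P1 P),
      p.z = Pool.Agent.LAT.RH.zfin e N := by
    intro e
    obtain ⟨N, hN⟩ := Pool.Agent.Lib.Puiseux.puiseux
      ((Core.P1 P).map (Polynomial.aeval (Pool.Agent.LAT.RH.zfin e 1) :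
        ℂ[X] →ₐ[ℂ] Pool.Agent.LAT.RH.Lau).toRingHom)
    rw [Polynomial.map_map, Pool.Agent.LAT.RH.aeval_subst] at hN
    obtain ⟨p, hp, _⟩ := Pool.Agent.LAT.RH.exists_pt (Pool.Agent.LAT.RH.inj_zfin N.pos) hN
    exact ⟨N, N.pos, p, hp⟩
  choose N hN p hp using hdata
  obtain ⟨p', hp'⟩ := exists_inf h hn
  set D : Pool.Agent.LAT.RH.Data (Core.P1 P) := ⟨N, hN, p, hp, p', hp'⟩ with hD
  have hperm := fun e => Pool.Agent.LAT.RH.exists_perm (p e) (hN e) (hp e)
  choose π hπN hπ using hperm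
  obtain ⟨S₀, hS₀⟩ := Pool.Agent.LAT.RH.rh_ineq D hπN hπ
  refine ⟨S₀, fun S hS N' Y hY => ?_⟩
  have h1 := hS₀ S hS
  have h2 : 2 * ((n:ℝ) - 1) = 2 * (((Core.P1 P).natDegree : ℝ) - 1) := by rw [hdeg]
  rw [h2]
  refine h1.trans (le_of_eq ?_)
  refine Finset.sum_congr rfl fun e he => ?_
  obtain ⟨hN', hc'⟩ := hY e he
  obtain ⟨Y₀, hc, hfr⟩ := cov_of_pt (hN e) (p e) (hp e) (hπ e)
  rw [Finset.sum_sub_distrib, Finset.sum_sub_distrib, ← fr_sum_eq (hN e) hN' hc hc']
  congr 1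
  exact Finset.sum_congr rfl fun i _ => (hfr i).symm

end Pool.Agent.MP_ae5b4e_an_GENC
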