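import Mathlib
import Pool.Agent.Lib.MP_ae5b4e_an_GENC.Defs

/-!
# MP_ae5b4e_an, project GENC, module A10: algebraic germs
-/

set_option autoImplicit false

set_option linter.style.haveILetI false

noncomputable section

namespace Pool.Agent.MP_ae5b4e_an_GENC

open Filter Topology Set Metric
open scoped Polynomial
open Polynomial (evalEval)
open Pool.Agent.MP_ae5b4e_an_ND (Reg)
open Pool.Agent.MP_ae5b4e_an_FLEX
open Pool.Agent.MP_ae5b4e_an_GEN

namespace AlgGerm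

/-- evaluation of polynomials at the germ of a function -/
def ev (t : ℂ) (f : ℂ → ℂ) : ℂ[X] →+* (𝓝 t).Germ ℂ :=
  (Germ.coeRingHom (𝓝 t)).comp (RingHom.pi fun s => Polynomial.evalRingHom (f s))

theorem ev_apply (t : ℂ) (f : ℂ → ℂ) (p : ℂ[X]) :
    ev t f p = ((fun s => p.eval (f s) : ℂ → ℂ) : (𝓝 t).Germ ℂ) := rfl

theorem eval₂_ev (t : ℂ) (f g : ℂ → ℂ) (F : ℂ[X][X]) :
    Polynomial.eval₂ (ev t f) ((g : ℂ → ℂ) : (𝓝 t).Germ ℂ) F =
      ((fun s => evalEval (f s) (g s) F : ℂ → ℂ) : (𝓝 t).Germ ℂ) := by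
  have h : Polynomial.eval₂RingHom (ev t f) ((g : ℂ → ℂ) : (𝓝 t).Germ ℂ) =
      (Germ.coeRingHom (𝓝 t)).comp (RingHom.pi fun s =>
        Polynomial.eval₂RingHom (Polynomial.evalRingHom (f s)) (g s)) := by
    apply Polynomial.ringHom_ext
    · intro p
      rw [Polynomial.coe_eval₂RingHom, Polynomial.eval₂_C, ev_apply]
      change _ = ((fun s => Polynomial.eval₂ (Polynomial.evalRingHom (f s)) (g s)
        (Polynomial.C p) : ℂ → ℂ) : (𝓝 t).Germ ℂ)
      simp only [Polynomial.eval₂_C, Polynomial.coe_evalRingHom]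
    · rw [Polynomial.coe_eval₂RingHom, Polynomial.eval₂_X]
      change _ = ((fun s => Polynomial.eval₂ (Polynomial.evalRingHom (f s)) (g s)
        Polynomial.X : ℂ → ℂ) : (𝓝 t).Germ ℂ)
      simp only [Polynomial.eval₂_X]
  have h2 := RingHom.congr_fun h F
  rw [Polynomial.coe_eval₂RingHom] at h2
  rw [h2]
  change ((fun s => Polynomial.eval₂ (Polynomial.evalRingHom (f s)) (g s) F : ℂ → ℂ) :
    (𝓝 t).Germ ℂ) = _
  have h3 : (fun s => Polynomial.eval₂ (Polynomial.evalRingHom (f s)) (g s) F : ℂ → ℂ) =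
      fun s => evalEval (f s) (g s) F := by
    funext s
    rw [Polynomial.eval₂_evalRingHom]
  rw [h3]

/-- algebraicity of `g` over the polynomials in `f` -/
theorem isAlg_iff (t : ℂ) (f g : ℂ → ℂ) :
    (letI := (ev t f).toAlgebra
     IsAlgebraic ℂ[X] ((g : ℂ → ℂ) : (𝓝 t).Germ ℂ)) ↔
      ∃ F : ℂ[X][X], F ≠ 0 ∧ ∀ᶠ s in 𝓝 t, evalEval (f s) (g s) F = 0 := by
  letI := (ev t f).toAlgebra
  have h : ∀ F : ℂ[X][X], Polynomial.aeval ((g : ℂ → ℂ) : (𝓝 t).Germ ℂ) F = 0 ↔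
      ∀ᶠ s in 𝓝 t, evalEval (f s) (g s) F = 0 := by
    intro F
    have h1 : Polynomial.aeval ((g : ℂ → ℂ) : (𝓝 t).Germ ℂ) F =
        ((fun s => evalEval (f s) (g s) F : ℂ → ℂ) : (𝓝 t).Germ ℂ) := by
      rw [Polynomial.aeval_def]
      exact eval₂_ev t f g F
    rw [h1]
    exact Germ.coe_eq
  constructor
  · rintro ⟨F, hF, h0⟩
    exact ⟨F, hF, (h F).mp h0⟩
  · rintro ⟨F, hF, h0⟩
    exact ⟨F, hF, (h F).mpr h0⟩

theorem algAt_iff (t : ℂ) (g : ℂ → ℂ) :
    (letI := (ev t (fun s => s)).toAlgebra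
     IsAlgebraic ℂ[X] ((g : ℂ → ℂ) : (𝓝 t).Germ ℂ)) ↔ AlgAt t g :=
  isAlg_iff t (fun s => s) g

/-- the ring of germs of analytic functions -/
def anSub (t : ℂ) : Subring ((𝓝 t).Germ ℂ) where
  carrier := {x | ∃ f : ℂ → ℂ, AnalyticAt ℂ f t ∧ x = ((f : ℂ → ℂ) : (𝓝 t).Germ ℂ)}
  mul_mem' := by
    rintro _ _ ⟨f, hf, rfl⟩ ⟨g, hg, rfl⟩
    exact ⟨f * g, hf.mul hg, rfl⟩
  one_mem' := ⟨fun _ => 1, analyticAt_const, rfl⟩
  add_mem' := by
    rintro _ _ ⟨f, hf, rfl⟩ ⟨g, hg, rfl⟩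
    exact ⟨f + g, hf.add hg, rfl⟩
  zero_mem' := ⟨fun _ => 0, analyticAt_const, rfl⟩
  neg_mem' := by
    rintro _ ⟨f, hf, rfl⟩
    exact ⟨-f, hf.neg, rfl⟩

theorem mul_eq_zero_germ {t : ℂ} {f g : ℂ → ℂ} (hf : AnalyticAt ℂ f t) (hg : AnalyticAt ℂ g t)
    (h : ∀ᶠ s in 𝓝 t, f s * g s = 0) : (∀ᶠ s in 𝓝 t, f s = 0) ∨ ∀ᶠ s in 𝓝 t, g s = 0 := by
  rcases hf.eventually_eq_zero_or_eventually_ne_zero with h1 | h1
  · exact Or.inl h1
  · rcases hg.eventually_eq_zero_or_eventually_ne_zero with h2 | h2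
    · exact Or.inr h2
    · exfalso
      have h3 : ∀ᶠ s in 𝓝[≠] t, f s * g s = 0 := h.filter_mono nhdsWithin_le_nhds
      have h4 : ∀ᶠ s in 𝓝[≠] t, False := by
        filter_upwards [h1, h2, h3] with s a1 a2 a3
        rcases mul_eq_zero.mp a3 with a | a
        · exact a1 a
        · exact a2 a
      rw [eventually_false_iff_eq_bot] at h4
      exact (NeBot.ne inferInstance) h4

instance noZeroDiv (t : ℂ) : NoZeroDivisors (anSub t) := by
  constructor
  rintro ⟨_, f, hf, rfl⟩ ⟨_, g, hg, rfl⟩ h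
  have h1 : (((fun s => f s * g s : ℂ → ℂ)) : (𝓝 t).Germ ℂ) = ((0 : ℂ → ℂ) : (𝓝 t).Germ ℂ) :=
    congrArg Subtype.val h
  have h2 : ∀ᶠ s in 𝓝 t, f s * g s = 0 := Germ.coe_eq.mp h1
  rcases mul_eq_zero_germ hf hg h2 with h3 | h3
  · left
    apply Subtype.ext
    exact Germ.coe_eq.mpr h3
  · right
    apply Subtype.ext
    exact Germ.coe_eq.mpr h3

theorem ev_mem {t : ℂ} {f : ℂ → ℂ} (hf : AnalyticAt ℂ f t) (p : ℂ[X]) : ev t f p ∈ anSub t := by
  refine ⟨fun s => p.eval (f s), ?_, ev_apply t f p⟩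
  exact (AnalyticOnNhd.eval_polynomial p (f t) (mem_univ _)).comp hf

/-- evaluation of polynomials at the germ of an analytic function -/
def evA {t : ℂ} {f : ℂ → ℂ} (hf : AnalyticAt ℂ f t) : ℂ[X] →+* anSub t :=
  (ev t f).codRestrict (anSub t) (ev_mem hf)

/-- the germ of an analytic function -/
def gA {t : ℂ} {f : ℂ → ℂ} (hf : AnalyticAt ℂ f t) : anSub t := ⟨((f : ℂ → ℂ) : _), f, hf, rfl⟩

theorem eval₂_evA {t : ℂ} {f g : ℂ → ℂ} (hf : AnalyticAt ℂ f t) (hg : AnalyticAt ℂ g t)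
    (F : ℂ[X][X]) : Polynomial.eval₂ (evA hf) (gA hg) F = 0 ↔
      ∀ᶠ s in 𝓝 t, evalEval (f s) (g s) F = 0 := by
  have h1 : (anSub t).subtype (Polynomial.eval₂ (evA hf) (gA hg) F) =
      ((fun s => evalEval (f s) (g s) F : ℂ → ℂ) : (𝓝 t).Germ ℂ) := by
    rw [Polynomial.hom_eval₂]
    exact eval₂_ev t f g F
  constructor
  · intro h
    rw [h, map_zero] at h1
    exact Germ.coe_eq.mp h1.symm
  · intro h
    apply Subtype.ext
    change (anSub t).subtype (Polynomial.eval₂ (evA hf) (gA hg) F) = _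
    rw [h1]
    exact Germ.coe_eq.mpr h

theorem ev_id_inj {t : ℂ} {p : ℂ[X]} (h : ∀ᶠ s in 𝓝 t, p.eval s = 0) : p = 0 := by
  apply Polynomial.eq_zero_of_infinite_isRoot
  have h1 : {s | p.eval s = 0} ∈ 𝓝 t := h
  exact infinite_of_mem_nhds t h1

theorem evalEval_swap (x y : ℂ) (F : ℂ[X][X]) :
    evalEval x y (Polynomial.Bivariate.swap F) = evalEval y x F := by
  have h := Polynomial.Bivariate.aevalAeval_swap x y F
  rw [Polynomial.coe_aevalAeval_eq_evalEval, Polynomial.coe_aevalAeval_eq_evalEval] at h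
  exact h

end AlgGerm

open AlgGerm

variable {t : ℂ} {f g : ℂ → ℂ}

theorem algAt_const (c : ℂ) : AlgAt t (fun _ => c) := by
  refine ⟨Polynomial.X - Polynomial.C (Polynomial.C c), Polynomial.X_sub_C_ne_zero _, ?_⟩
  filter_upwards with s
  simp [evalEval]

theorem algAt_id : AlgAt t (fun s => s) := by
  refine ⟨Polynomial.X - Polynomial.C Polynomial.X, Polynomial.X_sub_C_ne_zero _, ?_⟩
  filter_upwards with s
  simp [evalEval]

theorem AlgAt.add (hf : AlgAt t f) (hg : AlgAt t g) : AlgAt t (fun s => f s + g s) := by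
  letI := (ev t (fun s => s)).toAlgebra
  have h1 := (algAt_iff t f).mpr hf
  have h2 := (algAt_iff t g).mpr hg
  exact (algAt_iff t (fun s => f s + g s)).mp (IsAlgebraic.add h1 h2)

theorem AlgAt.mul (hf : AlgAt t f) (hg : AlgAt t g) : AlgAt t (fun s => f s * g s) := by
  letI := (ev t (fun s => s)).toAlgebra
  have h1 := (algAt_iff t f).mpr hf
  have h2 := (algAt_iff t g).mpr hg
  exact (algAt_iff t (fun s => f s * g s)).mp (IsAlgebraic.mul h1 h2)

theorem AlgAt.inv (hf : AlgAt t f) (hc : ContinuousAt f t) (h0 : f t ≠ 0) :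
    AlgAt t (fun s => (f s)⁻¹) := by
  letI := (ev t (fun s => s)).toAlgebra
  have h1 := (algAt_iff t f).mpr hf
  have hne : ∀ᶠ s in 𝓝 t, f s ≠ 0 := hc.eventually_ne h0
  letI : Invertible ((f : ℂ → ℂ) : (𝓝 t).Germ ℂ) :=
    { invOf := ((fun s => (f s)⁻¹ : ℂ → ℂ) : (𝓝 t).Germ ℂ)
      invOf_mul_self := by
        apply Germ.coe_eq.mpr
        filter_upwards [hne] with s hs
        exact inv_mul_cancel₀ hs
      mul_invOf_self := by
        apply Germ.coe_eq.mpr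
        filter_upwards [hne] with s hs
        exact mul_inv_cancel₀ hs }
  exact (algAt_iff t (fun s => (f s)⁻¹)).mp (IsAlgebraic.invOf h1)

/-- algebraic functions are algebraically dependent -/
theorem alg_dep (hf : AnalyticAt ℂ f t) (hg : AnalyticAt ℂ g t) (h1 : AlgAt t f) (h2 : AlgAt t g)
    (hnc : ¬ ∀ᶠ s in 𝓝 t, f s = f t) :
    ∃ Q : ℂ[X][X], Q ≠ 0 ∧ ∀ᶠ s in 𝓝 t, evalEval (f s) (g s) Q = 0 := by
  have hid : AnalyticAt ℂ (fun s : ℂ => s) t := analyticAt_id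
  obtain ⟨F1, hF1, hF1'⟩ := h1
  obtain ⟨G1, hG1, hG1'⟩ := h2
  letI : Algebra ℂ[X] (anSub t) := (evA hf).toAlgebra
  -- the variable is algebraic over the polynomials in `f`
  have hs : IsAlgebraic ℂ[X] (gA hid) := by
    refine ⟨Polynomial.Bivariate.swap F1, ?_, ?_⟩
    · intro h
      exact hF1 ((map_eq_zero_iff _ (Polynomial.Bivariate.swap (R := ℂ)).injective).mp h)
    · rw [Polynomial.aeval_def]
      apply (eval₂_evA hf hid _).mpr
      filter_upwards [hF1'] with s hs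
      rw [evalEval_swap]
      exact hs
  let S := Algebra.adjoin ℂ[X] {gA hid}
  have hS : Algebra.IsAlgebraic ℂ[X] S := by
    apply (Subalgebra.isAlgebraic_iff _).mp
    apply Algebra.isAlgebraic_adjoin_iff.mpr
    intro x hx
    rw [mem_singleton_iff.mp hx]
    exact hs
  let ψ : ℂ[X] →+* S := Polynomial.eval₂RingHom ((algebraMap ℂ[X] S).comp Polynomial.C)
    ⟨gA hid, Algebra.subset_adjoin (mem_singleton _)⟩
  have hψ : (algebraMap S (anSub t)).comp ψ = evA hid := by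
    apply Polynomial.ringHom_ext
    · intro c
      rw [RingHom.comp_apply]
      simp only [ψ, Polynomial.coe_eval₂RingHom, Polynomial.eval₂_C, RingHom.comp_apply]
      rw [← IsScalarTower.algebraMap_apply]
      apply Subtype.ext
      change ev t f (Polynomial.C c) = ev t (fun s => s) (Polynomial.C c)
      rw [ev_apply, ev_apply]
      simp
    · rw [RingHom.comp_apply]
      simp only [ψ, Polynomial.coe_eval₂RingHom, Polynomial.eval₂_X]
      apply Subtype.ext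
      change _ = ev t (fun s => s) Polynomial.X
      rw [ev_apply]
      simp only [Polynomial.eval_X]
      rfl
  have hψi : Function.Injective ψ := by
    rw [injective_iff_map_eq_zero]
    intro p hp
    have h3 : evA hid p = 0 := by
      rw [← hψ, RingHom.comp_apply, hp, map_zero]
    have h4 : ev t (fun s => s) p = 0 := congrArg Subtype.val h3
    rw [ev_apply] at h4
    exact ev_id_inj (t := t) (Germ.coe_eq.mp h4)
  have hgS : IsAlgebraic S (gA hg) := by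
    refine ⟨G1.map ψ, ?_, ?_⟩
    · rwa [Ne, Polynomial.map_eq_zero_iff hψi]
    · rw [Polynomial.aeval_def, Polynomial.eval₂_map, hψ]
      exact (eval₂_evA hid hg G1).mpr hG1'
  have hgR : IsAlgebraic ℂ[X] (gA hg) := hgS.restrictScalars ℂ[X]
  obtain ⟨Q, hQ, hQ0⟩ := hgR
  refine ⟨Q, hQ, ?_⟩
  rw [Polynomial.aeval_def] at hQ0
  exact (eval₂_evA hf hg Q).mp hQ0

end Pool.Agent.MP_ae5b4e_an_GENC
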