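import Mathlib
import Pool.Agent.Lib.MP_ae5b4e_an_GENC.Defs
import Pool.Agent.Lib.MP_ae5b4e_an_GENC.AlgGerm
import Pool.Agent.Lib.MP_ae5b4e_an_GENC.Irr
import Pool.Agent.Lib.MP_ae5b4e_an_GEN.Proj
import Pool.Agent.Lib.MP_ae5b4e_an_GEN.Poly3
import Pool.Agent.Lib.MP_ae5b4e_an_ALG.Trans
import Pool.Agent.Lib.MP_ae5b4e_an_FLEX.GeoProp

/-!
# MP_ae5b4e_an, project GENC: the good point in the new coordinates
-/

noncomputable section

namespace Pool.Agent.MP_ae5b4e_an_GENC

open Filter Topology Set Metric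
open scoped Polynomial
open Polynomial (evalEval)
open Pool.Agent.MP_ae5b4e_an_ND (Reg)
open Pool.Agent.MP_ae5b4e_an_FLEX
open Pool.Agent.MP_ae5b4e_an_GEN

namespace Transfer

/-! ### algebraic germs -/

section Alg
variable {t e : ℂ} {f g y : ℂ → ℂ}

theorem algAt_congr (hf : AlgAt t f) (h : f =ᶠ[𝓝 t] g) : AlgAt t g := by
  obtain ⟨F, hF, h1⟩ := hf
  refine ⟨F, hF, ?_⟩
  filter_upwards [h1, h] with s h2 h3
  rw [← h3]
  exact h2

theorem algAt_pow (hf : AlgAt t f) (n : ℕ) : AlgAt t (fun s => f s ^ n) := by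
  induction n with
  | zero =>
    simp only [pow_zero]
    exact algAt_const 1
  | succ n ih =>
    simp only [pow_succ]
    exact ih.mul hf

theorem algAt_poly (a : ℂ[X]) : AlgAt t (fun s => a.eval s) := by
  induction a using Polynomial.induction_on' with
  | add p q hp hq =>
    simp only [Polynomial.eval_add]
    exact hp.add hq
  | monomial n c =>
    simp only [Polynomial.eval_monomial]
    exact (algAt_const c).mul (algAt_pow algAt_id n)

theorem evalEval_mono (z η : ℂ) (n : ℕ) (a : ℂ[X]) :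
    evalEval z η (Polynomial.monomial n a) = a.eval z * η ^ n := by
  simp [Polynomial.evalEval]

theorem algAt_evalEval (hf : AlgAt t f) (G : ℂ[X][X]) :
    AlgAt t (fun s => evalEval s (f s) G) := by
  induction G using Polynomial.induction_on' with
  | add p q hp hq =>
    simp only [Polynomial.evalEval_add]
    exact hp.add hq
  | monomial n a =>
    simp only [evalEval_mono]
    exact (algAt_poly a).mul (algAt_pow hf n)

theorem hasDerivAt_curve (G : ℂ[X][X]) : ∃ G₁ : ℂ[X][X], ∀ (y : ℂ → ℂ) (y' s : ℂ),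
    HasDerivAt y y' s → HasDerivAt (fun s => evalEval s (y s) G)
      (evalEval s (y s) G₁ + y' * evalEval s (y s) (Polynomial.derivative G)) s := by
  induction G using Polynomial.induction_on' with
  | add p q hp hq =>
    obtain ⟨p₁, hp⟩ := hp
    obtain ⟨q₁, hq⟩ := hq
    refine ⟨p₁ + q₁, fun y y' s hy => ?_⟩
    have h := (hp y y' s hy).add (hq y y' s hy)
    simp only [Polynomial.derivative_add, Polynomial.evalEval_add]
    refine h.congr_deriv ?_
    ring
  | monomial n a =>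
    refine ⟨Polynomial.monomial n (Polynomial.derivative a), fun y y' s hy => ?_⟩
    simp only [Polynomial.derivative_monomial, evalEval_mono]
    have h := (a.hasDerivAt s).mul (hy.fun_pow n)
    refine h.congr_deriv ?_
    simp only [Polynomial.eval_mul, Polynomial.eval_natCast]
    ring

theorem algAt_deriv {F : ℂ[X][X]} (hF : ∀ᶠ s in 𝓝 t, evalEval s (y s) F = 0)
    (hy : AnalyticAt ℂ y t) (h1 : AlgAt t y)
    (h0 : evalEval t (y t) (Polynomial.derivative F) ≠ 0) : AlgAt t (deriv y) := by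
  obtain ⟨F₁, hF₁⟩ := hasDerivAt_curve F
  have hc : AnalyticAt ℂ (fun s => evalEval s (y s) (Polynomial.derivative F)) t :=
    Pool.Agent.MP_ae5b4e_an_ND.analyticAt_evalEval_comp hy _
  have h2 : AlgAt t (fun s => (-1) * evalEval s (y s) F₁ *
      (evalEval s (y s) (Polynomial.derivative F))⁻¹) :=
    ((algAt_const (-1)).mul (algAt_evalEval h1 F₁)).mul
      ((algAt_evalEval h1 (Polynomial.derivative F)).inv hc.continuousAt h0)
  refine algAt_congr h2 ?_
  filter_upwards [hF.eventually_nhds, hy.eventually_analyticAt,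
    hc.continuousAt.eventually_ne h0] with s h3 h4 h5
  have h6 := hF₁ y (deriv y s) s h4.differentiableAt.hasDerivAt
  have h7 : HasDerivAt (fun s => evalEval s (y s) F) 0 s := by
    refine (hasDerivAt_const s (0:ℂ)).congr_of_eventuallyEq ?_
    filter_upwards [h3] with r hr
    exact hr
  have h8 := h6.unique h7
  field_simp
  linear_combination -h8

theorem poly_zero {a : ℂ[X]} (h : ∀ᶠ s in 𝓝 e, a.eval s = 0) : a = 0 := by
  refine Polynomial.eq_zero_of_infinite_isRoot a ?_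
  exact infinite_of_mem_nhds e h

theorem exists_min (hy : AnalyticAt ℂ y e) : ∀ (n : ℕ) (F : ℂ[X][X]), F ≠ 0 →
    F.natDegree ≤ n → (∀ᶠ s in 𝓝 e, evalEval s (y s) F = 0) →
    ∃ F : ℂ[X][X], F ≠ 0 ∧ (∀ᶠ s in 𝓝 e, evalEval s (y s) F = 0) ∧
      ∀ᶠ s in 𝓝[≠] e, evalEval s (y s) (Polynomial.derivative F) ≠ 0 := by
  have hconst : ∀ F : ℂ[X][X], F ≠ 0 → F.natDegree = 0 →
      (∀ᶠ s in 𝓝 e, evalEval s (y s) F = 0) → False := by
    intro F hF hd h
    obtain ⟨a, rfl⟩ := Polynomial.natDegree_eq_zero.1 hd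
    apply hF
    rw [Polynomial.C_eq_zero]
    refine poly_zero (e := e) ?_
    filter_upwards [h] with s hs
    simpa [Polynomial.evalEval] using hs
  intro n
  induction n with
  | zero =>
    intro F hF hd h
    exact (hconst F hF (Nat.le_zero.1 hd) h).elim
  | succ n ih =>
    intro F hF hd h
    have hc : AnalyticAt ℂ (fun s => evalEval s (y s) (Polynomial.derivative F)) e :=
      Pool.Agent.MP_ae5b4e_an_ND.analyticAt_evalEval_comp hy _
    rcases hc.eventually_eq_zero_or_eventually_ne_zero with h1 | h1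
    · by_cases h2 : Polynomial.derivative F = 0
      · exact (hconst F hF (Polynomial.derivative_eq_zero.1 h2) h).elim
      · refine ih (Polynomial.derivative F) h2 ?_ h1
        have := Polynomial.natDegree_derivative_le F
        omega
    · exact ⟨F, hF, h, h1⟩

end Alg

/-! ### linear independence -/

section Lin
variable {e : ℂ} {y : ℂ → ℂ}

theorem lin_zero {a b c : ℂ} (hy : AnalyticAt ℂ y e) (h2 : deriv (deriv y) e ≠ 0)
    (h : ∀ᶠ s in 𝓝 e, a * s + b * y s + c = 0) : a = 0 ∧ b = 0 ∧ c = 0 := by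
  have hid : AnalyticAt ℂ (fun x : ℂ => x) e := analyticAt_id
  have h0 : (fun s => a * s + b * y s + c) =ᶠ[𝓝 e] fun _ => 0 := h
  have d1 := Pool.Agent.MP_ae5b4e_an_ALG.Trans.deriv_affine_ev (α := a) (β := b) (γ := c) hid hy
  have d2 := Pool.Agent.MP_ae5b4e_an_ALG.Trans.deriv_affine_two (α := a) (β := b) (γ := c) hid hy
  have hd : deriv (fun x : ℂ => x) = fun _ => 1 := by
    funext x
    exact deriv_id x
  have e1 := h0.deriv
  have e2 := e1.deriv.self_of_nhds
  rw [d2] at e2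
  simp only [hd, deriv_const', mul_zero, zero_add] at e2
  have hb : b = 0 := by
    rcases mul_eq_zero.1 e2 with h3 | h3
    · exact h3
    · exact absurd h3 h2
  have e3 := d1.self_of_nhds
  rw [e1.self_of_nhds] at e3
  simp only [hd, deriv_const', hb, zero_mul, add_zero, mul_one] at e3
  have ha : a = 0 := e3.symm
  have e4 := h.self_of_nhds
  rw [ha, hb] at e4
  exact ⟨ha, hb, by simpa using e4⟩

theorem wr_zero {c0 c1 c2 : ℂ} (hy : AnalyticAt ℂ y e) (h2 : deriv (deriv y) e ≠ 0)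
    (h : ∀ᶠ s in 𝓝 e, c1 - c0 * deriv y s + c2 * (s * deriv y s - y s) = 0) :
    c0 = 0 ∧ c1 = 0 ∧ c2 = 0 := by
  have h3 : ∀ᶠ s in 𝓝 e, c2 * s - c0 = 0 := by
    filter_upwards [h.eventually_nhds, hy.eventually_analyticAt,
      hy.deriv.deriv.continuousAt.eventually_ne h2] with s h4 h5 h6
    have d1 := h5.differentiableAt.hasDerivAt
    have d2 := h5.deriv.differentiableAt.hasDerivAt
    have d3 := ((hasDerivAt_const s c1).sub (d2.const_mul c0)).add
      ((((hasDerivAt_id s).mul d2).sub d1).const_mul c2)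
    have d4 : HasDerivAt (fun s => c1 - c0 * deriv y s + c2 * (s * deriv y s - y s)) 0 s := by
      refine (hasDerivAt_const s (0:ℂ)).congr_of_eventuallyEq ?_
      filter_upwards [h4] with r hr
      exact hr
    have d5 := d3.unique d4
    have d6 : (c2 * s - c0) * deriv (deriv y) s = 0 := by
      simp only [id_eq] at d5
      linear_combination d5
    rcases mul_eq_zero.1 d6 with h7 | h7
    · exact h7
    · exact absurd h7 h6
  have h4 : HasDerivAt (fun s : ℂ => c2 * s - c0) 0 e := by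
    refine (hasDerivAt_const e (0:ℂ)).congr_of_eventuallyEq ?_
    filter_upwards [h3] with r hr
    exact hr
  have h5 : HasDerivAt (fun s : ℂ => c2 * s - c0) (c2 * 1) e :=
    ((hasDerivAt_id e).const_mul c2).sub_const c0
  have hc2 : c2 = 0 := by
    have := h5.unique h4
    simpa using this
  have hc0 : c0 = 0 := by
    have := h3.self_of_nhds
    rw [hc2] at this
    simpa using this
  have hc1 : c1 = 0 := by
    have := h.self_of_nhds
    rw [hc2, hc0] at this
    simpa using this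
  exact ⟨hc0, hc1, hc2⟩

theorem gen_ne {A : Matrix (Fin 3) (Fin 3) ℂ} (hA : A.det ≠ 0) (hy : AnalyticAt ℂ y e)
    (h2 : deriv (deriv y) e ≠ 0) :
    ∀ᶠ s in 𝓝[≠] e, A 0 0 * s + A 0 1 * y s + A 0 2 ≠ 0 ∧
      (A 1 0 + A 1 1 * deriv y s) * (A 0 0 * s + A 0 1 * y s + A 0 2) -
        (A 1 0 * s + A 1 1 * y s + A 1 2) * (A 0 0 + A 0 1 * deriv y s) ≠ 0 := by
  have hid : AnalyticAt ℂ (fun x : ℂ => x) e := analyticAt_id
  have a0 : AnalyticAt ℂ (fun s => A 0 0 * s + A 0 1 * y s + A 0 2) e :=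
    ((analyticAt_const.mul hid).add (analyticAt_const.mul hy)).add analyticAt_const
  have a1 : AnalyticAt ℂ (fun s => A 1 0 * s + A 1 1 * y s + A 1 2) e :=
    ((analyticAt_const.mul hid).add (analyticAt_const.mul hy)).add analyticAt_const
  have b0 : AnalyticAt ℂ (fun s => A 0 0 + A 0 1 * deriv y s) e :=
    analyticAt_const.add (analyticAt_const.mul hy.deriv)
  have b1 : AnalyticAt ℂ (fun s => A 1 0 + A 1 1 * deriv y s) e :=
    analyticAt_const.add (analyticAt_const.mul hy.deriv)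
  have hN := (b1.mul a0).sub (a1.mul b0)
  have h3 : ∀ᶠ s in 𝓝[≠] e, A 0 0 * s + A 0 1 * y s + A 0 2 ≠ 0 := by
    rcases a0.eventually_eq_zero_or_eventually_ne_zero with h | h
    · exfalso
      obtain ⟨r0, r1, r2⟩ := lin_zero hy h2 h
      apply hA
      rw [Matrix.det_fin_three, r0, r1, r2]
      ring
    · exact h
  have h4 : ∀ᶠ s in 𝓝[≠] e, (A 1 0 + A 1 1 * deriv y s) * (A 0 0 * s + A 0 1 * y s + A 0 2) -
        (A 1 0 * s + A 1 1 * y s + A 1 2) * (A 0 0 + A 0 1 * deriv y s) ≠ 0 := by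
    rcases hN.eventually_eq_zero_or_eventually_ne_zero with h | h
    · exfalso
      obtain ⟨r0, r1, r2⟩ := wr_zero (c0 := A 0 1 * A 1 2 - A 0 2 * A 1 1)
        (c1 := A 1 0 * A 0 2 - A 1 2 * A 0 0) (c2 := A 0 0 * A 1 1 - A 0 1 * A 1 0) hy h2 (by
          filter_upwards [h] with s hs
          simp only [Pi.sub_apply, Pi.mul_apply] at hs
          linear_combination hs)
      apply hA
      rw [Matrix.det_fin_three]
      linear_combination A 2 0 * r0 + A 2 1 * r1 + A 2 2 * r2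
    · exact h
  exact h3.and h4

end Lin

/-! ### nearby points are good -/

theorem goodG_near {X Y K : ℂ → ℂ} {e : ℂ} (h : GoodG X Y K e) :
    ∀ᶠ s in 𝓝 e, GoodG X Y K s := by
  obtain ⟨⟨hX, hY, hK, hW⟩, -⟩ := id h
  have h1 : ∀ᶠ s in 𝓝 e, RegG X Y K s := by
    filter_upwards [hX.eventually_analyticAt, hY.eventually_analyticAt, hK.eventually_analyticAt,
      (GeoProp.wr_analytic hX hY).continuousAt.eventually_ne hW] with s a b c d
    exact ⟨a, b, c, d⟩
  obtain ⟨ε, hε, h2⟩ := Metric.eventually_nhds_iff_ball.1 h1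
  have h3 := goodG_conn isOpen_ball (convex_ball e ε).isPreconnected h2 (mem_ball_self hε) h
  filter_upwards [ball_mem_nhds e hε] with s hs
  exact h3 s hs

/-- the affine equation is not zero -/
theorem P1_ne {P : MvPolynomial (Fin 3) ℂ} {n : ℕ} (hP : P.IsHomogeneous n) (h0 : P ≠ 0) :
    Core.P1 P ≠ 0 := by
  intro h
  have h1 : ∀ z η : ℂ, MvPolynomial.eval ![z, η, 1] P = 0 := by
    intro z η
    rw [← Core.evalEval_P1, h]
    simp
  have h2 : P * MvPolynomial.X 2 = 0 := by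
    apply MvPolynomial.funext
    intro v
    rw [map_mul, MvPolynomial.eval_X, map_zero]
    by_cases h3 : v 2 = 0
    · rw [h3, mul_zero]
    · have h4 : v = v 2 • ![v 0 / v 2, v 1 / v 2, 1] := by
        funext i
        fin_cases i
        · simp [mul_div_cancel₀ _ h3]
        · simp [mul_div_cancel₀ _ h3]
        · simp
      have h5 : MvPolynomial.eval v P = 0 := by
        rw [h4, eval_smul3 hP, h1, mul_zero]
      rw [h5, zero_mul]
  rcases mul_eq_zero.1 h2 with h3 | h3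
  · exact h0 h3
  · exact MvPolynomial.X_ne_zero _ h3

end Transfer

open Transfer

/-- the good point in the new coordinates -/
theorem transfer {P : MvPolynomial (Fin 3) ℂ} {n : ℕ} (hP : P.IsHomogeneous n) (hn : 2 ≤ n)
    (hirr : Irreducible P) {Q : ℂ[X][X]} (hQ : Q ≠ 0) {y k : ℂ → ℂ} {e : ℂ}
    (hg : GoodG (fun x => x) y k e)
    (hPy : ∀ᶠ z in 𝓝 e, MvPolynomial.eval ![z, y z, 1] P = 0)
    (hQk : ∀ᶠ z in 𝓝 e, evalEval z (k z) Q = 0) {B : Matrix (Fin 3) (Fin 3) ℂ}
    (hdet : B.det ≠ 0) :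
    ∃ (Q' : ℂ[X][X]) (y' k' : ℂ → ℂ) (e' : ℂ), Q' ≠ 0 ∧ GoodG (fun x => x) y' k' e' ∧
      (∀ᶠ z in 𝓝 e', MvPolynomial.eval ![z, y' z, 1] (lsub B P) = 0) ∧
      ∀ᶠ z in 𝓝 e', evalEval z (k' z) Q' = 0 := by
  -- the matrix
  obtain ⟨C, hBC⟩ : ∃ C : Matrix (Fin 3) (Fin 3) ℂ, B * C = 1 :=
    ⟨B⁻¹, Matrix.mul_nonsing_inv B (isUnit_iff_ne_zero.2 hdet)⟩
  have hC : C.det ≠ 0 := by
    intro h
    have h1 := congrArg Matrix.det hBC
    rw [Matrix.det_mul, h, mul_zero, Matrix.det_one] at h1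
    exact zero_ne_one h1
  obtain ⟨A, hA0, hA1, hA2⟩ : ∃ A : Matrix (Fin 3) (Fin 3) ℂ, (∀ j, A 0 j = C 2 j) ∧
      (∀ j, A 1 j = C 0 j) ∧ ∀ j, A 2 j = C 1 j :=
    ⟨Matrix.of ![C 2, C 0, C 1], fun _ => rfl, fun _ => rfl, fun _ => rfl⟩
  have hA : A.det ≠ 0 := by
    have h1 : A.det = C.det := by
      rw [Matrix.det_fin_three, Matrix.det_fin_three]
      simp only [hA0, hA1, hA2]
      ring
    rw [h1]
    exact hC
  -- the curve
  have hya : AnalyticAt ℂ y e := hg.1.2.1
  have hy2 : deriv (deriv y) e ≠ 0 := by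
    have h1 := hg.1.2.2.2
    have hd : deriv (fun x : ℂ => x) = fun _ => 1 := by
      funext x
      exact deriv_id x
    unfold Wr at h1
    simpa [hd] using h1
  obtain ⟨F, hF, hFy, hFT⟩ := exists_min hya _ (Core.P1 P) (P1_ne hP hirr.ne_zero) le_rfl (by
    filter_upwards [hPy] with s hs
    rw [Core.evalEval_P1]
    exact hs)
  obtain ⟨t, hgt, hPt, hQt, hFt, hFTt, h0t, hNt⟩ : ∃ t, GoodG (fun x => x) y k t ∧
      (∀ᶠ z in 𝓝 t, MvPolynomial.eval ![z, y z, 1] P = 0) ∧
      (∀ᶠ z in 𝓝 t, evalEval z (k z) Q = 0) ∧ (∀ᶠ s in 𝓝 t, evalEval s (y s) F = 0) ∧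
      evalEval t (y t) (Polynomial.derivative F) ≠ 0 ∧
      A 0 0 * t + A 0 1 * y t + A 0 2 ≠ 0 ∧
      (A 1 0 + A 1 1 * deriv y t) * (A 0 0 * t + A 0 1 * y t + A 0 2) -
        (A 1 0 * t + A 1 1 * y t + A 1 2) * (A 0 0 + A 0 1 * deriv y t) ≠ 0 := by
    have h1 := (((goodG_near hg).and (hPy.eventually_nhds.and
      (hQk.eventually_nhds.and hFy.eventually_nhds))).filter_mono
        (nhdsWithin_le_nhds (s := {e}ᶜ))).and (hFT.and (gen_ne hA hya hy2))
    obtain ⟨t, ⟨a, b, c, d⟩, f, g, h⟩ := h1.exists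
    exact ⟨t, a, b, c, d, f, g, h⟩
  have hyt : AnalyticAt ℂ y t := hgt.1.2.1
  have hkt : AnalyticAt ℂ k t := hgt.1.2.2.1
  have hid : AnalyticAt ℂ (fun x : ℂ => x) t := analyticAt_id
  -- the functions
  obtain ⟨h, hh⟩ : ∃ h : ℂ → ℂ, h = fun s => A 0 0 * s + A 0 1 * y s + A 0 2 := ⟨_, rfl⟩
  obtain ⟨g, hgg⟩ : ∃ g : ℂ → ℂ, g = fun s => A 1 0 * s + A 1 1 * y s + A 1 2 := ⟨_, rfl⟩
  obtain ⟨X, hX⟩ : ∃ X : ℂ → ℂ, X = fun s => g s / h s := ⟨_, rfl⟩
  obtain ⟨Yn, hYn⟩ : ∃ Yn : ℂ → ℂ,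
    Yn = fun s => (A 2 0 * s + A 2 1 * y s + A 2 2) / h s := ⟨_, rfl⟩
  obtain ⟨K1, hK1⟩ : ∃ K1 : ℂ → ℂ, K1 = fun s => k s + 2 * (deriv h s / h s) := ⟨_, rfl⟩
  have hha : AnalyticAt ℂ h t := by
    rw [hh]
    exact ((analyticAt_const.mul hid).add (analyticAt_const.mul hyt)).add analyticAt_const
  have hga : AnalyticAt ℂ g t := by
    rw [hgg]
    exact ((analyticAt_const.mul hid).add (analyticAt_const.mul hyt)).add analyticAt_const
  have hht : h t ≠ 0 := by
    rw [hh]
    exact h0t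
  have hgood : GoodG X Yn K1 t := by
    have h1 := goodG_pgl hgt hA (by exact h0t)
    rw [hX, hYn, hK1, hgg, hh]
    exact h1
  have hdid : deriv (fun x : ℂ => x) = fun _ => 1 := by
    funext x
    exact deriv_id x
  have hdh : deriv h =ᶠ[𝓝 t] fun s => A 0 0 + A 0 1 * deriv y s := by
    have h1 := Pool.Agent.MP_ae5b4e_an_ALG.Trans.deriv_affine_ev (α := A 0 0) (β := A 0 1)
      (γ := A 0 2) hid hyt
    rw [hh]
    refine h1.trans (Eventually.of_forall fun s => ?_)
    simp only [hdid, mul_one]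
  have hdg : deriv g =ᶠ[𝓝 t] fun s => A 1 0 + A 1 1 * deriv y s := by
    have h1 := Pool.Agent.MP_ae5b4e_an_ALG.Trans.deriv_affine_ev (α := A 1 0) (β := A 1 1)
      (γ := A 1 2) hid hyt
    rw [hgg]
    refine h1.trans (Eventually.of_forall fun s => ?_)
    simp only [hdid, mul_one]
  have hXa : AnalyticAt ℂ X t := hgood.1.1
  have hdX : deriv X =ᶠ[𝓝 t] fun s => ((A 1 0 + A 1 1 * deriv y s) * h s -
      g s * (A 0 0 + A 0 1 * deriv y s)) * (h s ^ 2)⁻¹ := by
    rw [hX]
    filter_upwards [hha.eventually_analyticAt, hga.eventually_analyticAt,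
      hha.continuousAt.eventually_ne hht, hdh, hdg] with s h1 h2 h3 h4 h5
    have h6 := h2.differentiableAt.hasDerivAt.div h1.differentiableAt.hasDerivAt h3
    rw [h4, h5] at h6
    have h7 := h6.deriv
    rw [div_eq_mul_inv] at h7
    exact h7
  have hX' : deriv X t ≠ 0 := by
    rw [hdX.self_of_nhds]
    refine mul_ne_zero ?_ (inv_ne_zero (pow_ne_zero 2 hht))
    rw [hh, hgg]
    exact hNt
  -- they are algebraic
  have hay : AlgAt t y := ⟨F, hF, hFt⟩
  have hak : AlgAt t k := ⟨Q, hQ, hQt⟩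
  have hady : AlgAt t (deriv y) := algAt_deriv hFt hyt hay hFTt
  have hah : AlgAt t h := by
    rw [hh]
    exact (((algAt_const _).mul algAt_id).add ((algAt_const _).mul hay)).add (algAt_const _)
  have hag : AlgAt t g := by
    rw [hgg]
    exact (((algAt_const _).mul algAt_id).add ((algAt_const _).mul hay)).add (algAt_const _)
  have hah' : AlgAt t (fun s => A 0 0 + A 0 1 * deriv y s) :=
    (algAt_const _).add ((algAt_const _).mul hady)
  have hag' : AlgAt t (fun s => A 1 0 + A 1 1 * deriv y s) :=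
    (algAt_const _).add ((algAt_const _).mul hady)
  have hhi : AlgAt t (fun s => (h s)⁻¹) := hah.inv hha.continuousAt hht
  have haX : AlgAt t X := by
    rw [hX]
    simp only [div_eq_mul_inv]
    exact hag.mul hhi
  have haK : AlgAt t K1 := by
    refine algAt_congr (f := fun s => k s + 2 * ((A 0 0 + A 0 1 * deriv y s) * (h s)⁻¹))
      (hak.add ((algAt_const 2).mul (hah'.mul hhi))) ?_
    rw [hK1]
    filter_upwards [hdh] with s hs
    rw [hs, div_eq_mul_inv]
  have hadX : AlgAt t (deriv X) := by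
    have h1 : AlgAt t (fun s => ((A 1 0 + A 1 1 * deriv y s) * h s +
        (-1) * (g s * (A 0 0 + A 0 1 * deriv y s))) * ((h s)⁻¹ * (h s)⁻¹)) :=
      ((hag'.mul hah).add ((algAt_const (-1)).mul (hag.mul hah'))).mul (hhi.mul hhi)
    refine algAt_congr h1 ?_
    filter_upwards [hdX] with s hs
    rw [hs, ← mul_inv]
    ring
  have hKa : AnalyticAt ℂ K1 t := hgood.1.2.2.1
  have haG : AlgAt t (fun s => K1 s * (deriv X s)⁻¹) :=
    haK.mul (hadX.inv hXa.deriv.continuousAt hX')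
  have hGa : AnalyticAt ℂ (fun s => K1 s * (deriv X s)⁻¹) t := hKa.mul (hXa.deriv.inv hX')
  obtain ⟨Q', hQ', hQ'0⟩ := alg_dep hXa hGa haX haG (by
    intro h1
    apply hX'
    have h2 : X =ᶠ[𝓝 t] fun _ => X t := h1
    rw [h2.deriv_eq, deriv_const])
  -- the inverse
  obtain ⟨ψ, hψ, hl, hr⟩ : ∃ ψ : ℂ → ℂ, AnalyticAt ℂ ψ (X t) ∧ (∀ᶠ x in 𝓝 t, ψ (X x) = x) ∧
      ∀ᶠ y in 𝓝 (X t), X (ψ y) = y :=
    ⟨hXa.hasStrictDerivAt.localInverse _ _ _ hX', hXa.analyticAt_localInverse hX',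
      hXa.hasStrictDerivAt.eventually_left_inverse hX',
      hXa.hasStrictDerivAt.eventually_right_inverse hX'⟩
  have hψt : ψ (X t) = t := hl.self_of_nhds
  have hψc : Tendsto ψ (𝓝 (X t)) (𝓝 t) := by
    have h1 := hψ.continuousAt.tendsto
    rwa [hψt] at h1
  have hchain : ∀ᶠ z in 𝓝 (X t), deriv X (ψ z) * deriv ψ z = 1 := by
    filter_upwards [hr.eventually_nhds, hψ.eventually_analyticAt,
      hψc.eventually hXa.eventually_analyticAt] with z h1 h2 h3
    have h4 : HasDerivAt (fun z => X (ψ z)) (deriv X (ψ z) * deriv ψ z) z :=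
      h3.differentiableAt.hasDerivAt.comp z h2.differentiableAt.hasDerivAt
    have h5 : HasDerivAt (fun z => X (ψ z)) 1 z := by
      refine (hasDerivAt_id z).congr_of_eventuallyEq ?_
      filter_upwards [h1] with r hr
      exact hr
    exact h4.unique h5
  have hψ' : deriv ψ (X t) ≠ 0 := by
    intro h1
    have h2 := hchain.self_of_nhds
    rw [h1, mul_zero] at h2
    exact zero_ne_one h2
  refine ⟨Q', Yn ∘ ψ, fun z => deriv ψ z * K1 (ψ z), X t, hQ', ?_, ?_, ?_⟩
  · have h1 := Pool.Agent.MP_ae5b4e_an_ALG.goodG_comp hψ hψ' (X := X) (Y := Yn) (K := K1)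
      (by rw [hψt]; exact hgood)
    refine Pool.Agent.MP_ae5b4e_an_ALG.goodG_congr h1 ?_ EventuallyEq.rfl EventuallyEq.rfl
    filter_upwards [hr] with z hz
    exact hz
  · filter_upwards [hr, hψc.eventually hPt,
      hψc.eventually (hha.continuousAt.eventually_ne hht)] with z h1 h2 h3
    rw [eval_lsub]
    obtain ⟨s, hs⟩ : ∃ s, s = ψ z := ⟨_, rfl⟩
    rw [← hs] at h1 h2 h3
    have h4 : (![z, (Yn ∘ ψ) z, 1] : Fin 3 → ℂ) = (h s)⁻¹ • C.mulVec ![s, y s, 1] := by
      have h5 : z = g s / h s := by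
        rw [← h1, hX]
      have h6 : (Yn ∘ ψ) z = (A 2 0 * s + A 2 1 * y s + A 2 2) / h s := by
        simp only [Function.comp, ← hs, hYn]
      have h7 : h s = C 2 0 * s + C 2 1 * y s + C 2 2 := by
        simp only [hh, hA0]
      funext i
      fin_cases i
      · simp only [Fin.zero_eta, Fin.isValue, Matrix.cons_val_zero, Pi.smul_apply, smul_eq_mul]
        rw [h5, Matrix.mulVec, dotProduct, Fin.sum_univ_three]
        simp [hgg, hA1, div_eq_inv_mul]
      · simp only [Fin.mk_one, Fin.isValue, Matrix.cons_val_one, Pi.smul_apply, smul_eq_mul]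
        rw [h6, Matrix.mulVec, dotProduct, Fin.sum_univ_three]
        simp [hA2, div_eq_inv_mul]
      · simp only [Fin.reduceFinMk, Fin.isValue, Matrix.cons_val, Pi.smul_apply, smul_eq_mul]
        rw [Matrix.mulVec, dotProduct, Fin.sum_univ_three]
        simp only [Matrix.cons_val_zero, Matrix.cons_val_one, Matrix.cons_val, mul_one]
        rw [← h7, inv_mul_cancel₀ h3]
    rw [h4, Matrix.mulVec_smul, Matrix.mulVec_mulVec, hBC, Matrix.one_mulVec, eval_smul3 hP, h2,
      mul_zero]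
  · filter_upwards [hr, hchain, hψc.eventually hQ'0] with z h1 h2 h3
    rw [h1] at h3
    have h4 : deriv ψ z * K1 (ψ z) = K1 (ψ z) * (deriv X (ψ z))⁻¹ := by
      have h5 : deriv X (ψ z) ≠ 0 := left_ne_zero_of_mul_eq_one h2
      field_simp
      linear_combination K1 (ψ z) * h2
    rw [h4]
    exact h3

end Pool.Agent.MP_ae5b4e_an_GENC
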