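import Mathlib
import Pool.Agent.Lib.MP_ae5b4e_an_GENC.Defs
import Pool.Agent.Lib.MP_ae5b4e_an_GENC.Integral
import Pool.Agent.Lib.MP_ae5b4e_an_ALG.Prim

/-!
# MP_ae5b4e_an, project GENC: the types of the places
-/

set_option autoImplicit false

noncomputable section

namespace Pool.Agent.MP_ae5b4e_an_GENC

open Filter Topology Set Metric
open scoped Polynomial
open Polynomial (evalEval)
open Pool.Agent.MP_ae5b4e_an_ND (Reg)
open Pool.Agent.MP_ae5b4e_an_FLEX
open Pool.Agent.MP_ae5b4e_an_GEN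

namespace Types

theorem tend_pow {m : ℕ} (hm : 0 < m) : Tendsto (fun w : ℂ => w ^ m) (𝓝 0) (𝓝 0) := by
  have := (continuous_pow (M := ℂ) m).tendsto 0
  rwa [zero_pow hm.ne'] at this

theorem tend_pow' {m : ℕ} (hm : 0 < m) : Tendsto (fun w : ℂ => w ^ m) (𝓝[≠] 0) (𝓝[≠] 0) := by
  refine tendsto_nhdsWithin_iff.2 ⟨(tend_pow hm).mono_left nhdsWithin_le_nhds, ?_⟩
  filter_upwards [self_mem_nhdsWithin] with w hw
  exact pow_ne_zero _ hw

/-- an analytic function which vanishes at the powers vanishes near `0` -/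
theorem zero_of_pow {F : ℂ → ℂ} (hF : AnalyticAt ℂ F 0) {m : ℕ} (hm : 0 < m)
    (h : ∀ᶠ w in 𝓝[≠] (0:ℂ), F (w ^ m) = 0) : ∀ᶠ v in 𝓝 (0:ℂ), F v = 0 := by
  rcases hF.eventually_eq_zero_or_eventually_ne_zero with h1 | h1
  · exact h1
  · exfalso
    have h2 := (tend_pow' hm).eventually h1
    obtain ⟨w, hw1, hw2⟩ := (h.and h2).exists
    exact hw2 hw1

/-- the composition of a germ of type `(a, b)` with a power -/
theorem ptype_pow {φ : ℂ → Fin 3 → ℂ} {a b m : ℕ} (hm : 0 < m) (h : PType φ a b) :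
    PType (fun w => φ (w ^ m)) (a * m) (b * m) := by
  obtain ⟨A, u, x1, y1, hA, hu, hu0, hx, hx0, hy, hy0, he⟩ := h
  have hp : AnalyticAt ℂ (fun w : ℂ => w ^ m) 0 := analyticAt_id.pow m
  have h00 : (0:ℂ) ^ m = 0 := zero_pow hm.ne'
  have hcomp : ∀ {f : ℂ → ℂ}, AnalyticAt ℂ f 0 → AnalyticAt ℂ (fun w => f (w ^ m)) 0 := by
    intro f hf
    exact AnalyticAt.fun_comp_of_eq hf hp h00
  refine ⟨A, fun w => u (w ^ m), fun w => x1 (w ^ m), fun w => y1 (w ^ m), hA, hcomp hu, ?_,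
    hcomp hx, ?_, hcomp hy, ?_, ?_⟩
  · simpa only [h00] using hu0
  · simpa only [h00] using hx0
  · simpa only [h00] using hy0
  · filter_upwards [(tend_pow hm).eventually he] with w hw
    rw [hw, ← pow_mul, ← pow_mul, Nat.mul_comm m a, Nat.mul_comm m b]

theorem ze_prim {N : ℕ} (hN : 0 < N) : IsPrimitiveRoot (ze N) N :=
  Complex.isPrimitiveRoot_exp N hN.ne'

theorem analytic_eval {φ : ℂ → Fin 3 → ℂ} (hφ : ∀ i, AnalyticAt ℂ (fun w => φ w i) 0)
    (P : MvPolynomial (Fin 3) ℂ) : AnalyticAt ℂ (fun w => MvPolynomial.eval (φ w) P) 0 := by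
  have h := AnalyticAt.aeval_mvPolynomial hφ P
  exact h

theorem ana_vec {f g k : ℂ → ℂ} {z : ℂ} (hf : AnalyticAt ℂ f z) (hg : AnalyticAt ℂ g z)
    (hk : AnalyticAt ℂ k z) (i : Fin 3) :
    AnalyticAt ℂ (fun w => (![f w, g w, k w] : Fin 3 → ℂ) i) z := by
  match i with
  | 0 => exact hf
  | 1 => exact hg
  | 2 => exact hk

theorem comp_pow {f : ℂ → ℂ} {m : ℕ} (hm : 0 < m) (hf : AnalyticAt ℂ f 0) :
    AnalyticAt ℂ (fun w => f (w ^ m)) 0 :=
  AnalyticAt.fun_comp_of_eq hf (analyticAt_id.fun_pow m) (zero_pow hm.ne')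

/-- the count -/
theorem card_dvd {μ M : ℕ} (hM : 0 < M) :
    ((Finset.range (μ * M)).filter fun s => M ∣ s).card = μ := by
  have h : ((Finset.range (μ * M)).filter fun s => M ∣ s) =
      (Finset.range μ).image (fun j => M * j) := by
    ext s
    simp only [Finset.mem_filter, Finset.mem_range, Finset.mem_image]
    constructor
    · rintro ⟨h1, j, rfl⟩
      refine ⟨j, ?_, rfl⟩
      rw [Nat.mul_comm] at h1
      exact Nat.lt_of_mul_lt_mul_right h1
    · rintro ⟨j, h1, rfl⟩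
      exact ⟨by rw [Nat.mul_comm]; exact Nat.mul_lt_mul_of_pos_right h1 hM, dvd_mul_right _ _⟩
  rw [h, Finset.card_image_of_injective, Finset.card_range]
  intro a b hab
  exact Nat.eq_of_mul_eq_mul_left hM hab

open Classical in
theorem fr_of {N : ℕ} {Y : ℂ → ℂ} {p : ℕ → Prop} [hd : DecidablePred p]
    (h : ∀ s ∈ Finset.range N, ((∀ᶠ w in 𝓝[≠] (0:ℂ), Y (ze N ^ s * w) = Y w) ↔ p s)) :
    fr N Y = (((Finset.range N).filter p).card : ℝ) / N := by
  unfold fr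
  rw [Finset.filter_congr h]

/-- the fraction of the rotations -/
theorem fr_eq {μ M : ℕ} (hμ : 0 < μ) (hM : 0 < M) {Y h' : ℂ → ℂ} (hh : AnalyticAt ℂ h' 0)
    (hY : ∀ᶠ w in 𝓝[≠] (0:ℂ), Y w = h' (w ^ μ))
    (hp : ∀ om : ℂ, om ^ M = 1 → (∀ᶠ w in 𝓝 (0:ℂ), h' (om * w) = h' w) → om = 1) :
    fr (μ * M) Y = μ / ((μ * M : ℕ) : ℝ) := by
  have hN : 0 < μ * M := Nat.mul_pos hμ hM
  have hz := ze_prim hN
  suffices hs : ∀ s ∈ Finset.range (μ * M),
      ((∀ᶠ w in 𝓝[≠] (0:ℂ), Y (ze (μ * M) ^ s * w) = Y w) ↔ M ∣ s) by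
    rw [fr_of hs, card_dvd hM]
  intro s _
  have hz0 : ze (μ * M) ≠ 0 := hz.ne_zero hN.ne'
  have hone : (ze (μ * M) ^ (s * μ)) = 1 ↔ M ∣ s := by
    rw [hz.pow_eq_one_iff_dvd, Nat.mul_comm μ M]
    exact Nat.mul_dvd_mul_iff_right hμ
  have hrot : Tendsto (fun w : ℂ => ze (μ * M) ^ s * w) (𝓝[≠] 0) (𝓝[≠] 0) := by
    refine tendsto_nhdsWithin_iff.2 ⟨?_, ?_⟩
    · have := (continuous_const_mul (ze (μ * M) ^ s)).tendsto (0:ℂ)
      rw [mul_zero] at this
      exact this.mono_left nhdsWithin_le_nhds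
    · filter_upwards [self_mem_nhdsWithin] with w hw
      exact mul_ne_zero (pow_ne_zero _ hz0) hw
  have hkey : (∀ᶠ w in 𝓝[≠] (0:ℂ), Y (ze (μ * M) ^ s * w) = Y w) ↔
      ∀ᶠ w in 𝓝[≠] (0:ℂ), h' (ze (μ * M) ^ (s * μ) * w ^ μ) = h' (w ^ μ) := by
    have h1 := hrot.eventually hY
    constructor
    · intro h
      filter_upwards [h, h1, hY] with w a1 a2 a3
      rw [a2, a3, mul_pow, ← pow_mul] at a1
      exact a1
    · intro h
      filter_upwards [h, h1, hY] with w a1 a2 a3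
      rw [a2, a3, mul_pow, ← pow_mul]
      exact a1
  rw [hkey, ← hone]
  constructor
  · intro h
    have hrot' : AnalyticAt ℂ (fun v : ℂ => ze (μ * M) ^ (s * μ) * v) 0 :=
      analyticAt_const.mul analyticAt_id
    have hF : AnalyticAt ℂ (fun v => h' (ze (μ * M) ^ (s * μ) * v) - h' v) 0 :=
      (AnalyticAt.fun_comp_of_eq hh hrot' (by simp)).sub hh
    have h2 := zero_of_pow hF hμ (by
      filter_upwards [h] with w hw
      rw [hw, sub_self])
    refine hp _ ?_ ?_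
    · rw [← pow_mul, Nat.mul_assoc, Nat.mul_comm s, pow_mul, hz.pow_eq_one, one_pow]
    · filter_upwards [h2] with v hv
      exact sub_eq_zero.1 hv
  · intro h
    rw [h]
    simp

end Types

/-- the types of the finite places -/
theorem type_fin {P : MvPolynomial (Fin 3) ℂ} {n : ℕ} (h : Chart P n) (hn : 1 ≤ n)
    {T : ℕ → ℕ → Prop} (hB : Branches P T) {N : ℕ} (hN : 0 < N) {e : ℂ} {Y : ℂ → ℂ}
    (hY : MeromorphicAt Y 0)
    (h0 : ∀ᶠ w in 𝓝[≠] (0:ℂ), MvPolynomial.eval ![e + w ^ N, Y w, 1] P = 0) :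
    ∃ (a b μ : ℕ) (φ : ℂ → Fin 3 → ℂ), T a b ∧ 0 < μ ∧ fr N Y = μ / N ∧
      (∀ i, AnalyticAt ℂ (fun w => φ w i) 0) ∧
      (∀ᶠ w in 𝓝[≠] (0:ℂ), φ w = ![e + w ^ N, Y w, 1]) ∧ PType φ (a * μ) (b * μ) := by
  obtain ⟨Y', hY', hYY⟩ := finite_analytic h hn hY h0
  obtain ⟨M, μ, h', hM, hμ, hNM, hh', he, hp⟩ :=
    Pool.Agent.MP_ae5b4e_an_ALG.exists_prim hN hY'
  subst hNM
  have hYh : ∀ᶠ w in 𝓝[≠] (0:ℂ), Y w = h' (w ^ μ) := by
    filter_upwards [hYY, he.filter_mono nhdsWithin_le_nhds] with w h1 h2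
    rw [h1, h2]
  -- the primitive germ
  have hφ0 : ∀ i, AnalyticAt ℂ (fun w => (![e + w ^ M, h' w, 1] : Fin 3 → ℂ) i) 0 :=
    Types.ana_vec (analyticAt_const.fun_add (analyticAt_id.fun_pow M)) hh' analyticAt_const
  have hev : ∀ᶠ v in 𝓝 (0:ℂ), MvPolynomial.eval ![e + v ^ M, h' v, 1] P = 0 := by
    refine Types.zero_of_pow (Types.analytic_eval hφ0 P) hμ ?_
    filter_upwards [hYh, h0] with w h1 h2
    rw [← h2, h1, ← pow_mul]
  have hinj : PInj (fun v => ![e + v ^ M, h' v, 1]) := by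
    -- the finitely many roots of unity
    have hfin : {om : ℂ | om ^ M = 1}.Finite := by
      have h1 : {om : ℂ | om ^ M = 1} ⊆ ((Polynomial.X ^ M - Polynomial.C 1 : ℂ[X]).roots.toFinset : Set ℂ) := by
        intro om hom
        rw [Finset.mem_coe, Multiset.mem_toFinset, Polynomial.mem_roots
          (Polynomial.X_pow_sub_C_ne_zero (R := ℂ) hM 1)]
        have : om ^ M = 1 := hom
        simp [Polynomial.IsRoot, this]
      exact (Finset.finite_toSet _).subset h1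
    have hall : ∀ᶠ z in 𝓝 (0:ℂ), ∀ om ∈ {om : ℂ | om ^ M = 1}, om ≠ 1 → z ≠ 0 →
        h' (om * z) ≠ h' z := by
      rw [hfin.eventually_all]
      intro om hom
      by_cases h1 : om = 1
      · exact Filter.Eventually.of_forall fun z h2 => absurd h1 h2
      · have hrot' : AnalyticAt ℂ (fun v : ℂ => om * v) 0 := analyticAt_const.mul analyticAt_id
        have hF : AnalyticAt ℂ (fun v => h' (om * v) - h' v) 0 :=
          (AnalyticAt.fun_comp_of_eq hh' hrot' (by simp)).sub hh'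
        rcases hF.eventually_eq_zero_or_eventually_ne_zero with h2 | h2
        · exact absurd (hp om hom (h2.mono fun v hv => sub_eq_zero.1 hv)) h1
        · rw [eventually_nhdsWithin_iff] at h2
          filter_upwards [h2] with z hz _ hz0 heq
          exact hz hz0 (sub_eq_zero.2 heq)
    have hall' : ∀ᶠ p in 𝓝 ((0, 0) : ℂ × ℂ), ∀ om ∈ {om : ℂ | om ^ M = 1}, om ≠ 1 → p.2 ≠ 0 →
        h' (om * p.2) ≠ h' p.2 := by
      have : Tendsto (fun p : ℂ × ℂ => p.2) (𝓝 (0, 0)) (𝓝 0) :=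
        (continuous_snd.tendsto ((0, 0) : ℂ × ℂ))
      exact this.eventually hall
    filter_upwards [hall'] with p hp' hc
    obtain ⟨c, hc⟩ := hc
    have hc2 := congrFun hc 2
    have hc1 := congrFun hc 1
    have hc0 := congrFun hc 0
    simp at hc2
    rw [← hc2] at hc0 hc1
    simp at hc0 hc1
    by_cases hz : p.2 = 0
    · rw [hz, zero_pow hM.ne'] at hc0
      rw [hz]
      exact pow_eq_zero_iff hM.ne' |>.1 hc0
    · by_contra hne
      have hom : (p.1 / p.2) ^ M = 1 := by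
        rw [div_pow, hc0, div_self (pow_ne_zero _ hz)]
      refine hp' (p.1 / p.2) hom ?_ hz ?_
      · intro h1
        exact hne ((div_eq_one_iff_eq hz).1 h1)
      · rw [div_mul_cancel₀ _ hz]
        exact hc1
  obtain ⟨a, b, hT, hPT⟩ := hB (fun v => ![e + v ^ M, h' v, 1]) hφ0 (by
    intro h1
    have := congrFun h1 2
    simp at this) hev hinj
  have hPP := Types.ptype_pow hμ hPT
  have hfr := Types.fr_eq hμ hM hh' hYh hp
  refine ⟨a, b, μ, fun w => ![e + (w ^ μ) ^ M, h' (w ^ μ), 1], hT, hμ, hfr, ?_, ?_, hPP⟩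
  · exact fun i => Types.comp_pow hμ (hφ0 i)
  · filter_upwards [hYh] with w hw
    rw [hw, ← pow_mul]

/-- the types of the places at infinity -/
theorem type_inf {P : MvPolynomial (Fin 3) ℂ} {n : ℕ} (h : Chart P n) (hn : 1 ≤ n)
    {T : ℕ → ℕ → Prop} (hB : Branches P T) {N : ℕ} (hN : 0 < N) {Y : ℂ → ℂ}
    (hY : MeromorphicAt Y 0)
    (h0 : ∀ᶠ w in 𝓝[≠] (0:ℂ), MvPolynomial.eval ![(w ^ N)⁻¹, Y w, 1] P = 0) :
    ∃ (a b : ℕ) (φ : ℂ → Fin 3 → ℂ), T a b ∧ fr N Y = 1 ∧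
      (∀ i, AnalyticAt ℂ (fun w => φ w i) 0) ∧
      (∀ᶠ w in 𝓝[≠] (0:ℂ), φ w = w ^ N • ![(w ^ N)⁻¹, Y w, 1]) ∧ PType φ (a * N) (b * N) := by
  obtain ⟨g, hg, hYg, hev⟩ := inf_analytic h hn hN hY h0
  have hφ0 : ∀ i, AnalyticAt ℂ (fun v => (![1, g v, v] : Fin 3 → ℂ) i) 0 :=
    Types.ana_vec analyticAt_const hg analyticAt_id
  have hinj : PInj (fun v => ![1, g v, v]) := by
    refine Filter.Eventually.of_forall fun p hc => ?_
    obtain ⟨c, hc⟩ := hc
    have hc0 := congrFun hc 0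
    have hc2 := congrFun hc 2
    simp at hc0
    rw [← hc0] at hc2
    simpa using hc2
  obtain ⟨a, b, hT, hPT⟩ := hB (fun v => ![1, g v, v]) hφ0 (by
    intro h1
    have := congrFun h1 0
    simp at this) hev hinj
  have hPP := Types.ptype_pow hN hPT
  refine ⟨a, b, fun w => ![1, g (w ^ N), w ^ N], hT, ?_, ?_, ?_, hPP⟩
  · have hz := Types.ze_prim hN
    have hz0 : ze N ≠ 0 := hz.ne_zero hN.ne'
    have hall : ∀ s ∈ Finset.range N,
        ((∀ᶠ w in 𝓝[≠] (0:ℂ), Y (ze N ^ s * w) = Y w) ↔ True) := by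
      intro s _
      rw [iff_true]
      have hrot : Tendsto (fun w : ℂ => ze N ^ s * w) (𝓝[≠] 0) (𝓝[≠] 0) := by
        refine tendsto_nhdsWithin_iff.2 ⟨?_, ?_⟩
        · have := (continuous_const_mul (ze N ^ s)).tendsto (0:ℂ)
          rw [mul_zero] at this
          exact this.mono_left nhdsWithin_le_nhds
        · filter_upwards [self_mem_nhdsWithin] with w hw
          exact mul_ne_zero (pow_ne_zero _ hz0) hw
      filter_upwards [hrot.eventually hYg, hYg] with w h1 h2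
      have h3 : (ze N ^ s) ^ N = 1 := by
        rw [← pow_mul, Nat.mul_comm, pow_mul, hz.pow_eq_one, one_pow]
      rw [h1, h2, mul_pow, h3, one_mul]
    rw [Types.fr_of hall, Finset.filter_true, Finset.card_range]
    exact div_self (by exact_mod_cast hN.ne')
  · exact fun i => Types.comp_pow hN (hφ0 i)
  · filter_upwards [hYg, self_mem_nhdsWithin] with w h1 hw
    have hw' : w ^ N ≠ 0 := pow_ne_zero _ hw
    rw [h1]
    ext i
    fin_cases i
    · simp [hw']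
    · simp only [Pi.smul_apply, smul_eq_mul]
      simp
      field_simp
    · simp

end Pool.Agent.MP_ae5b4e_an_GENC
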