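import Mathlib
import Pool.Agent.Lib.MP_ae5b4e_an_GENC.Defs
import Pool.Agent.Lib.MP_ae5b4e_an_GEN.Local
import Pool.Agent.Lib.MP_ae5b4e_an_GEN.Pairs
import Pool.Agent.Lib.MP_ae5b4e_an_GEN.Core
import Pool.Agent.Lib.MP_ae5b4e_an_GENC.Irr
import Pool.Agent.Lib.MP_ae5b4e_an_GENC.Types
import Pool.Agent.Lib.MP_ae5b4e_an_GENC.PlaceE
import Pool.Agent.Lib.MP_ae5b4e_an_GENC.Lw
import Pool.Agent.Lib.MP_ae5b4e_an_GENC.Exc
import Pool.Agent.Lib.MP_ae5b4e_an_GENC.Fiber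
import Pool.Agent.Lib.MP_ae5b4e_an_GENC.Rh
import Pool.Agent.Lib.MP_ae5b4e_an_GENC.ExistsChart
import Pool.Agent.Lib.MP_ae5b4e_an_GENC.Transfer

/-!
# MP_ae5b4e_an, project GENC: the complex theorem

If there is an algebraic field of projective involutions, with an analytic first integral, near an
irreducible curve of degree `n` all of whose branches have types `(a, b)` with a local bound `β`
and `a + b ≤ A - (A - 3) β`, then `3 n ≤ 2 A`.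

For every place of the pair (curve, field) let `d` be the exponent of the first integral.  The
residue theorem for the trace of `(k / 2 + y''' / (3 y'')) dx` and of `(y''' / y'') dx`, combined
with the Riemann-Hurwitz inequality for the projection `(x, y) ↦ x`, gives the inequality.
-/

noncomputable section

namespace Pool.Agent.MP_ae5b4e_an_GENC

open Filter Topology Set Metric
open scoped Polynomial
open Polynomial (evalEval)
open Pool.Agent.MP_ae5b4e_an_ND (Reg)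
open Pool.Agent.MP_ae5b4e_an_FLEX
open Pool.Agent.MP_ae5b4e_an_GEN

section A13

namespace CoreC

open Pool.Agent.MP_ae5b4e_an_GEN.Core

theorem wr_id {y : ℂ → ℂ} (z : ℂ) : Wr (fun x => x) y z = deriv (deriv y) z := by
  have h1 : deriv (fun x : ℂ => x) = fun _ => 1 := by
    ext x
    exact deriv_id x
  simp [Wr, h1]

/-- the logarithmic derivative of the second derivative is analytic along the branches -/
theorem lw_analytic {m : ℂ[X][X]} (hirr : Irreducible (m.map (algebraMap ℂ[X] (RatFunc ℂ))))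
    {z : ℂ} (hz : Reg m z) {y : ℂ → ℂ} (hy : AnalyticAt ℂ y z)
    (hy' : ∀ᶠ x in 𝓝 z, evalEval x (y x) m = 0) (h2 : deriv (deriv y) z ≠ 0) :
    AnalyticAt ℂ (fun x => lw m x (y x)) z := by
  have h1 : AnalyticAt ℂ (fun x => deriv (deriv (deriv y)) x / deriv (deriv y) x) z :=
    hy.deriv.deriv.deriv.div hy.deriv.deriv h2
  refine h1.congr ?_
  filter_upwards [hy.eventually_analyticAt, hy'.eventually_nhds,
    Pool.Agent.MP_ae5b4e_an_ND.Reg.eventually hirr hz] with x hx1 hx2 hx3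
  exact (lw_eq hx3 hx1 hx2).symm

variable {P : MvPolynomial (Fin 3) ℂ} {n : ℕ} {T : ℕ → ℕ → Prop} {A : ℝ} {m₂ : ℂ[X][X]}
  {S₁ : Set ℂ}

/-- the limits at a finite place -/
theorem fin_lim (h : Chart P n) (hn : 1 ≤ n) (hB : Branches P T) (hA : 3 ≤ A)
    (hT : ∀ a b, T a b → 0 < a ∧ a < b ∧ ∃ β : ℝ, LBd a b β ∧ (a:ℝ) + b ≤ A - (A - 3) * β)
    (hirr₂ : Irreducible (m₂.map (algebraMap ℂ[X] (RatFunc ℂ))))
    (hfinS : (Exc m₂ S₁).Finite) (hexc : ∀ z ∉ S₁, Reg (P1 P) z) {e : ℂ} {N : ℕ} (hN : 0 < N)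
    {Y k : ℂ → ℂ} (hp : PairPlace (P1 P) m₂ (GP (P1 P) m₂) (fun w => e + w ^ N) Y k) :
    ∃ τ₁ τ₂ : ℂ,
      Tendsto (fun w => w ^ N * (k w / 2 + lw (P1 P) (e + w ^ N) (Y w) / 3)) (𝓝[≠] 0) (𝓝 τ₁) ∧
      Tendsto (fun w => w ^ N * lw (P1 P) (e + w ^ N) (Y w)) (𝓝[≠] 0) (𝓝 τ₂) ∧
      τ₂.re + (A - 3) * τ₁.re ≤ -(A * (1 - fr N Y)) := by
  obtain ⟨hirr₁, -, -⟩ := chart_P1 h hn
  have h0 : ∀ᶠ w in 𝓝[≠] (0:ℂ), MvPolynomial.eval ![e + w ^ N, Y w, 1] P = 0 := by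
    filter_upwards [hp.root₁] with w hw
    rw [← evalEval_P1, hw]
  obtain ⟨a, b, μ, φ, hTab, hμ, hfr, hφ, hφL, hPT⟩ := type_fin h hn hB hN hp.merY h0
  obtain ⟨ha, hab, β, hLB, hβ⟩ := hT a b hTab
  have hNC : (N:ℂ) ≠ 0 := Nat.cast_ne_zero.2 hN.ne'
  have hXS := avoid_fin hfinS hN (e := e)
  have hX : MeromorphicAt (fun w : ℂ => e + w ^ N) 0 := by fun_prop
  have hd : ∀ w : ℂ, deriv (fun w : ℂ => e + w ^ N) w = N * w ^ (N - 1) := by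
    intro w
    simp
  have hreg : ∀ᶠ w in 𝓝[≠] (0:ℂ), deriv (fun w : ℂ => e + w ^ N) w ≠ 0 ∧
      Reg (P1 P) (e + w ^ N) ∧ Reg m₂ (e + w ^ N) := by
    filter_upwards [hXS, self_mem_nhdsWithin] with w h1 h2
    refine ⟨?_, hexc _ fun h' => h1 (Or.inl h'), ?_⟩
    · rw [hd]
      exact mul_ne_zero hNC (pow_ne_zero _ h2)
    · by_contra h'
      exact h1 (Or.inr h')
  have hgood := gp_place hirr₁ hirr₂ hX hreg hp
  have hK : MeromorphicAt (fun w => deriv (fun w : ℂ => e + w ^ N) w * k w) 0 :=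
    hX.deriv.mul hp.merk
  obtain ⟨d, hd1, h1, h2⟩ := place_E (L := 0) ha hab hLB hμ hφ (by
    filter_upwards [hφL] with w hw
    rw [hw, pow_zero, one_smul]) hPT hK hgood
  obtain ⟨h3, h4⟩ := lw_fin (m := P1 P) hN hp.merY (k := k) (by
    filter_upwards [hp.root₁, hreg, hgood] with w g1 g2 g3
    exact ⟨g1, g2.2.1, g3.1.2.2.2⟩) h1 h2
  refine ⟨_, _, h3, h4, ?_⟩
  have hNR : (0:ℝ) < N := Nat.cast_pos.2 hN
  have e1 : ((μ * d - 1 + 1) / N - 1 : ℂ).re = fr N Y * d.re - 1 := by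
    have : ((μ * d - 1 + 1) / N - 1 : ℂ) = ((fr N Y : ℝ) : ℂ) * d - 1 := by
      rw [hfr]
      push_cast
      field_simp
      ring
    rw [this]
    simp
  have e2 : ((((a:ℂ) + b) * μ - 3 - 3 * (0:ℕ) + 3) / N - 3 : ℂ).re = fr N Y * (a + b) - 3 := by
    have : ((((a:ℂ) + b) * μ - 3 - 3 * (0:ℕ) + 3) / N - 3 : ℂ) =
        ((fr N Y * (a + b) - 3 : ℝ) : ℂ) := by
      rw [hfr]
      push_cast
      field_simp
      ring
    rw [this, Complex.ofReal_re]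
  rw [e1, e2]
  have hf0 : 0 ≤ fr N Y := by
    rw [hfr]
    positivity
  have h5 : (a:ℝ) + b ≤ A - (A - 3) * d.re := by
    have : (A - 3) * d.re ≤ (A - 3) * β := mul_le_mul_of_nonneg_left hd1 (by linarith)
    linarith
  nlinarith [mul_le_mul_of_nonneg_left h5 hf0]

/-- the limits at an infinite place -/
theorem inf_lim (h : Chart P n) (hn : 1 ≤ n) (hB : Branches P T) (hA : 3 ≤ A)
    (hT : ∀ a b, T a b → 0 < a ∧ a < b ∧ ∃ β : ℝ, LBd a b β ∧ (a:ℝ) + b ≤ A - (A - 3) * β)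
    (hirr₂ : Irreducible (m₂.map (algebraMap ℂ[X] (RatFunc ℂ))))
    (hfinS : (Exc m₂ S₁).Finite) (hexc : ∀ z ∉ S₁, Reg (P1 P) z) {N : ℕ} (hN : 0 < N)
    {Y k : ℂ → ℂ} (hp : PairPlace (P1 P) m₂ (GP (P1 P) m₂) (fun w => (w ^ N)⁻¹) Y k) :
    ∃ τ₁ τ₂ : ℂ,
      Tendsto (fun w => (w ^ N)⁻¹ * (k w / 2 + lw (P1 P) ((w ^ N)⁻¹) (Y w) / 3)) (𝓝[≠] 0)
        (𝓝 τ₁) ∧
      Tendsto (fun w => (w ^ N)⁻¹ * lw (P1 P) ((w ^ N)⁻¹) (Y w)) (𝓝[≠] 0) (𝓝 τ₂) ∧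
      3 - 2 * A ≤ τ₂.re + (A - 3) * τ₁.re := by
  obtain ⟨hirr₁, -, -⟩ := chart_P1 h hn
  have h0 : ∀ᶠ w in 𝓝[≠] (0:ℂ), MvPolynomial.eval ![(w ^ N)⁻¹, Y w, 1] P = 0 := by
    filter_upwards [hp.root₁] with w hw
    rw [← evalEval_P1, hw]
  obtain ⟨a, b, φ, hTab, -, hφ, hφL, hPT⟩ := type_inf h hn hB hN hp.merY h0
  obtain ⟨ha, hab, β, hLB, hβ⟩ := hT a b hTab
  have hNC : (N:ℂ) ≠ 0 := Nat.cast_ne_zero.2 hN.ne'
  have hXS := avoid_inf hfinS hN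
  have hX : MeromorphicAt (fun w : ℂ => (w ^ N)⁻¹) 0 := by fun_prop
  have hd : ∀ w : ℂ, w ≠ 0 → deriv (fun w : ℂ => (w ^ N)⁻¹) w =
      -(N * w ^ (N - 1)) / (w ^ N) ^ 2 := by
    intro w hw
    exact ((hasDerivAt_pow N w).inv (pow_ne_zero N hw)).deriv
  have hreg : ∀ᶠ w in 𝓝[≠] (0:ℂ), deriv (fun w : ℂ => (w ^ N)⁻¹) w ≠ 0 ∧
      Reg (P1 P) ((w ^ N)⁻¹) ∧ Reg m₂ ((w ^ N)⁻¹) := by
    filter_upwards [hXS, self_mem_nhdsWithin] with w h1 h2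
    have h2' : w ≠ 0 := h2
    refine ⟨?_, hexc _ fun h' => h1 (Or.inl h'), ?_⟩
    · rw [hd w h2']
      exact div_ne_zero (neg_ne_zero.2 (mul_ne_zero hNC (pow_ne_zero _ h2')))
        (pow_ne_zero _ (pow_ne_zero _ h2'))
    · by_contra h'
      exact h1 (Or.inr h')
  have hgood := gp_place hirr₁ hirr₂ hX hreg hp
  have hK : MeromorphicAt (fun w => deriv (fun w : ℂ => (w ^ N)⁻¹) w * k w) 0 :=
    hX.deriv.mul hp.merk
  obtain ⟨d, hd1, h1, h2⟩ := place_E (L := N) (μ := N) ha hab hLB hN hφ hφL hPT hK hgood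
  obtain ⟨h3, h4⟩ := lw_inf (m := P1 P) hN hp.merY (k := k) (by
    filter_upwards [hp.root₁, hreg, hgood] with w g1 g2 g3
    exact ⟨g1, g2.2.1, g3.1.2.2.2⟩) h1 h2
  refine ⟨_, _, h3, h4, ?_⟩
  have hNR : (0:ℝ) < N := Nat.cast_pos.2 hN
  have e1 : (-((N:ℂ) * d - 1 + 1) / N - 1 : ℂ).re = -d.re - 1 := by
    have : (-((N:ℂ) * d - 1 + 1) / N - 1 : ℂ) = -d - 1 := by
      field_simp
      ring
    rw [this]
    simp
  have e2 : (-(((a:ℂ) + b) * N - 3 - 3 * N + 3) / N - 3 : ℂ).re = -((a:ℝ) + b) := by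
    have : (-(((a:ℂ) + b) * N - 3 - 3 * N + 3) / N - 3 : ℂ) = ((-((a:ℝ) + b) : ℝ) : ℂ) := by
      push_cast
      field_simp
      ring
    rw [this, Complex.ofReal_re]
  rw [e1, e2]
  have h5 : (a:ℝ) + b ≤ A - (A - 3) * d.re := by
    have : (A - 3) * d.re ≤ (A - 3) * β := mul_le_mul_of_nonneg_left hd1 (by linarith)
    linarith
  nlinarith

/-- the sum over the pairs, from the constancy of the fibers -/
theorem sum_fiber {n₁ n₂ M : ℕ} (Gs : Finset (Fin n₁ × Fin n₂))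
    (hM : ∀ i, (Gs.filter fun p => p.1 = i).card = M) (f : Fin n₁ → ℝ) :
    ∑ p ∈ Gs, f p.1 = M * ∑ i, f i := by
  rw [← Finset.sum_fiberwise_of_maps_to (s := Gs) (t := Finset.univ) (g := fun p => p.1)
    (fun _ _ => Finset.mem_univ _), Finset.mul_sum]
  refine Finset.sum_congr rfl fun i _ => ?_
  rw [Finset.sum_congr rfl (g := fun _ => f i), Finset.sum_const, hM, nsmul_eq_mul]
  intro p hp
  rw [(Finset.mem_filter.1 hp).2]

end CoreC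

open CoreC Pool.Agent.MP_ae5b4e_an_GEN.Core in
/-- The complex theorem in a chart. -/
theorem core_chart {P : MvPolynomial (Fin 3) ℂ} {n : ℕ} (h : Chart P n) (hn : 2 ≤ n)
    {T : ℕ → ℕ → Prop} (hB : Branches P T) {A : ℝ} (hA : 3 ≤ A)
    (hT : ∀ a b, T a b → 0 < a ∧ a < b ∧ ∃ β : ℝ, LBd a b β ∧ (a:ℝ) + b ≤ A - (A - 3) * β)
    {Q : ℂ[X][X]} (hQ : Q ≠ 0) {y k : ℂ → ℂ} {e : ℂ} (hg : GoodG (fun x => x) y k e)
    (hPy : ∀ᶠ z in 𝓝 e, MvPolynomial.eval ![z, y z, 1] P = 0)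
    (hQk : ∀ᶠ z in 𝓝 e, evalEval z (k z) Q = 0) : 3 * (n:ℝ) ≤ 2 * A := by
  classical
  have hn1 : 1 ≤ n := by omega
  obtain ⟨-, hya, hka, hWr⟩ := hg.1
  obtain ⟨hirr₁, hdeg, -⟩ := chart_P1 h hn1
  have hm₁ : ∀ᶠ z in 𝓝 e, evalEval z (y z) (P1 P) = 0 := by
    filter_upwards [hPy] with z hz
    rw [evalEval_P1, hz]
  obtain ⟨m₂, hirr₂, hm₂⟩ := Pool.Agent.MP_ae5b4e_an_ND.exists_factor hka hQ hQk
  rw [wr_id] at hWr
  obtain ⟨S₁, hS₁, hexc⟩ := exc_chart h hn hya hPy hWr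
  obtain ⟨S₀, hS₀⟩ := rh_chart h hn1
  have hE : (Exc m₂ S₁).Finite := exc_fin hirr₂ hS₁
  set S : Finset ℂ := hE.toFinset ∪ S₀ with hSdef
  have hsub : ∀ z, z ∉ (S : Set ℂ) → z ∉ Exc m₂ S₁ := fun z hz hz' =>
    hz (Finset.mem_coe.2 (Finset.mem_union_left _ (hE.mem_toFinset.2 hz')))
  have hLoc : LocG (P1 P) m₂ (S : Set ℂ) (GP (P1 P) m₂) := fun z hz =>
    locG hirr₁ hirr₂ (fun z hz => (hexc z hz).1) z (hsub z hz)
  have hSf : (S : Set ℂ).Finite := S.finite_toSet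
  -- the good points near `e`
  have hgev : ∀ᶠ z in 𝓝 e, GoodG (fun x => x) y k z := by
    have h1 : ∀ᶠ z in 𝓝 e, RegG (fun x => x) y k z := by
      have h2 : ∀ᶠ z in 𝓝 e, Wr (fun x => x) y z ≠ 0 :=
        (GeoProp.wr_analytic hg.1.1 hya).continuousAt.eventually_ne hg.1.2.2.2
      filter_upwards [hya.eventually_analyticAt, hka.eventually_analyticAt, h2] with z h3 h4 h5
      exact ⟨analyticAt_id, h3, h4, h5⟩
    obtain ⟨r, hr, h6⟩ := Metric.eventually_nhds_iff_ball.1 h1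
    filter_upwards [ball_mem_nhds e hr] with z hz
    exact goodG_conn isOpen_ball (convex_ball e r).isPreconnected h6 (mem_ball_self hr) hg z hz
  obtain ⟨z₁, hz₁S, hroot1, hroot2, hGz⟩ : ∃ z₁, z₁ ∉ (S : Set ℂ) ∧
      evalEval z₁ (y z₁) (P1 P) = 0 ∧ evalEval z₁ (k z₁) m₂ = 0 ∧
      GP (P1 P) m₂ z₁ (y z₁) (k z₁) := by
    have h1 : ∀ᶠ z in 𝓝[≠] e, z ∉ (S : Set ℂ) := by
      have h7 : ((S : Set ℂ) \ {e}).Finite := hSf.subset sdiff_subset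
      have h8 : ∀ᶠ z in 𝓝 e, z ∉ (S : Set ℂ) \ {e} :=
        h7.isClosed.isOpen_compl.mem_nhds (by simp)
      filter_upwards [h8.filter_mono nhdsWithin_le_nhds, self_mem_nhdsWithin] with z hz hz2 hz3
      exact hz ⟨hz3, hz2⟩
    have h2 : ∀ᶠ z in 𝓝 e, AnalyticAt ℂ y z ∧ AnalyticAt ℂ k z ∧
        (∀ᶠ x in 𝓝 z, evalEval x (y x) (P1 P) = 0) ∧ (∀ᶠ x in 𝓝 z, evalEval x (k x) m₂ = 0) ∧
        ∀ᶠ x in 𝓝 z, GoodG (fun x => x) y k x := by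
      filter_upwards [hya.eventually_analyticAt, hka.eventually_analyticAt,
        eventually_eventually_nhds.2 hm₁, eventually_eventually_nhds.2 hm₂,
        eventually_eventually_nhds.2 hgev] with z a b c d f using ⟨a, b, c, d, f⟩
    obtain ⟨z₁, h3, h4⟩ := (h1.and (h2.filter_mono nhdsWithin_le_nhds)).exists
    exact ⟨z₁, h3, h4.2.2.1.self_of_nhds, h4.2.2.2.1.self_of_nhds, y, k, h4.1, h4.2.1, rfl, rfl,
      h4.2.2.1, h4.2.2.2.1, h4.2.2.2.2.filter_mono nhdsWithin_le_nhds⟩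
  -- the coverings
  choose N hN Y k Gs hc using fun e => cov_fin hirr₁ hirr₂ hSf hLoc e
  obtain ⟨N', hN', Y', k', Gs', hc'⟩ := cov_inf hirr₁ hirr₂ hSf hLoc
  obtain ⟨M, hM, hcard⟩ := cov_card hSf hLoc hz₁S hroot1 hroot2 hGz
  obtain ⟨M₂, hM₂⟩ := fiber_const hirr₁ hSf hLoc
  -- the members of the coverings are places
  have hpp : ∀ e, ∀ p ∈ Gs e,
      PairPlace (P1 P) m₂ (GP (P1 P) m₂) (fun w => e + w ^ N e) (Y e p.1) (k e p.2) := by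
    intro e p hp
    refine ⟨(hc e).merY p.1, (hc e).merk p.2, ?_, ?_, ?_⟩
    · filter_upwards [(hc e).root₁] with w hw
      exact (hw.2 _).mpr ⟨p.1, rfl⟩
    · filter_upwards [(hc e).root₂] with w hw
      exact (hw.2 _).mpr ⟨p.2, rfl⟩
    · filter_upwards [(hc e).mem] with w hw
      exact (hw p.1 p.2).mpr hp
  have hpp' : ∀ p ∈ Gs',
      PairPlace (P1 P) m₂ (GP (P1 P) m₂) (fun w => (w ^ N')⁻¹) (Y' p.1) (k' p.2) := by
    intro p hp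
    refine ⟨hc'.merY p.1, hc'.merk p.2, ?_, ?_, ?_⟩
    · filter_upwards [hc'.root₁] with w hw
      exact (hw.2 _).mpr ⟨p.1, rfl⟩
    · filter_upwards [hc'.root₂] with w hw
      exact (hw.2 _).mpr ⟨p.2, rfl⟩
    · filter_upwards [hc'.mem] with w hw
      exact (hw p.1 p.2).mpr hp
  have hex : ∀ e (p : Fin (P1 P).natDegree × Fin m₂.natDegree), ∃ τ : ℂ × ℂ, p ∈ Gs e →
      Tendsto (fun w => w ^ N e * (k e p.2 w / 2 + lw (P1 P) (e + w ^ N e) (Y e p.1 w) / 3))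
        (𝓝[≠] 0) (𝓝 τ.1) ∧
      Tendsto (fun w => w ^ N e * lw (P1 P) (e + w ^ N e) (Y e p.1 w)) (𝓝[≠] 0) (𝓝 τ.2) ∧
      τ.2.re + (A - 3) * τ.1.re ≤ -(A * (1 - fr (N e) (Y e p.1))) := by
    intro e p
    by_cases hp : p ∈ Gs e
    · obtain ⟨τ₁, τ₂, h1, h2, h3⟩ := fin_lim h hn1 hB hA hT hirr₂ hE
        (fun z hz => (hexc z hz).1) (hN e) (hpp e p hp)
      exact ⟨(τ₁, τ₂), fun _ => ⟨h1, h2, h3⟩⟩
    · exact ⟨0, fun h => absurd h hp⟩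
  choose τ hτ using hex
  have hex' : ∀ p : Fin (P1 P).natDegree × Fin m₂.natDegree, ∃ τ : ℂ × ℂ, p ∈ Gs' →
      Tendsto (fun w => (w ^ N')⁻¹ * (k' p.2 w / 2 + lw (P1 P) ((w ^ N')⁻¹) (Y' p.1 w) / 3))
        (𝓝[≠] 0) (𝓝 τ.1) ∧
      Tendsto (fun w => (w ^ N')⁻¹ * lw (P1 P) ((w ^ N')⁻¹) (Y' p.1 w)) (𝓝[≠] 0) (𝓝 τ.2) ∧
      3 - 2 * A ≤ τ.2.re + (A - 3) * τ.1.re := by
    intro p
    by_cases hp : p ∈ Gs'
    · obtain ⟨τ₁, τ₂, h1, h2, h3⟩ := inf_lim h hn1 hB hA hT hirr₂ hE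
        (fun z hz => (hexc z hz).1) hN' (hpp' p hp)
      exact ⟨(τ₁, τ₂), fun _ => ⟨h1, h2, h3⟩⟩
    · exact ⟨0, fun h => absurd h hp⟩
  choose τ' hτ' using hex'
  -- the functions
  have hlw : ∀ z ∉ S, ∀ y k : ℂ → ℂ, AnalyticAt ℂ y z → AnalyticAt ℂ k z →
      (∀ᶠ x in 𝓝 z, evalEval x (y x) (P1 P) = 0) → (∀ᶠ x in 𝓝 z, evalEval x (k x) m₂ = 0) →
      GP (P1 P) m₂ z (y z) (k z) → AnalyticAt ℂ (fun x => lw (P1 P) x (y x)) z := by
    intro z hz y k hy _ hy' _ _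
    have hz' : z ∉ S₁ := fun h' => hsub z (by simpa using hz) (Or.inl h')
    exact lw_analytic hirr₁ (hexc z hz').1 hy hy' ((hexc z hz').2 y hy hy')
  have hΦ : ∀ z ∉ S, ∀ y k : ℂ → ℂ, AnalyticAt ℂ y z → AnalyticAt ℂ k z →
      (∀ᶠ x in 𝓝 z, evalEval x (y x) (P1 P) = 0) → (∀ᶠ x in 𝓝 z, evalEval x (k x) m₂ = 0) →
      GP (P1 P) m₂ z (y z) (k z) →
      AnalyticAt ℂ (fun x => k x / 2 + lw (P1 P) x (y x) / 3) z := by
    intro z hz y k hy hk hy' hk' hG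
    have h1 : AnalyticAt ℂ (fun x => k x / 2) z := hk.div_const
    have h2 : AnalyticAt ℂ (fun x => lw (P1 P) x (y x) / 3) z :=
      (hlw z hz y k hy hk hy' hk' hG).div_const
    exact AnalyticAt.fun_add h1 h2
  have hsum1 := trace_sum (m₁ := P1 P) (m₂ := m₂) (G := GP (P1 P) m₂) (S := S) hLoc
    (Φ := fun z η κ => κ / 2 + lw (P1 P) z η / 3) hΦ
    (N := N) (fun e _ => hN e) (Y := Y) (k := k) (Gs := Gs) (fun e _ => hc e)
    (τ := fun e p => (τ e p).1) (fun e _ p hp => (hτ e p hp).1) hN' hc'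
    (τ' := fun p => (τ' p).1) (fun p hp => (hτ' p hp).1)
  have hsum2 := trace_sum (m₁ := P1 P) (m₂ := m₂) (G := GP (P1 P) m₂) (S := S) hLoc
    (Φ := fun z η _ => lw (P1 P) z η) hlw
    (N := N) (fun e _ => hN e) (Y := Y) (k := k) (Gs := Gs) (fun e _ => hc e)
    (τ := fun e p => (τ e p).2) (fun e _ p hp => (hτ e p hp).2.1) hN' hc'
    (τ' := fun p => (τ' p).2) (fun p hp => (hτ' p hp).2.1)
  have hre1 := congrArg Complex.re hsum1
  have hre2 := congrArg Complex.re hsum2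
  simp only [Complex.re_sum] at hre1 hre2
  -- the combination
  have hcomb : ∑ p ∈ Gs', ((τ' p).2.re + (A - 3) * (τ' p).1.re) =
      ∑ e ∈ S, ∑ p ∈ Gs e, ((τ e p).2.re + (A - 3) * (τ e p).1.re) := by
    simp only [Finset.sum_add_distrib, ← Finset.mul_sum]
    rw [hre1, hre2]
  have hlow : (M:ℝ) * (3 - 2 * A) ≤ ∑ p ∈ Gs', ((τ' p).2.re + (A - 3) * (τ' p).1.re) := by
    have hcard' : Gs'.card = M := hcard _ _ _ _ (avoid_inf hSf hN') hc'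
    have := Finset.card_nsmul_le_sum Gs' (fun p => (τ' p).2.re + (A - 3) * (τ' p).1.re)
      (3 - 2 * A) (fun p hp => (hτ' p hp).2.2)
    rwa [hcard', nsmul_eq_mul] at this
  have hup : ∑ e ∈ S, ∑ p ∈ Gs e, ((τ e p).2.re + (A - 3) * (τ e p).1.re) ≤
      -(A * (M₂ * (2 * ((n:ℝ) - 1)))) := by
    have h1 : ∀ e ∈ S, ∑ p ∈ Gs e, ((τ e p).2.re + (A - 3) * (τ e p).1.re) ≤
        -(A * (M₂ * ∑ i, (1 - fr (N e) (Y e i)))) := by
      intro e _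
      have hf : ∀ i, ((Gs e).filter fun p => p.1 = i).card = M₂ :=
        hM₂ _ _ _ _ (avoid_fin hSf (hN e)) (hc e)
      rw [← sum_fiber (Gs e) hf (fun i => 1 - fr (N e) (Y e i)), Finset.mul_sum,
        ← Finset.sum_neg_distrib]
      exact Finset.sum_le_sum fun p hp => (hτ e p hp).2.2
    have h2 := hS₀ S Finset.subset_union_right N Y fun e _ => ⟨hN e, ⟨(hc e).merY, (hc e).root₁⟩⟩
    calc _ ≤ ∑ e ∈ S, -(A * (M₂ * ∑ i, (1 - fr (N e) (Y e i)))) := Finset.sum_le_sum h1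
      _ = -(A * (M₂ * ∑ e ∈ S, ∑ i, (1 - fr (N e) (Y e i)))) := by
        rw [Finset.sum_neg_distrib, ← Finset.mul_sum, ← Finset.mul_sum]
      _ ≤ _ := by
        have h3 : 0 ≤ A * (M₂:ℝ) := mul_nonneg (by linarith) (Nat.cast_nonneg _)
        nlinarith [mul_le_mul_of_nonneg_left h2 h3]
  -- the degree
  have hMM : (M:ℝ) = n * M₂ := by
    have hcard' : Gs'.card = M := hcard _ _ _ _ (avoid_inf hSf hN') hc'
    have hf : ∀ i, (Gs'.filter fun p => p.1 = i).card = M₂ :=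
      hM₂ _ _ _ _ (avoid_inf hSf hN') hc'
    have h1 := sum_fiber Gs' hf (fun _ => (1:ℝ))
    simp only [Finset.sum_const, Finset.card_univ, Fintype.card_fin, nsmul_eq_mul, mul_one,
      hcard', hdeg] at h1
    rw [h1]
    ring
  have hM₂pos : 0 < (M₂:ℝ) := by
    have : 0 < (M:ℝ) := Nat.cast_pos.2 hM
    rw [hMM] at this
    have hnp : 0 < (n:ℝ) := Nat.cast_pos.2 (by omega)
    exact (mul_pos_iff_of_pos_left hnp).1 this
  have hfin := hlow.trans (hcomb.le.trans hup)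
  rw [hMM] at hfin
  have h4 : (M₂:ℝ) * (n * (3 - 2 * A)) ≤ M₂ * (-(A * (2 * ((n:ℝ) - 1)))) := by linarith
  have h5 := le_of_mul_le_mul_left h4 hM₂pos
  linarith

/-- The complex theorem. -/
theorem core_irr {P : MvPolynomial (Fin 3) ℂ} {n : ℕ} (hP : P.IsHomogeneous n) (hn : 2 ≤ n)
    (hirr : Irreducible P)
    {T : ℕ → ℕ → Prop} (hB : Branches P T) {A : ℝ} (hA : 3 ≤ A)
    (hT : ∀ a b, T a b → 0 < a ∧ a < b ∧ ∃ β : ℝ, LBd a b β ∧ (a:ℝ) + b ≤ A - (A - 3) * β)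
    {Q : ℂ[X][X]} (hQ : Q ≠ 0) {y k : ℂ → ℂ} {e : ℂ} (hg : GoodG (fun x => x) y k e)
    (hPy : ∀ᶠ z in 𝓝 e, MvPolynomial.eval ![z, y z, 1] P = 0)
    (hQk : ∀ᶠ z in 𝓝 e, evalEval z (k z) Q = 0) : 3 * (n:ℝ) ≤ 2 * A := by
  obtain ⟨B, hdet, hch⟩ := exists_chart hP (by omega) hirr
  obtain ⟨Q', y', k', e', hQ', hg', hPy', hQk'⟩ := transfer hP hn hirr hQ hg hPy hQk hdet
  exact core_chart hch hn (branches_lsub hB hdet) hA hT hQ' hg' hPy' hQk'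
end A13

end Pool.Agent.MP_ae5b4e_an_GENC
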