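import Mathlib
import Pool.Agent.Lib.MP_ae5b4e_an_hopf.Plane
import Pool.Agent.Lib.MP_ae5b4e_an_GEN.Complexify
import Pool.Agent.Lib.MP_ae5b4e_an_GENC.CoreC

/-!
# MP_ae5b4e_an, project GENC: irreducible curves with flexes and cusps

There is no algebraic field of projective involutions, with an analytic first integral, near an
irreducible curve of degree at least `4` all of whose branches are ordinary, simple flexes or, if
the degree is at least `5`, ordinary cusps.
-/

noncomputable section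

namespace Pool.Agent.MP_ae5b4e_an_GENC

open Filter Topology Set Metric
open scoped Polynomial
open Polynomial (evalEval)
open Pool.Agent.MP_ae5b4e_an_FLEX
open Pool.Agent.MP_ae5b4e_an_GEN

/-- The types of the branches: ordinary points `(1, 2)`, simple flexes `(1, 3)` and, for the degree
`n ≥ 5`, ordinary cusps `(2, 3)`. -/
def Mild (n a b : ℕ) : Prop := (a = 1 ∧ b = 2) ∨ (a = 1 ∧ b = 3) ∨ (5 ≤ n ∧ a = 2 ∧ b = 3)

theorem mild_core {P : MvPolynomial (Fin 3) ℂ} {n : ℕ} (hP : P.IsHomogeneous n) (hn : 4 ≤ n)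
    (hirr : Irreducible P) (hB : Branches P (Mild n)) {Q : ℂ[X][X]} (hQ : Q ≠ 0) {y k : ℂ → ℂ}
    {e : ℂ} (hg : GoodG (fun x => x) y k e)
    (hPy : ∀ᶠ z in 𝓝 e, MvPolynomial.eval ![z, y z, 1] P = 0)
    (hQk : ∀ᶠ z in 𝓝 e, evalEval z (k z) Q = 0) : False := by
  have h4 : (4:ℝ) ≤ n := by exact_mod_cast hn
  rcases Nat.lt_or_ge n 5 with h | h
  · have h1 := core_irr (A := 5) hP (by omega) hirr hB (by norm_num) (by
      rintro a b (⟨rfl, rfl⟩ | ⟨rfl, rfl⟩ | ⟨h5, -⟩)
      · exact ⟨by norm_num, by norm_num, 1, lb_reg, by norm_num⟩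
      · exact ⟨by norm_num, by norm_num, 1 / 2, lb_flex, by norm_num⟩
      · omega) hQ hg hPy hQk
    linarith
  · have h5 : (5:ℝ) ≤ n := by exact_mod_cast h
    have h1 := core_irr (A := 7) hP (by omega) hirr hB (by norm_num) (by
      rintro a b (⟨rfl, rfl⟩ | ⟨rfl, rfl⟩ | ⟨-, rfl, rfl⟩)
      · exact ⟨by norm_num, by norm_num, 1, lb_reg, by norm_num⟩
      · exact ⟨by norm_num, by norm_num, 1 / 2, lb_flex, by norm_num⟩
      · exact ⟨by norm_num, by norm_num, 1 / 2, lb_cusp, by norm_num⟩) hQ hg hPy hQk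
    linarith

end Pool.Agent.MP_ae5b4e_an_GENC
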