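import Mathlib
import Pool.Agent.Lib.MP_ae5b4e_an_GEN.Defs
import Pool.Agent.Lib.MP_ae5b4e_an_hopf.Plane
import Pool.Agent.Lib.MP_ae5b4e_an_GEN.Poly3
import Pool.Agent.Lib.MP_ae5b4e_an_GEN.Local
import Pool.Agent.Lib.MP_ae5b4e_an_GEN.Core
import Pool.Agent.Lib.MP_ae5b4e_an_GEN.Complexify
import Pool.Agent.Lib.MP_ae5b4e_an_GEN.Final
import Pool.Agent.Lib.MP_ae5b4e_an_GEN.Circle
import Pool.Agent.Lib.MP_ae5b4e_an_ALG.Ellipse
import Pool.Agent.Lib.MP_ae5b4e_an_HYP.Final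
import Pool.Agent.Lib.MP_ae5b4e_an_GEN.EllipseTable
import Pool.Agent.Lib.MP_ae5b4e_an_GENC.Final

/-!
# MP_ae5b4e_an, projects GEN and GENC: the final theorem

Tables on algebraic curves with an algebraic field of projective involutions.
-/

noncomputable section

namespace Pool.Agent.MP_ae5b4e_an_GEN

open Filter Topology Set
open scoped Polynomial ContDiff
open Polynomial (evalEval)
open Pool.Agent.MP_ae5b4e_an_hopf

namespace All

/-- Partial derivatives commute. -/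
theorem pderiv_comm (i j : Fin 3) (P : MvPolynomial (Fin 3) ℝ) :
    MvPolynomial.pderiv i (MvPolynomial.pderiv j P) =
      MvPolynomial.pderiv j (MvPolynomial.pderiv i P) := by
  have h : (⁅(MvPolynomial.pderiv i : Derivation ℝ (MvPolynomial (Fin 3) ℝ) (MvPolynomial (Fin 3) ℝ)),
      (MvPolynomial.pderiv j : Derivation ℝ (MvPolynomial (Fin 3) ℝ) (MvPolynomial (Fin 3) ℝ))⁆ :
        Derivation ℝ (MvPolynomial (Fin 3) ℝ) (MvPolynomial (Fin 3) ℝ)) = 0 := by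
    apply MvPolynomial.derivation_ext
    intro k
    rw [Derivation.commutator_apply, MvPolynomial.pderiv_X, MvPolynomial.pderiv_X]
    by_cases h1 : j = k
    · by_cases h2 : i = k
      · simp [h1, h2]
      · simp [h1, h2]
    · by_cases h2 : i = k
      · simp [h2, h1]
      · simp [h2, h1]
  have h2 := congrArg (fun D => D P) h
  simp only [Derivation.commutator_apply] at h2
  exact sub_eq_zero.mp h2

/-- the quadratic polynomial -/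
theorem exists_conic {P : MvPolynomial (Fin 3) ℝ} (hP : P.IsHomogeneous 2) (hP0 : P ≠ 0) :
    ∃ A B C D E F : ℝ, (A, B, C, D, E, F) ≠ (0, 0, 0, 0, 0, 0) ∧
      ∀ x y : ℝ, MvPolynomial.eval ![x, y, 1] P =
        A * x ^ 2 + B * x * y + C * y ^ 2 + D * x + E * y + F := by
  have h1 : ∀ i, (MvPolynomial.pderiv i P).IsHomogeneous 1 := fun i => hP.pderiv
  have h2 : ∀ i j, (MvPolynomial.pderiv j (MvPolynomial.pderiv i P)).IsHomogeneous 0 :=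
    fun i j => (h1 i).pderiv
  have hc : ∀ i j, MvPolynomial.pderiv j (MvPolynomial.pderiv i P) =
      MvPolynomial.C (MvPolynomial.coeff 0 (MvPolynomial.pderiv j (MvPolynomial.pderiv i P))) :=
    fun i j => MvPolynomial.totalDegree_eq_zero_iff_eq_C.1 (Nat.le_zero.1 (h2 i j).totalDegree_le)
  set H : Fin 3 → Fin 3 → ℝ := fun i j =>
    MvPolynomial.coeff 0 (MvPolynomial.pderiv j (MvPolynomial.pderiv i P)) with hH
  have e1 : ∀ i, MvPolynomial.pderiv i P = ∑ j, MvPolynomial.X j * MvPolynomial.C (H i j) := by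
    intro i
    have h3 := (h1 i).sum_X_mul_pderiv
    rw [one_smul] at h3
    rw [← h3]
    exact Finset.sum_congr rfl fun j _ => by rw [← hc i j]
  have e2 : (2:ℕ) • P = ∑ i, MvPolynomial.X i * ∑ j, MvPolynomial.X j * MvPolynomial.C (H i j) := by
    rw [← hP.sum_X_mul_pderiv]
    exact Finset.sum_congr rfl fun i _ => by rw [← e1 i]
  have e3 : ∀ v : Fin 3 → ℝ, 2 * MvPolynomial.eval v P = ∑ i, v i * ∑ j, v j * H i j := by
    intro v
    have h3 := congrArg (MvPolynomial.eval v) e2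
    simpa [nsmul_eq_mul] using h3
  refine ⟨H 0 0 / 2, (H 0 1 + H 1 0) / 2, H 1 1 / 2, (H 0 2 + H 2 0) / 2, (H 1 2 + H 2 1) / 2,
    H 2 2 / 2, ?_, fun x y => ?_⟩
  · intro h0
    simp only [Prod.mk.injEq] at h0
    obtain ⟨h00, h01, h11, h02, h12, h22⟩ := h0
    have hsym : ∀ i j, H i j = H j i := by
      intro i j
      simp only [hH]
      rw [pderiv_comm]
    have z00 : H 0 0 = 0 := by linarith
    have z11 : H 1 1 = 0 := by linarith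
    have z22 : H 2 2 = 0 := by linarith
    have z01 : H 0 1 = 0 := by have := hsym 0 1; linarith
    have z02 : H 0 2 = 0 := by have := hsym 0 2; linarith
    have z12 : H 1 2 = 0 := by have := hsym 1 2; linarith
    have z10 : H 1 0 = 0 := by have := hsym 0 1; linarith
    have z20 : H 2 0 = 0 := by have := hsym 0 2; linarith
    have z21 : H 2 1 = 0 := by have := hsym 1 2; linarith
    apply hP0
    have h3 : (2:ℕ) • P = 0 := by
      rw [e2]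
      simp [Fin.sum_univ_three, z00, z11, z22, z01, z02, z12, z10, z20, z21]
    exact (smul_eq_zero.1 h3).resolve_left (by norm_num)
  · have h3 := e3 ![x, y, 1]
    simp only [Fin.sum_univ_three] at h3
    simp at h3
    linarith


/-- a point of a leaf in the two coordinates -/
theorem pt_mem {γ : ConvexCurve} {S : ℝ → ℝ → ℝ} {c t u : ℝ} (hpos : ∀ t, 0 < S c t)
    (h : γ.pt t u ∈ γ.leaf (fun c t => (S c t)⁻¹) c) :
    u ≠ 0 ∧ ∃ t₁, γ.x t + u⁻¹ * deriv γ.x t = γ.x t₁ + S c t₁ * deriv γ.x t₁ ∧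
      γ.y t + u⁻¹ * deriv γ.y t = γ.y t₁ + S c t₁ * deriv γ.y t₁ := by
  obtain ⟨t₁, ht₁⟩ := h
  simp only [ConvexCurve.pt] at ht₁
  rw [Projectivization.mk_eq_mk_iff'] at ht₁
  obtain ⟨a, ha⟩ := ht₁
  have hS : S c t₁ ≠ 0 := (hpos t₁).ne'
  have h0 := congrFun ha 0
  have h1 := congrFun ha 1
  have h2 := congrFun ha 2
  simp only [ConvexCurve.hvec, Pi.smul_apply, smul_eq_mul, Matrix.cons_val_zero,
    Matrix.cons_val_one, Matrix.cons_val] at h0 h1 h2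
  have hau : a * u ≠ 0 := by
    rw [h2]
    exact inv_ne_zero hS
  have ha0 : a ≠ 0 := left_ne_zero_of_mul hau
  have hu : u ≠ 0 := right_ne_zero_of_mul hau
  have hSa : S c t₁ * (a * u) = 1 := by rw [h2, mul_inv_cancel₀ hS]
  refine ⟨hu, t₁, ?_, ?_⟩
  · field_simp
    have e1 : S c t₁ * (a * (u * γ.x t + deriv γ.x t)) = γ.x t₁ + S c t₁ * deriv γ.x t₁ := by
      rw [h0, mul_add, ← mul_assoc, mul_inv_cancel₀ hS, one_mul]
    linear_combination (-(u * γ.x t + deriv γ.x t)) * hSa + u * e1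
  · field_simp
    have e1 : S c t₁ * (a * (u * γ.y t + deriv γ.y t)) = γ.y t₁ + S c t₁ * deriv γ.y t₁ := by
      rw [h1, mul_add, ← mul_assoc, mul_inv_cancel₀ hS, one_mul]
    linear_combination (-(u * γ.y t + deriv γ.y t)) * hSa + u * e1

/-- equality of points of the tangent lines -/
theorem pt_eq {γ : ConvexCurve} {t t' s s' : ℝ} (hs : 0 < s) (hs' : 0 < s')
    (h : γ.pt t s⁻¹ = γ.pt t' s'⁻¹) :
    γ.x t + s * deriv γ.x t = γ.x t' + s' * deriv γ.x t' ∧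
      γ.y t + s * deriv γ.y t = γ.y t' + s' * deriv γ.y t' := by
  have h1 : γ.pt t s⁻¹ ∈ γ.leaf (fun _ _ => (s')⁻¹) 0 := ⟨t', h.symm⟩
  simp only [ConvexCurve.pt] at h
  rw [Projectivization.mk_eq_mk_iff'] at h
  obtain ⟨a, ha⟩ := h
  have hS : s ≠ 0 := hs.ne'
  have hS' : s' ≠ 0 := hs'.ne'
  have h0 := congrFun ha 0
  have h1 := congrFun ha 1
  have h2 := congrFun ha 2
  simp only [ConvexCurve.hvec, Pi.smul_apply, smul_eq_mul, Matrix.cons_val_zero,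
    Matrix.cons_val_one, Matrix.cons_val] at h0 h1 h2
  have hSa : s * a = s' := by
    field_simp at h2
    linear_combination h2
  constructor
  · have e1 : s * (a * (s'⁻¹ * γ.x t' + deriv γ.x t')) = γ.x t + s * deriv γ.x t := by
      rw [h0, mul_add, ← mul_assoc, mul_inv_cancel₀ hS, one_mul]
    rw [← e1, ← mul_assoc, hSa, mul_add, ← mul_assoc, mul_inv_cancel₀ hS', one_mul]
  · have e1 : s * (a * (s'⁻¹ * γ.y t' + deriv γ.y t')) = γ.y t + s * deriv γ.y t := by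
      rw [h1, mul_add, ← mul_assoc, mul_inv_cancel₀ hS, one_mul]
    rw [← e1, ← mul_assoc, hSa, mul_add, ← mul_assoc, mul_inv_cancel₀ hS', one_mul]

/-- the polynomial is not zero -/
theorem ne_zero {P : MvPolynomial (Fin 3) ℝ} {n : ℕ}
    (hP : SmoothCurve (P.map (algebraMap ℝ ℂ)) n) : P ≠ 0 := by
  rintro rfl
  obtain ⟨i, hi⟩ := hP.ns ![1, 0, 0] (by
    intro h
    have := congrFun h 0
    simp at this) (by simp)
  simp at hi

end All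

open All in
/-- The complex good point of a table with an analytic first integral at one point. -/
theorem good_point (γ : ConvexCurve) (hx : ∀ t, AnalyticAt ℝ γ.x t)
    (hy : ∀ t, AnalyticAt ℝ γ.y t) {P : MvPolynomial (Fin 3) ℝ}
    (hPγ : ∀ t, MvPolynomial.eval ![γ.x t, γ.y t, 1] P = 0)
    (S : ℝ → ℝ → ℝ) (κ : ℝ → ℝ) (t₀ : ℝ) (hκ : Continuous κ) {G : ℝ[X][X]} (hG : G ≠ 0)
    (hrel : ∀ t, deriv γ.x t ≠ 0 → evalEval (γ.x t) (κ t / deriv γ.x t) G = 0)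
    (hsmooth : ContDiffOn ℝ 1 (fun q : ℝ × ℝ => S q.1 q.2) (Ioo 0 1 ×ˢ univ))
    (hpos : ∀ c ∈ Ioo (0:ℝ) 1, ∀ t, 0 < S c t)
    (hsimple : ∀ c ∈ Ioo (0:ℝ) 1, ∀ t t',
      γ.x t + S c t * deriv γ.x t = γ.x t' + S c t' * deriv γ.x t' →
      γ.y t + S c t * deriv γ.y t = γ.y t' + S c t' * deriv γ.y t' → ∃ n : ℤ, t' = t + n * γ.T)
    (hmono : ∀ c ∈ Ioo (0:ℝ) 1, ∀ t, 0 < deriv (fun r => S r t) c)
    (hlim : ∀ t, Tendsto (fun c => S c t) (𝓝[>] 0) (𝓝 0))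
    (hproj : ∀ c ∈ Ioo (0:ℝ) 1, ∀ t s s' t₁ t₂, s ≠ s' →
      γ.x t + s * deriv γ.x t = γ.x t₁ + S c t₁ * deriv γ.x t₁ →
      γ.y t + s * deriv γ.y t = γ.y t₁ + S c t₁ * deriv γ.y t₁ →
      γ.x t + s' * deriv γ.x t = γ.x t₂ + S c t₂ * deriv γ.x t₂ →
      γ.y t + s' * deriv γ.y t = γ.y t₂ + S c t₂ * deriv γ.y t₂ → s⁻¹ + s'⁻¹ = κ t)
    (hana : ∃ (F : ℝ × ℝ → ℝ) (f : ℝ → ℝ), AnalyticAt ℝ F (γ.x t₀, γ.y t₀) ∧
      fderiv ℝ F (γ.x t₀, γ.y t₀) ≠ 0 ∧ ∀ᶠ q in 𝓝 ((0, t₀) : ℝ × ℝ), 0 < q.1 →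
        F (γ.x q.2 + S q.1 q.2 * deriv γ.x q.2, γ.y q.2 + S q.1 q.2 * deriv γ.y q.2) = f q.1) :
    ∃ (e : ℂ) (y k : ℂ → ℂ), Pool.Agent.MP_ae5b4e_an_FLEX.GoodG (fun x => x) y k e ∧
      (∀ᶠ z in 𝓝 e, MvPolynomial.eval ![z, y z, 1] (P.map (algebraMap ℝ ℂ)) = 0) ∧
      ∀ᶠ z in 𝓝 e, evalEval z (k z)
        (G.map (Polynomial.mapRingHom (algebraMap ℝ ℂ))) = 0 := by
  obtain ⟨F, f, hF, hF', hFf⟩ := hana
  set U : ℝ → ℝ → ℝ := fun c t => (S c t)⁻¹ with hU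
  have hcont : ContinuousOn (fun q : ℝ × ℝ => U q.1 q.2) (Ioo 0 1 ×ˢ univ) :=
    hsmooth.continuousOn.inv₀ fun q hq => (hpos q.1 hq.1 q.2).ne'
  have hmonoS : ∀ c ∈ Ioo (0:ℝ) 1, ∀ c' ∈ Ioo (0:ℝ) 1, c < c' → ∀ t, S c t < S c' t := by
    intro c hc c' hc' hcc t
    have h1 : ContinuousOn (fun r => S r t) (Ioo 0 1) :=
      hsmooth.continuousOn.comp (f := fun r : ℝ => ((r, t) : ℝ × ℝ)) (by fun_prop)
        (fun r hr => ⟨hr, mem_univ t⟩)
    have h2 : StrictMonoOn (fun r => S r t) (Ioo 0 1) := by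
      apply strictMonoOn_of_deriv_pos (convex_Ioo 0 1) h1
      intro r hr
      rw [interior_Ioo] at hr
      exact hmono r hr t
    exact h2 hc hc' hcc
  have hmono' : ∀ c ∈ Ioo (0:ℝ) 1, ∀ c' ∈ Ioo (0:ℝ) 1, c < c' → ∀ t, U c' t < U c t := by
    intro c hc c' hc' hcc t
    exact inv_strictAnti₀ (hpos c hc t) (hmonoS c hc c' hc' hcc t)
  have hlim' : ∀ t, Tendsto (fun c => U c t) (𝓝[>] 0) atTop := by
    intro t
    apply Tendsto.inv_tendsto_nhdsGT_zero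
    rw [tendsto_nhdsWithin_iff]
    refine ⟨hlim t, ?_⟩
    filter_upwards [Ioo_mem_nhdsGT (zero_lt_one (α := ℝ))] with c hc
    exact hpos c hc t
  exact complex_point γ hx hy hPγ U κ t₀ hκ hG hrel hcont
    (fun c hc t t' h => by
      obtain ⟨h1, h2⟩ := pt_eq (hpos c hc t) (hpos c hc t') h
      exact hsimple c hc t t' h1 h2) hmono' hlim'
    (fun c hc t u v huv hu hv => by
      obtain ⟨hu0, t₁, h1, h2⟩ := pt_mem (hpos c hc) hu
      obtain ⟨hv0, t₂, h3, h4⟩ := pt_mem (hpos c hc) hv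
      have h5 := hproj c hc t u⁻¹ v⁻¹ t₁ t₂ (fun h => huv (inv_injective h)) h1 h2 h3 h4
      rwa [inv_inv, inv_inv] at h5)
    ⟨F, f, hF, hF', by
      filter_upwards [hFf] with q hq hq0
      have h := hq hq0
      simp only [hU, div_inv_eq_mul]
      rw [mul_comm (deriv γ.x q.2), mul_comm (deriv γ.y q.2)]
      exact h⟩

open All in
/-- **Tables on algebraic curves**: nonsingular curves of any degree, and irreducible curves of
degree at least `4` whose branches are ordinary, simple flexes or (degree at least `5`) cusps. -/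
theorem alg_table (γ : ConvexCurve) (hx : ∀ t, AnalyticAt ℝ γ.x t)
    (hy : ∀ t, AnalyticAt ℝ γ.y t) {P : MvPolynomial (Fin 3) ℝ} {n : ℕ}
    (hP : SmoothCurve (P.map (algebraMap ℝ ℂ)) n ∨
      ((P.map (algebraMap ℝ ℂ)).IsHomogeneous n ∧ Irreducible (P.map (algebraMap ℝ ℂ)) ∧ 4 ≤ n ∧
        Pool.Agent.MP_ae5b4e_an_GENC.Branches (P.map (algebraMap ℝ ℂ))
          (Pool.Agent.MP_ae5b4e_an_GENC.Mild n)))
    (hPγ : ∀ t, MvPolynomial.eval ![γ.x t, γ.y t, 1] P = 0)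
    (S : ℝ → ℝ → ℝ) (κ : ℝ → ℝ) (t₀ : ℝ) (hκ : Continuous κ)
    (halg : ∃ G : ℝ[X][X], G ≠ 0 ∧
      ∀ t, deriv γ.x t ≠ 0 → evalEval (γ.x t) (κ t / deriv γ.x t) G = 0)
    (hsmooth : ContDiffOn ℝ 1 (fun q : ℝ × ℝ => S q.1 q.2) (Ioo 0 1 ×ˢ univ))
    (hpos : ∀ c ∈ Ioo (0:ℝ) 1, ∀ t, 0 < S c t)
    (hper : ∀ c ∈ Ioo (0:ℝ) 1, ∀ t, S c (t + γ.T) = S c t)
    (hsimple : ∀ c ∈ Ioo (0:ℝ) 1, ∀ t t',
      γ.x t + S c t * deriv γ.x t = γ.x t' + S c t' * deriv γ.x t' →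
      γ.y t + S c t * deriv γ.y t = γ.y t' + S c t' * deriv γ.y t' → ∃ n : ℤ, t' = t + n * γ.T)
    (hmono : ∀ c ∈ Ioo (0:ℝ) 1, ∀ t, 0 < deriv (fun r => S r t) c)
    (hlim : ∀ t, Tendsto (fun c => S c t) (𝓝[>] 0) (𝓝 0))
    (hproj : ∀ c ∈ Ioo (0:ℝ) 1, ∀ t s s' t₁ t₂, s ≠ s' →
      γ.x t + s * deriv γ.x t = γ.x t₁ + S c t₁ * deriv γ.x t₁ →
      γ.y t + s * deriv γ.y t = γ.y t₁ + S c t₁ * deriv γ.y t₁ →
      γ.x t + s' * deriv γ.x t = γ.x t₂ + S c t₂ * deriv γ.x t₂ →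
      γ.y t + s' * deriv γ.y t = γ.y t₂ + S c t₂ * deriv γ.y t₂ → s⁻¹ + s'⁻¹ = κ t)
    (hana : 3 ≤ n → ∃ (F : ℝ × ℝ → ℝ) (f : ℝ → ℝ), AnalyticAt ℝ F (γ.x t₀, γ.y t₀) ∧
      fderiv ℝ F (γ.x t₀, γ.y t₀) ≠ 0 ∧ ∀ᶠ q in 𝓝 ((0, t₀) : ℝ × ℝ), 0 < q.1 →
        F (γ.x q.2 + S q.1 q.2 * deriv γ.x q.2, γ.y q.2 + S q.1 q.2 * deriv γ.y q.2) = f q.1) :
    n = 2 ∧ ∃ x₀ y₀ a b c a₁ b₁ d₁ a₂ b₂ d₂ : ℝ, 0 < a ∧ b ^ 2 < a * c ∧
      (∀ x y : ℝ, a * (x - x₀) ^ 2 + 2 * b * (x - x₀) * (y - y₀) + c * (y - y₀) ^ 2 = 1 ↔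
        ∃ t, γ.x t = x ∧ γ.y t = y) ∧
      (∀ x y : ℝ, a * (x - x₀) ^ 2 + 2 * b * (x - x₀) * (y - y₀) + c * (y - y₀) ^ 2 ≤ 1 →
        0 < a₁ * x + b₁ * y + d₁ ∧ 0 < a₂ * x + b₂ * y + d₂) ∧
      ∀ r ∈ Ioo (0:ℝ) 1, ∃ l : ℝ, 0 < l ∧
        (∀ x y : ℝ, (x, y) ≠ (0, 0) → (a₁ * x + b₁ * y) * (a₂ * x + b₂ * y) <
          l * (a * x ^ 2 + 2 * b * x * y + c * y ^ 2)) ∧
        ∀ x y : ℝ, ((a₁ * x + b₁ * y + d₁) * (a₂ * x + b₂ * y + d₂) =
          l * (a * (x - x₀) ^ 2 + 2 * b * (x - x₀) * (y - y₀) + c * (y - y₀) ^ 2 - 1) ↔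
          ∃ t, γ.x t + S r t * deriv γ.x t = x ∧ γ.y t + S r t * deriv γ.y t = y) := by
  have hinj : Function.Injective (Polynomial.mapRingHom (algebraMap ℝ ℂ)) :=
    Polynomial.map_injective _ (algebraMap ℝ ℂ).injective
  rcases hP with hP | ⟨hhom, hirr, hn4, hB⟩
  swap
  · obtain ⟨G, hG, hrel⟩ := halg
    obtain ⟨e, y, k, hg, hPe, hGe⟩ := good_point γ hx hy hPγ S κ t₀ hκ hG hrel hsmooth hpos hsimple
      hmono hlim hproj (hana (by omega))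
    exact (Pool.Agent.MP_ae5b4e_an_GENC.mild_core hhom hn4 hirr hB
      (Q := G.map (Polynomial.mapRingHom (algebraMap ℝ ℂ)))
      ((Polynomial.map_ne_zero_iff hinj).2 hG) hg hPe hGe).elim
  have hP0 := ne_zero hP
  -- the degree is two
  have hn2 : n = 2 := by
    obtain ⟨G, hG, hrel⟩ := halg
    have h2 : 2 ≤ n := Fin1.two_le γ hP fun t => by
      rw [Fin1.eval_map_real, hPγ t, Complex.ofReal_zero]
    by_contra hne
    have h3 : 3 ≤ n := by omega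
    obtain ⟨e, y, k, hg, hPe, hGe⟩ := good_point γ hx hy hPγ S κ t₀ hκ hG hrel hsmooth hpos hsimple
      hmono hlim hproj (hana h3)
    refine core hP h3 (fun f hf1 _ _ => ?_) (Q := G.map (Polynomial.mapRingHom (algebraMap ℝ ℂ)))
      ((Polynomial.map_ne_zero_iff hinj).2 hG) hg hPe hGe
    rcases Nat.lt_or_ge f 2 with hf | hf
    · obtain rfl : f = 1 := by omega
      exact ⟨1 / 2, by norm_num, lb_flex⟩
    · obtain ⟨β, hβ, hLB⟩ := Pool.Agent.MP_ae5b4e_an_HYP.lb_hyp (b := f + 2) (by omega)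
      refine ⟨β, ?_, hLB⟩
      push_cast at hβ
      exact hβ
  subst hn2
  have hP2 : P.IsHomogeneous 2 := by
    refine MvPolynomial.IsHomogeneous.of_map (algebraMap ℝ ℂ).injective ?_
    exact hP.hom
  obtain ⟨A, B, C, D, E, F, hne, hev⟩ := exists_conic hP2 hP0
  obtain ⟨x₀, y₀, a, b, c, ha, hb, hγ, hon⟩ := Pool.Agent.MP_ae5b4e_an_ALG.ellipse_of_conic γ hne
    fun t => by rw [← hev, hPγ t]
  obtain ⟨a₁, b₁, d₁, a₂, b₂, d₂, h1, h2⟩ := ellipse_table γ ha hb hγ S κ halg hsmooth hpos hper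
    hmono hlim hproj
  refine ⟨rfl, x₀, y₀, a, b, c, a₁, b₁, d₁, a₂, b₂, d₂, ha, hb, fun x y => ⟨hon x y, ?_⟩, h1, h2⟩
  rintro ⟨t, rfl, rfl⟩
  exact hγ t

end Pool.Agent.MP_ae5b4e_an_GEN
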