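import Mathlib
import Pool.Agent.Lib.MP_ae5b4e_an_GENC.Defs
import Pool.Agent.Lib.MP_ae5b4e_an_GEN.Count
import Pool.Agent.Lib.MP_ae5b4e_an_LAT.NDGood
import Pool.Agent.Lib.MP_ae5b4e_an_ALG.Branches

/-!
# MP_ae5b4e_an, project GENC, module A7: the number of good pairs over a branch
-/

set_option autoImplicit false

noncomputable section

namespace Pool.Agent.MP_ae5b4e_an_GENC

namespace FiberA7

open Polynomial Filter Topology
open Pool.Agent.MP_ae5b4e_an_ND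

/-- all branches are good, with an additional finite exceptional set -/
theorem all_goodS {m : ℂ[X][X]} (hirr : Irreducible (m.map (algebraMap ℂ[X] (RatFunc ℂ))))
    {S : Set ℂ} (hS : S.Finite) (Good : ℂ → ℂ → Prop)
    (hloc : ∀ x₀, x₀ ∉ S → Reg m x₀ → ∀ b : ℂ → ℂ, AnalyticAt ℂ b x₀ →
      (∀ᶠ x in 𝓝 x₀, evalEval x (b x) m = 0) →
      ∀ᶠ x in 𝓝 x₀, (Good x (b x) ↔ Good x₀ (b x₀)))
    {x₁ t₁ : ℂ} (hs₁ : x₁ ∉ S) (hx₁ : Reg m x₁) (ht₁ : evalEval x₁ t₁ m = 0) (hg₁ : Good x₁ t₁)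
    {x t : ℂ} (hs : x ∉ S) (hx : Reg m x) (ht : evalEval x t m = 0) : Good x t := by
  classical
  set n := m.natDegree with hn
  set E : Finset ℂ := ((reg_finite hirr).union hS).toFinset with hE
  have hmemE : ∀ z, z ∉ E ↔ Reg m z ∧ z ∉ S := by
    intro z
    rw [hE, Set.Finite.mem_toFinset, Set.mem_union, Set.mem_ofPred_eq, not_or, not_not]
  -- local structure
  have hlocal : ∀ z, z ∉ S → Reg m z → ∀ k, AnalyticAt ℂ (fun x => (gpoly m Good x).coeff k) z := by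
    intro z hzS hz k
    obtain ⟨B, hB, hB'⟩ := local_rts hz
    have hgood : ∀ᶠ x in 𝓝 z, ∀ t ∈ rts m z, (Good x (B t x) ↔ Good z t) := by
      rw [Filter.eventually_all_finset]
      intro t ht
      have := hloc z hzS hz (B t) (hB t ht).1 (hB t ht).2.2
      rw [(hB t ht).2.1] at this
      exact this
    have han := analyticAt_coeff_prod ((rts m z).filter (Good z)) B (x₀ := z)
      (fun t ht => (hB t (Finset.mem_filter.1 ht).1).1) k
    refine han.congr ?_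
    filter_upwards [hB', hgood] with x hx1 hx2
    have e1 : (rts m x).filter (Good x) =
        ((rts m z).filter (Good z)).image fun t => B t x := by
      rw [hx1.2, Finset.filter_image]
      congr 1
      refine Finset.filter_congr fun t ht => ?_
      exact hx2 t ht
    rw [gpoly, e1, Finset.prod_image]
    intro t ht t' ht' htt
    exact hx1.1 (Finset.mem_filter.1 ht).1 (Finset.mem_filter.1 ht').1 htt
  -- the coefficients are rational
  obtain ⟨C0, L, hC0, hCL⟩ := sum_bound m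
  have hrat : ∀ k, ∃ P : ℂ[X], ∀ z, (∏ e ∈ E, (z - e) ^ 2) *
      (m.leadingCoeff.eval z ^ n * (gpoly m Good z).coeff k) = P.eval z := by
    intro k
    refine rational_of_bound E (f := fun z => m.leadingCoeff.eval z ^ n * (gpoly m Good z).coeff k)
      (C := (2 * C0) ^ n) (L := L * n) (fun z hz => ?_) fun z hz => ?_
    · refine DifferentiableAt.mul ?_ (hlocal z ((hmemE z).1 hz).2 ((hmemE z).1 hz).1 k).differentiableAt
      exact (m.leadingCoeff.differentiable.pow n).differentiableAt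
    · refine (norm_coeff_gpoly_le ((hmemE z).1 hz).1.1 k).trans ?_
      rw [pow_mul, ← mul_pow, ← hn, mul_assoc]
      gcongr
      exact hCL z
  choose P hP using hrat
  set G : ℂ[X][X] := ∑ k ∈ Finset.range (n + 1), C (P k) * X ^ k with hG
  set D : ℂ → ℂ := fun z => (∏ e ∈ E, (z - e) ^ 2) * m.leadingCoeff.eval z ^ n with hD
  have hGev : ∀ z s, evalEval z s G = D z * (gpoly m Good z).eval s := by
    intro z s
    rw [hG, evalEval_finsetSum, eval_eq_sum_range' (n := n + 1)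
      (Nat.lt_succ_of_le natDegree_gpoly_le), Finset.mul_sum]
    refine Finset.sum_congr rfl fun k _ => ?_
    rw [evalEval_mul, evalEval_C, evalEval_pow, evalEval_X, ← hP k z]
    simp only [hD]
    ring
  have hDne : ∀ z, z ∉ S → Reg m z → D z ≠ 0 := by
    intro z hzS hz
    refine mul_ne_zero (Finset.prod_ne_zero_iff.2 fun e he => ?_) (pow_ne_zero _ hz.1)
    refine pow_ne_zero _ (sub_ne_zero.2 ?_)
    rintro rfl
    exact (hmemE z).2 ⟨hz, hzS⟩ he
  have hdvd : m.map (algebraMap ℂ[X] (RatFunc ℂ)) ∣ G.map (algebraMap ℂ[X] (RatFunc ℂ)) := by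
    by_contra hcon
    obtain ⟨d, hd, A, B, hAB⟩ := clear_coprime (hirr.coprime_iff_not_dvd.2 hcon)
    obtain ⟨b, hb1, hb2, hb3⟩ := branch ht₁ (hx₁.2 t₁ ht₁)
    have hb4 := branch_eq hb1.continuousAt hb2 hb3
    have hb5 := hloc x₁ hs₁ hx₁ b hb1 hb4
    have hb6 : ∀ᶠ x in 𝓝 x₁, m.leadingCoeff.eval x ≠ 0 :=
      m.leadingCoeff.continuous.continuousAt.eventually_ne hx₁.1
    have hb7 : ∀ᶠ x in 𝓝 x₁, d.eval x = 0 := by
      filter_upwards [hb4, hb5, hb6] with x e1 e2 e3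
      have e4 : Good x (b x) := e2.2 (by rw [hb2]; exact hg₁)
      have e5 : (gpoly m Good x).eval (b x) = 0 :=
        eval_gpoly_eq_zero.2 ⟨(mem_rts e3).2 e1, e4⟩
      have e6 := congrArg (evalEval x (b x)) hAB
      rw [evalEval_add, evalEval_mul, evalEval_mul, e1, hGev, e5, evalEval_C] at e6
      simpa using e6.symm
    refine hd (eq_zero_of_infinite_isRoot d ?_)
    exact infinite_of_mem_nhds x₁ hb7
  obtain ⟨d, hd, H, hH⟩ := clear_dvd hdvd
  have hgen : ∀ z s, z ∉ S → Reg m z → d.eval z ≠ 0 → evalEval z s m = 0 → Good z s := by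
    intro z s hzS hz hdz hs0
    have e1 := congrArg (evalEval z s) hH
    rw [evalEval_mul, evalEval_mul, evalEval_C, hs0, mul_zero, hGev] at e1
    have e2 : (gpoly m Good z).eval s = 0 := by
      rcases mul_eq_zero.1 e1 with h | h
      · exact absurd h hdz
      · rcases mul_eq_zero.1 h with h | h
        · exact absurd h (hDne z hzS hz)
        · exact h
    exact (eval_gpoly_eq_zero.1 e2).2
  obtain ⟨b, hb1, hb2, hb3⟩ := branch ht (hx.2 t ht)
  have hb4 := branch_eq hb1.continuousAt hb2 hb3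
  have hb5 := hloc x hs hx b hb1 hb4
  have hb6 : ∀ᶠ z in 𝓝 x, Reg m z ∧ z ∉ S := by
    have h1 : (↑E : Set ℂ)ᶜ ∈ 𝓝 x :=
      (E.finite_toSet.isClosed.isOpen_compl).mem_nhds (by
        simp only [Set.mem_compl_iff, Finset.mem_coe]
        exact (hmemE x).2 ⟨hx, hs⟩)
    filter_upwards [h1] with z hz
    exact (hmemE z).1 (by simpa using hz)
  have hb7 : ∀ᶠ z in 𝓝[≠] x, d.eval z ≠ 0 := by
    have h1 : ((↑d.roots.toFinset : Set ℂ) \ {x})ᶜ ∈ 𝓝 x :=
      (((d.roots.toFinset.finite_toSet).subset Set.sdiff_subset).isClosed.isOpen_compl).mem_nhds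
        (by simp)
    filter_upwards [nhdsWithin_le_nhds h1, self_mem_nhdsWithin] with z hz hz' h0
    apply hz
    refine ⟨?_, hz'⟩
    simp only [Finset.mem_coe, Multiset.mem_toFinset]
    exact (mem_roots hd).2 h0
  have hb8 : ∀ᶠ z in 𝓝[≠] x, Good x t := by
    filter_upwards [nhdsWithin_le_nhds hb4, nhdsWithin_le_nhds hb5, nhdsWithin_le_nhds hb6, hb7]
      with z e1 e2 e3 e4
    have := e2.1 (hgen z (b z) e3.2 e3.1 e4 e1)
    rwa [hb2] at this
  exact hb8.exists.choose_spec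

end FiberA7

open Filter Topology Set Metric
open scoped Polynomial
open Polynomial (evalEval)
open Pool.Agent.MP_ae5b4e_an_ND (Reg)
open Pool.Agent.MP_ae5b4e_an_FLEX
open Pool.Agent.MP_ae5b4e_an_GEN

namespace FiberA7

open Pool.Agent.MP_ae5b4e_an_ND (rts)

open Classical in
/-- the good values of the second function -/
def fib (m₂ : ℂ[X][X]) (G : ℂ → ℂ → ℂ → Prop) (z η : ℂ) : Finset ℂ :=
  (rts m₂ z).filter (G z η)

theorem mem_fib {m₂ : ℂ[X][X]} {G : ℂ → ℂ → ℂ → Prop} {z η κ : ℂ} (h : Reg m₂ z) :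
    κ ∈ fib m₂ G z η ↔ evalEval z κ m₂ = 0 ∧ G z η κ := by
  classical
  rw [fib, Finset.mem_filter, Pool.Agent.MP_ae5b4e_an_ND.mem_rts h.1]

variable {m₁ m₂ : ℂ[X][X]} {G : ℂ → ℂ → ℂ → Prop} {S : Set ℂ}

/-- The number of the good values is constant along the branches. -/
theorem fib_loc (hG : LocG m₁ m₂ S G) {z₀ : ℂ} (hz₀ : z₀ ∉ S) {y : ℂ → ℂ} (hy : AnalyticAt ℂ y z₀)
    (hy' : ∀ᶠ x in 𝓝 z₀, evalEval x (y x) m₁ = 0) :
    ∀ᶠ z in 𝓝 z₀, (fib m₂ G z (y z)).card = (fib m₂ G z₀ (y z₀)).card := by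
  classical
  obtain ⟨hr1, hr2, hloc⟩ := hG z₀ hz₀
  obtain ⟨B, hB, he⟩ := Pool.Agent.MP_ae5b4e_an_ND.local_rts hr2
  have h1 : ∀ᶠ z in 𝓝 z₀, ∀ t ∈ rts m₂ z₀, (G z (y z) (B t z) ↔ G z₀ (y z₀) t) := by
    rw [Filter.eventually_all_finset]
    intro t ht
    have h2 := hloc y (B t) hy (hB _ ht).1 hy' (hB _ ht).2.2
    rw [(hB _ ht).2.1] at h2
    exact h2
  filter_upwards [h1, he] with z hz hz2
  have himg : fib m₂ G z (y z) = (fib m₂ G z₀ (y z₀)).image (fun t => B t z) := by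
    rw [fib, fib, hz2.2, Finset.filter_image]
    congr 1
    exact Finset.filter_congr fun t ht => hz t ht
  rw [himg, Finset.card_image_of_injOn]
  intro t ht t' ht' heq
  rw [Finset.mem_coe, fib, Finset.mem_filter] at ht ht'
  exact hz2.1 ht.1 ht'.1 heq

/-- The number of the good values is the same for all branches. -/
theorem fib_const (hirr₁ : Irreducible (m₁.map (algebraMap ℂ[X] (RatFunc ℂ)))) (hS : S.Finite)
    (hG : LocG m₁ m₂ S G) {z z' η η' : ℂ} (hz : z ∉ S) (hz' : z' ∉ S)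
    (h : evalEval z η m₁ = 0) (h' : evalEval z' η' m₁ = 0) :
    (fib m₂ G z η).card = (fib m₂ G z' η').card := by
  refine all_goodS hirr₁ hS (fun x t => (fib m₂ G x t).card = (fib m₂ G z' η').card) ?_
    hz' (hG z' hz').1 h' rfl hz (hG z hz).1 h
  intro x₀ hx₀ _ b hb hb'
  filter_upwards [fib_loc hG hx₀ hb hb'] with x hx
  rw [hx]

/-- The number of the good values in terms of a covering. -/
theorem fib_cov {X : ℂ → ℂ} {Y : Fin m₁.natDegree → ℂ → ℂ} {k : Fin m₂.natDegree → ℂ → ℂ}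
    {Gs : Finset (Fin m₁.natDegree × Fin m₂.natDegree)} (hG : LocG m₁ m₂ S G)
    (hX : ∀ᶠ w in 𝓝[≠] (0:ℂ), X w ∉ S) (hc : Cov m₁ m₂ G X Y k Gs) (i : Fin m₁.natDegree) :
    ∃ z η : ℂ, z ∉ S ∧ evalEval z η m₁ = 0 ∧
      (fib m₂ G z η).card = (Gs.filter fun p => p.1 = i).card := by
  classical
  obtain ⟨w, hw, hw1, hw2, hw3⟩ :=
    (hX.and (hc.root₁.and (hc.root₂.and hc.mem))).exists
  refine ⟨X w, Y i w, hw, (hw1.2 _).mpr ⟨i, rfl⟩, ?_⟩
  obtain ⟨hs1, hs2, _⟩ := hG (X w) hw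
  have himg : fib m₂ G (X w) (Y i w) = (Gs.filter fun p => p.1 = i).image (fun p => k p.2 w) := by
    ext b
    rw [mem_fib hs2, Finset.mem_image]
    constructor
    · rintro ⟨hb, hg⟩
      obtain ⟨j, hj⟩ := (hw2.2 b).mp hb
      rw [hj] at hg
      exact ⟨(i, j), Finset.mem_filter.mpr ⟨(hw3 i j).mp hg, rfl⟩, hj.symm⟩
    · rintro ⟨⟨i', j⟩, hij, heq⟩
      rw [Finset.mem_filter] at hij
      obtain ⟨h1, h2⟩ := hij
      simp only at h2 heq
      subst h2
      refine ⟨(hw2.2 b).mpr ⟨j, heq.symm⟩, ?_⟩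
      rw [← heq]
      exact (hw3 i' j).mpr h1
  rw [himg, Finset.card_image_of_injOn]
  rintro ⟨i₁, j₁⟩ h1 ⟨i₂, j₂⟩ h2 heq
  rw [Finset.mem_coe, Finset.mem_filter] at h1 h2
  have e1 := h1.2
  have e2 := h2.2
  simp only at e1 e2 heq
  rw [Prod.mk.injEq]
  exact ⟨e1.trans e2.symm, hw2.1 heq⟩

end FiberA7

/-- the number of the pairs in `G` over a branch of `m₁` is constant -/
theorem fiber_const {m₁ m₂ : ℂ[X][X]} {G : ℂ → ℂ → ℂ → Prop} {S : Set ℂ}
    (hirr₁ : Irreducible (m₁.map (algebraMap ℂ[X] (RatFunc ℂ)))) (hS : S.Finite)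
    (hG : LocG m₁ m₂ S G) :
    ∃ M : ℕ, ∀ (X : ℂ → ℂ) (Y : Fin m₁.natDegree → ℂ → ℂ) (k : Fin m₂.natDegree → ℂ → ℂ)
      (Gs : Finset (Fin m₁.natDegree × Fin m₂.natDegree)),
      (∀ᶠ w in 𝓝[≠] (0:ℂ), X w ∉ S) → Cov m₁ m₂ G X Y k Gs →
      ∀ i, (Gs.filter fun p => p.1 = i).card = M := by
  classical
  by_cases hex : ∃ z η : ℂ, z ∉ S ∧ evalEval z η m₁ = 0
  · obtain ⟨z', η', hz', h'⟩ := hex
    refine ⟨(FiberA7.fib m₂ G z' η').card, ?_⟩
    intro X Y k Gs hX hc i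
    obtain ⟨z, η, hz, h, he⟩ := FiberA7.fib_cov hG hX hc i
    rw [← he]
    exact FiberA7.fib_const hirr₁ hS hG hz hz' h h'
  · refine ⟨0, ?_⟩
    intro X Y k Gs hX hc i
    obtain ⟨z, η, hz, h, _⟩ := FiberA7.fib_cov hG hX hc i
    exact absurd ⟨z, η, hz, h⟩ hex

end Pool.Agent.MP_ae5b4e_an_GENC
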